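import Mathlib

/-! The Euler operator of a Noetherian algebra at a rational point, and Krull's intersection
theorem. -/

set_option autoImplicit false

namespace Pool.Agent.U282.ZL

open Module

variable {K A : Type*} [Field K] [CommRing A] [Algebra K A] (ev : A →ₐ[K] K)

/-- The augmentation ideal. -/
def aug : Ideal A := RingHom.ker ev

theorem mem_aug (f : A) : f ∈ aug ev ↔ ev f = 0 := RingHom.mem_ker

theorem sub_mem_aug (f : A) : f - algebraMap K A (ev f) ∈ aug ev := by
  rw [mem_aug, map_sub, AlgHom.commutes]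
  simp

theorem exists_dual [IsNoetherianRing A] : ∃ (r : ℕ) (t : Fin r → A) (δ : Fin r → (A →ₗ[K] K)),
    (∀ k, t k ∈ aug ev) ∧ (∀ k f f', δ k (f * f') = δ k f * ev f' + ev f * δ k f') ∧
      ∀ f, f - algebraMap K A (ev f) - ∑ k, δ k f • t k ∈ aug ev ^ 2 := by
  let π : A →ₗ[K] (A ⧸ (aug ev ^ 2)) := (Ideal.Quotient.mkₐ K (aug ev ^ 2)).toLinearMap
  have hπ : ∀ f, π f = 0 ↔ f ∈ aug ev ^ 2 := fun f => Ideal.Quotient.eq_zero_iff_mem
  let E : Submodule K (A ⧸ (aug ev ^ 2)) := ((aug ev).restrictScalars K).map π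
  obtain ⟨s, hs⟩ := (inferInstance : IsNoetherianRing A).noetherian (aug ev)
  have hE : E ≤ Submodule.span K (π '' (s : Set A)) := by
    rintro _ ⟨f, hf, rfl⟩
    have hf' : f ∈ Submodule.span A (s : Set A) := by rw [hs]; exact hf
    clear hf
    induction hf' using Submodule.span_induction with
    | mem x hx => exact Submodule.subset_span ⟨x, hx, rfl⟩
    | zero => rw [map_zero]; exact Submodule.zero_mem _
    | add x y _ _ hx hy => rw [map_add]; exact Submodule.add_mem _ hx hy
    | smul a x hx' hx =>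
      have h1 : π (a • x) = ev a • π x := by
        rw [← sub_eq_zero, ← map_smul, ← map_sub, hπ]
        have e : a • x - ev a • x = (a - algebraMap K A (ev a)) * x := by
          rw [sub_mul, smul_eq_mul, Algebra.smul_def]
        rw [e, pow_two]
        refine Ideal.mul_mem_mul (sub_mem_aug ev a) ?_
        rw [← hs]
        exact hx'
      rw [h1]
      exact Submodule.smul_mem _ _ hx
  have hfin : FiniteDimensional K E := by
    have h1 : FiniteDimensional K (Submodule.span K (π '' (s : Set A))) :=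
      FiniteDimensional.span_of_finite K (s.finite_toSet.image π)
    exact Submodule.finiteDimensional_of_le hE
  let e : Basis (Fin (finrank K E)) K E := Module.finBasis K E
  have hlift : ∀ k, ∃ t ∈ aug ev, π t = (e k : A ⧸ (aug ev ^ 2)) := by
    intro k
    obtain ⟨t, ht, h⟩ := (e k).2
    exact ⟨t, ht, h⟩
  choose t ht1 ht2 using hlift
  let τ : A →ₗ[K] A := LinearMap.id - (Algebra.linearMap K A) ∘ₗ ev.toLinearMap
  have hτ : ∀ f, τ f = f - algebraMap K A (ev f) := fun f => rfl
  have hτE : ∀ f, (π ∘ₗ τ) f ∈ E := by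
    intro f
    exact ⟨τ f, by rw [hτ]; exact sub_mem_aug ev f, rfl⟩
  let θ : A →ₗ[K] E := (π ∘ₗ τ).codRestrict E hτE
  have hθ : ∀ f, (θ f : A ⧸ (aug ev ^ 2)) = π (f - algebraMap K A (ev f)) := fun f => rfl
  have hmul : ∀ f f', θ (f * f') = ev f' • θ f + ev f • θ f' := by
    intro f f'
    apply Subtype.ext
    rw [Submodule.coe_add, Submodule.coe_smul, Submodule.coe_smul, hθ, hθ, hθ, ← map_smul,
      ← map_smul, ← map_add, ← sub_eq_zero, ← map_sub, hπ]
    have e : f * f' - algebraMap K A (ev (f * f')) -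
        (ev f' • (f - algebraMap K A (ev f)) + ev f • (f' - algebraMap K A (ev f'))) =
        (f - algebraMap K A (ev f)) * (f' - algebraMap K A (ev f')) := by
      rw [map_mul, map_mul, Algebra.smul_def, Algebra.smul_def]
      ring
    rw [e, pow_two]
    exact Ideal.mul_mem_mul (sub_mem_aug ev f) (sub_mem_aug ev f')
  refine ⟨finrank K E, t, fun k => (e.coord k) ∘ₗ θ, ht1, ?_, ?_⟩
  · intro k f f'
    rw [LinearMap.comp_apply, hmul, map_add, map_smul, map_smul]
    simp only [LinearMap.comp_apply, smul_eq_mul]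
    ring
  · intro f
    rw [← hπ, map_sub, ← hθ, map_sum]
    have h1 : ∀ k, π (((e.coord k) ∘ₗ θ) f • t k) = ((e.repr (θ f)) k • e k : E) := by
      intro k
      rw [map_smul, ht2]
      rfl
    rw [Finset.sum_congr rfl fun k _ => h1 k, ← Submodule.coe_sum, e.sum_repr, sub_self]

theorem euler_pow {r : ℕ} (t : Fin r → A) (δ : Fin r → (A →ₗ[K] K)) (ht : ∀ k, t k ∈ aug ev)
    (hdual : ∀ f, f - algebraMap K A (ev f) - ∑ k, δ k f • t k ∈ aug ev ^ 2)
    (D : Fin r → (A →ₗ[K] A)) (hD : ∀ k f f', D k (f * f') = D k f * f' + f * D k f')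
    (hDev : ∀ k f, ev (D k f) = δ k f) (n : ℕ) :
    ∀ f ∈ aug ev ^ n, ∑ k, t k * D k f - (n : A) * f ∈ aug ev ^ (n + 1) := by
  have h1 : ∀ f ∈ aug ev, ∑ k, t k * D k f - f ∈ aug ev ^ 2 := by
    intro f hf
    have h2 := hdual f
    rw [(mem_aug ev f).1 hf, map_zero, sub_zero] at h2
    have h3 : ∑ k, t k * (D k f - algebraMap K A (δ k f)) ∈ aug ev ^ 2 := by
      refine Ideal.sum_mem _ fun k _ => ?_
      rw [pow_two]
      refine Ideal.mul_mem_mul (ht k) ?_
      rw [← hDev k f]
      exact sub_mem_aug ev _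
    have h4 := Ideal.sub_mem _ h3 h2
    have e : ∑ k, t k * (D k f - algebraMap K A (δ k f)) - (f - ∑ k, δ k f • t k) =
        ∑ k, t k * D k f - f := by
      have e1 : ∑ k, t k * (D k f - algebraMap K A (δ k f)) = ∑ k, t k * D k f -
          ∑ k, δ k f • t k := by
        rw [← Finset.sum_sub_distrib]
        refine Finset.sum_congr rfl fun k _ => ?_
        rw [mul_sub, Algebra.smul_def, mul_comm (t k) (algebraMap K A (δ k f))]
      rw [e1]; ring
    rwa [e] at h4
  induction n with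
  | zero =>
    intro f _
    rw [Nat.cast_zero, zero_mul, sub_zero, zero_add, pow_one]
    exact Ideal.sum_mem _ fun k _ => Ideal.mul_mem_right _ _ (ht k)
  | succ n ih =>
    intro f hf
    rw [pow_succ] at hf
    refine Submodule.mul_induction_on hf ?_ ?_
    · intro a ha b hb
      have h5 := Ideal.mul_mem_mul (ih a ha) hb
      have h6 := Ideal.mul_mem_mul ha (h1 b hb)
      rw [← pow_succ] at h5
      rw [← pow_add] at h6
      have h7 := Ideal.add_mem _ h5 h6
      have e : (∑ k, t k * D k a - (n : A) * a) * b + a * (∑ k, t k * D k b - b) =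
          ∑ k, t k * D k (a * b) - ((n + 1 : ℕ) : A) * (a * b) := by
        have e1 : ∑ k, t k * D k (a * b) = (∑ k, t k * D k a) * b + a * (∑ k, t k * D k b) := by
          rw [Finset.sum_mul, Finset.mul_sum, ← Finset.sum_add_distrib]
          refine Finset.sum_congr rfl fun k _ => ?_
          rw [hD]; ring
        rw [e1]; push_cast; ring
      rw [e] at h7
      exact h7
    · intro x y hx hy
      have h5 := Ideal.add_mem _ hx hy
      have e : ∑ k, t k * D k x - ((n + 1 : ℕ) : A) * x + (∑ k, t k * D k y - ((n + 1 : ℕ) : A) * y) =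
          ∑ k, t k * D k (x + y) - ((n + 1 : ℕ) : A) * (x + y) := by
        have e1 : ∑ k, t k * D k (x + y) = (∑ k, t k * D k x) + (∑ k, t k * D k y) := by
          rw [← Finset.sum_add_distrib]
          refine Finset.sum_congr rfl fun k _ => ?_
          rw [map_add, mul_add]
        rw [e1]; ring
      rw [e] at h5
      exact h5

theorem all_pow [CharZero K] {r : ℕ} (t : Fin r → A) (δ : Fin r → (A →ₗ[K] K))
    (ht : ∀ k, t k ∈ aug ev)
    (hdual : ∀ f, f - algebraMap K A (ev f) - ∑ k, δ k f • t k ∈ aug ev ^ 2)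
    (D : Fin r → (A →ₗ[K] A)) (hD : ∀ k f f', D k (f * f') = D k f * f' + f * D k f')
    (hDev : ∀ k f, ev (D k f) = δ k f) (S : Set A) (hS : ∀ f ∈ S, ev f = 0)
    (hSD : ∀ k, ∀ f ∈ S, D k f ∈ S) (n : ℕ) : ∀ f ∈ S, f ∈ aug ev ^ (n + 1) := by
  induction n with
  | zero =>
    intro f hf
    rw [zero_add, pow_one, mem_aug]
    exact hS f hf
  | succ n ih =>
    intro f hf
    have h1 := euler_pow ev t δ ht hdual D hD hDev (n + 1) f (ih f hf)
    have h2 : ∑ k, t k * D k f ∈ aug ev ^ (n + 1 + 1) := by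
      refine Ideal.sum_mem _ fun k _ => ?_
      rw [pow_succ, mul_comm (aug ev ^ (n + 1))]
      exact Ideal.mul_mem_mul (ht k) (ih _ (hSD k f hf))
    have h3 := Ideal.sub_mem _ h2 h1
    rw [sub_sub_cancel] at h3
    have h4 := Ideal.mul_mem_left _ (algebraMap K A ((n + 1 : ℕ) : K)⁻¹) h3
    have hne : ((n + 1 : ℕ) : K) ≠ 0 := Nat.cast_ne_zero.2 (Nat.succ_ne_zero n)
    have e : algebraMap K A ((n + 1 : ℕ) : K)⁻¹ * (((n + 1 : ℕ) : A) * f) = f := by
      rw [← mul_assoc]
      have : ((n + 1 : ℕ) : A) = algebraMap K A ((n + 1 : ℕ) : K) := by simp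
      rw [this, ← map_mul, inv_mul_cancel₀ hne, map_one, one_mul]
    rwa [e] at h4

theorem krull_elt [IsNoetherianRing A] (f : A) (hf : ∀ n : ℕ, f ∈ aug ev ^ (n + 1)) :
    ∃ h : A, ev h = 1 ∧ h * f = 0 := by
  have h1 : f ∈ (⨅ i : ℕ, aug ev ^ i • (⊤ : Submodule A A)) := by
    rw [Submodule.mem_iInf]
    intro i
    rw [smul_eq_mul, Ideal.mul_top]
    exact Ideal.pow_le_pow_right (Nat.le_succ i) (hf i)
  rw [Ideal.mem_iInf_smul_pow_eq_bot_iff] at h1
  obtain ⟨r, hr⟩ := h1
  refine ⟨1 - r, ?_, ?_⟩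
  · rw [map_sub, map_one, (mem_aug ev _).1 r.2, sub_zero]
  · rw [sub_mul, one_mul, sub_eq_zero]
    exact hr.symm

end Pool.Agent.U282.ZL
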