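import Mathlib
import Pool.Agent.U282.PW.Ten

/-! The Jordan decomposition of the operators `dn n z` on tensor powers. -/

set_option autoImplicit false

namespace Pool.Agent.U282.ZL

open Pool.Agent.U282.PW Module PiTensorProduct
open scoped TensorProduct

variable {K V : Type*} [Field K] [AddCommGroup V] [Module K V] {n : ℕ}

theorem atF_mul (i : Fin n) (A B : Module.End K V) : (atF i (A * B) : Module.End K (⨂[K] _ : Fin n, V)) =
    atF i A * atF i B := by
  apply LinearMap.ext
  intro t
  rw [Module.End.mul_apply]
  exact (atF_atF i A B t).symm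

/-- `atF i` as a homomorphism of algebras. -/
noncomputable def atA (i : Fin n) : Module.End K V →ₐ[K] Module.End K (⨂[K] _ : Fin n, V) :=
  AlgHom.ofLinearMap { toFun := fun A => atF i A
                       map_add' := fun A B => atF_add i A B
                       map_smul' := fun c A => atF_smul i c A }
    (atF_id i) (fun A B => atF_mul i A B)

theorem atA_apply (i : Fin n) (A : Module.End K V) : atA i A = atF i A := rfl

theorem dn_eq (A : Module.End K V) : (dn n A : Module.End K (⨂[K] _ : Fin n, V)) = ∑ i, atA i A := rfl

theorem dn_add (A B : Module.End K V) : (dn n (A + B) : Module.End K (⨂[K] _ : Fin n, V)) = dn n A + dn n B := by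
  rw [dn_eq, dn_eq, dn_eq, ← Finset.sum_add_distrib]
  exact Finset.sum_congr rfl fun i _ => map_add _ _ _

theorem atA_comm (i j : Fin n) {A B : Module.End K V} (h : Commute A B) :
    Commute (atA i A) (atA j B) := by
  by_cases hij : i = j
  · subst hij
    exact h.map (atA i)
  · apply LinearMap.ext
    intro t
    exact atF_comm hij A B t

theorem dn_commute {A B : Module.End K V} (h : Commute A B) :
    Commute (dn n A : Module.End K (⨂[K] _ : Fin n, V)) (dn n B) := by
  rw [dn_eq, dn_eq]
  exact Commute.sum_left _ _ _ fun i _ => Commute.sum_right _ _ _ fun j _ => atA_comm i j h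

theorem dn_isNilpotent {A : Module.End K V} (h : IsNilpotent A) :
    IsNilpotent (dn n A : Module.End K (⨂[K] _ : Fin n, V)) := by
  rw [dn_eq]
  exact Commute.isNilpotent_sum (fun i _ => h.map (atA i))
    (fun i j _ _ => atA_comm i j (Commute.refl A))

theorem sum_ss [PerfectField K] {M ι : Type*} [AddCommGroup M] [Module K M] [FiniteDimensional K M]
    (f : ι → Module.End K M) (hc : ∀ i j, Commute (f i) (f j)) (hs : ∀ i, (f i).IsSemisimple)
    (s : Finset ι) : (∑ i ∈ s, f i).IsSemisimple := by
  classical
  induction s using Finset.induction_on with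
  | empty => rw [Finset.sum_empty]; exact Module.End.isSemisimple_zero
  | insert i s hi ih =>
    rw [Finset.sum_insert hi]
    exact Module.End.IsSemisimple.add_of_commute (Commute.sum_right _ _ _ fun j _ => hc i j)
      (hs i) ih

theorem atA_ss [FiniteDimensional K V] (i : Fin n) {A : Module.End K V} (h : A.IsSemisimple) :
    (atA i A).IsSemisimple := by
  refine Module.End.isSemisimple_of_squarefree_aeval_eq_zero h.minpoly_squarefree ?_
  rw [Polynomial.aeval_algHom_apply, minpoly.aeval, map_zero]

theorem dn_ss [PerfectField K] [FiniteDimensional K V] (n : ℕ) {A : Module.End K V}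
    (h : A.IsSemisimple) :
    Module.End.IsSemisimple (dn n A : Module.End K (⨂[K] _ : Fin n, V)) := by
  rw [dn_eq]
  exact sum_ss _ (fun i j => atA_comm i j (Commute.refl A)) (fun i => atA_ss i h) _

/-- The nilpotent part kills every subquotient on which the operator acts as a scalar. -/
theorem nil_part {M : Type*} [AddCommGroup M] [Module K M] (T N : Module.End K M)
    (hN : N ∈ Algebra.adjoin K {T}) (hnil : IsNilpotent N)
    (F W : Submodule K M) (hFW : F ≤ W) (hF : ∀ x ∈ F, T x ∈ F) (c : K)
    (hc : ∀ w ∈ W, T w - c • w ∈ F) (w : M) (hw : w ∈ W) : N w ∈ F := by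
  rw [Algebra.adjoin_singleton_eq_range_aeval] at hN
  obtain ⟨q, rfl⟩ := hN
  have hFq : ∀ (q : Polynomial K), ∀ x ∈ F, (Polynomial.aeval T q) x ∈ F := by
    intro q x hx
    induction q using Polynomial.induction_on' with
    | add p q hp hq => rw [map_add, LinearMap.add_apply]; exact F.add_mem hp hq
    | monomial k a =>
      rw [Polynomial.aeval_monomial, ← Algebra.smul_def, LinearMap.smul_apply]
      apply F.smul_mem
      induction k with
      | zero => simpa using hx
      | succ k ih => rw [pow_succ', Module.End.mul_apply]; exact hF _ ih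
  have hT : ∀ (k : ℕ) (w : M), w ∈ W → (T ^ k) w - c ^ k • w ∈ F := by
    intro k
    induction k with
    | zero => intro w _; simp
    | succ k ih =>
      intro w hw
      have h1 := hF _ (ih w hw)
      have h2 := F.smul_mem (c ^ k) (hc w hw)
      have h3 := F.add_mem h1 h2
      rw [map_sub, map_smul, ← Module.End.mul_apply, ← pow_succ', smul_sub, smul_smul,
        ← pow_succ] at h3
      have e : (T ^ (k + 1)) w - c ^ k • T w + (c ^ k • T w - c ^ (k + 1) • w) =
        (T ^ (k + 1)) w - c ^ (k + 1) • w := by abel
      rwa [e] at h3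
  have hq : ∀ (q : Polynomial K) (w : M), w ∈ W → (Polynomial.aeval T q) w - (q.eval c) • w ∈ F := by
    intro q
    induction q using Polynomial.induction_on' with
    | add p q hp hq =>
      intro w hw
      rw [map_add, LinearMap.add_apply, Polynomial.eval_add, add_smul]
      have := F.add_mem (hp w hw) (hq w hw)
      have e : (Polynomial.aeval T p) w - Polynomial.eval c p • w +
        ((Polynomial.aeval T q) w - Polynomial.eval c q • w) =
        (Polynomial.aeval T p) w + (Polynomial.aeval T q) w -
          (Polynomial.eval c p • w + Polynomial.eval c q • w) := by abel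
      rwa [e] at this
    | monomial k a =>
      intro w hw
      rw [Polynomial.aeval_monomial, ← Algebra.smul_def, LinearMap.smul_apply,
        Polynomial.eval_monomial, mul_smul, ← smul_sub]
      exact F.smul_mem _ (hT k w hw)
  by_cases hwF : w ∈ F
  · exact hFq q w hwF
  have hc0 : q.eval c = 0 := by
    obtain ⟨m, hm⟩ := hnil
    have hm' : (Polynomial.aeval T q) ^ m = 0 := hm
    have h1 := hq (q ^ m) w hw
    rw [map_pow, hm', LinearMap.zero_apply, zero_sub, Polynomial.eval_pow] at h1
    by_contra hne
    apply hwF
    have h2 := F.smul_mem ((q.eval c ^ m)⁻¹) (F.neg_mem h1)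
    rwa [neg_neg, smul_smul, inv_mul_cancel₀ (pow_ne_zero m hne), one_smul] at h2
  have h1 := hq q w hw
  rwa [hc0, zero_smul, sub_zero] at h1

theorem dn_part [PerfectField K] [FiniteDimensional K V] (z N S : Module.End K V)
    (hz : z = N + S) (hN : IsNilpotent N) (hS : S.IsSemisimple) (hNS : Commute N S) :
    (dn n N : Module.End K (⨂[K] _ : Fin n, V)) ∈
      Algebra.adjoin K {(dn n z : Module.End K (⨂[K] _ : Fin n, V))} := by
  obtain ⟨N', hN'1, S', hS'1, hN'2, hS'2, h⟩ :=
    Module.End.exists_isNilpotent_isSemisimple (f := (dn n z : Module.End K (⨂[K] _ : Fin n, V)))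
  have hc1 : Commute S' (dn n z : Module.End K (⨂[K] _ : Fin n, V)) :=
    (Algebra.commute_of_mem_adjoin_singleton_of_commute hS'1 (Commute.refl _)).symm
  have hc2 : Commute N' S' :=
    (Algebra.commute_of_mem_adjoin_singleton_of_commute hN'1 hc1).symm
  have h1 := Module.End.isNilpotent_isSemisimple_unique (dn_isNilpotent (n := n) hN)
    (dn_ss n hS) hN'2 hS'2 (dn_commute hNS) hc2 (by rw [← h, hz, dn_add])
  rw [h1.1]
  exact hN'1

end Pool.Agent.U282.ZL
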