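import Mathlib
import Pool.Agent.Helper462.Cb.L1
import Pool.Agent.Helper462.Cb.L2
import Pool.Agent.Helper462.Cb.L4
import Pool.Agent.U282.ZL.Jd

/-! Lie algebras of operators which do not act semisimply: an operator which acts as zero on all
simple subquotients of tensor powers. -/

set_option autoImplicit false

namespace Pool.Agent.U282.ZL

open Pool.Agent.U282.PW Module PiTensorProduct
open scoped TensorProduct

universe u

attribute [local instance 100] LieRing.ofAssociativeRing

theorem split (C : Type u) [Field C] [CharZero C] [IsAlgClosed C] : Cb.a19237_split C :=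
  fun L _ _ _ _ V _ _ _ _ _ V₁ h1 h2 => Cb.splitting (C := C) (L := L) (fun _ => Cb.casimir) V V₁ h1 h2

/-- Elements of the radical act as scalars on simple subquotients. -/
theorem scal {K L M : Type u} [Field K] [CharZero K] [IsAlgClosed K] [LieRing L] [LieAlgebra K L]
    [FiniteDimensional K L] [AddCommGroup M] [Module K M] [FiniteDimensional K M]
    (φ : L →ₗ⁅K⁆ Module.End K M) (F W : Submodule K M) (hFW : F < W)
    (hF : ∀ (x : L), ∀ v ∈ F, φ x v ∈ F) (hW : ∀ (x : L), ∀ v ∈ W, φ x v ∈ W)
    (hcov : ∀ U : Submodule K M, (∀ (x : L), ∀ v ∈ U, φ x v ∈ U) → F ≤ U → U ≤ W → U = F ∨ U = W)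
    (z : L) (hz : z ∈ LieAlgebra.radical K L) : ∃ c : K, ∀ w ∈ W, φ z w - c • w ∈ F := by
  let ψ : L →ₗ⁅K⁆ Module.End K (M ⧸ F) :=
    { toFun := fun x => F.mapQ F (φ x) (hF x)
      map_add' := by
        intro x y
        apply Submodule.linearMap_qext
        ext v
        simp
      map_smul' := by
        intro a x
        apply Submodule.linearMap_qext
        ext v
        simp
      map_lie' := by
        intro x y
        apply Submodule.linearMap_qext
        ext v
        rw [Ring.lie_def]
        simp [Ring.lie_def] }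
  have hψ : ∀ x v, ψ x (F.mkQ v) = F.mkQ (φ x v) := fun x v => rfl
  let _ : LieRingModule L (M ⧸ F) := LieRingModule.compLieHom (M ⧸ F) ψ
  let _ : LieModule K L (M ⧸ F) := LieModule.compLieHom (M ⧸ F) ψ
  have hlie : ∀ (x : L) (v : M), ⁅x, F.mkQ v⁆ = F.mkQ (φ x v) := fun x v => rfl
  let S : LieSubmodule K L (M ⧸ F) :=
    { W.map F.mkQ with
      lie_mem := by
        rintro x m ⟨w, hw, rfl⟩
        exact ⟨φ x w, hW x w hw, (hlie x w).symm⟩ }
  have hSmem : ∀ v, F.mkQ v ∈ S ↔ v ∈ W := by
    intro v
    constructor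
    · rintro ⟨w, hw, hwv⟩
      rw [Submodule.mkQ_apply, Submodule.mkQ_apply, Submodule.Quotient.eq] at hwv
      have h := W.sub_mem hw (hFW.le hwv)
      rwa [sub_sub_cancel] at h
    · intro hv; exact ⟨v, hv, rfl⟩
  have hS : IsAtom S := by
    refine ⟨?_, ?_⟩
    · intro h0
      obtain ⟨w, hw, hwF⟩ := SetLike.exists_of_lt hFW
      apply hwF
      have h1 := (hSmem w).2 hw
      rw [h0, LieSubmodule.mem_bot, Submodule.mkQ_apply, Submodule.Quotient.mk_eq_zero] at h1
      exact h1
    · intro U' hU'
      have hcase := hcov (U'.toSubmodule.comap F.mkQ) (by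
        intro x v hv
        show F.mkQ (φ x v) ∈ U'
        rw [← hlie]
        exact U'.lie_mem hv) (by
        intro v hv
        show F.mkQ v ∈ U'
        rw [Submodule.mkQ_apply, (Submodule.Quotient.mk_eq_zero F).2 hv]
        exact U'.zero_mem) (by
        intro v hv
        exact (hSmem v).1 (hU'.le hv))
      rcases hcase with h | h
      · rw [eq_bot_iff]
        intro m hm
        obtain ⟨v, rfl⟩ := F.mkQ_surjective m
        have h1 : v ∈ U'.toSubmodule.comap F.mkQ := hm
        rw [h] at h1
        rw [LieSubmodule.mem_bot, Submodule.mkQ_apply, Submodule.Quotient.mk_eq_zero]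
        exact h1
      · exfalso
        apply hU'.not_ge
        intro m hm
        obtain ⟨v, rfl⟩ := F.mkQ_surjective m
        have h1 : v ∈ W := (hSmem v).1 hm
        rw [← h] at h1
        exact h1
  obtain ⟨c, hc⟩ := Cb.a19237_R S hS z hz
  refine ⟨c, fun w hw => ?_⟩
  have h1 := hc _ ((hSmem w).2 hw)
  rw [hlie, ← map_smul, Submodule.mkQ_apply, Submodule.mkQ_apply, Submodule.Quotient.eq] at h1
  exact h1

/-- If the radical is central and acts by semisimple operators, the action is semisimple. -/
theorem ss_of_rad {K V : Type u} [Field K] [CharZero K] [IsAlgClosed K] [AddCommGroup V]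
    [Module K V] [FiniteDimensional K V] (L : LieSubalgebra K (Module.End K V))
    (h1 : ∀ x ∈ LieAlgebra.radical K L, ∀ y : L, Commute (x : Module.End K V) (y : Module.End K V))
    (h2 : ∀ x ∈ LieAlgebra.radical K L, Module.End.IsSemisimple (x : Module.End K V)) :
    ∀ W : LieSubmodule K L V, ∃ W' : LieSubmodule K L V, IsCompl W W' := by
  have : FiniteDimensional K L := inferInstanceAs (FiniteDimensional K L.toSubmodule)
  let f : LieAlgebra.radical K L → Module.End K V := fun r => ((r : L) : Module.End K V)
  have htop := Module.End.iSup_iInf_maxGenEigenspace_eq_top_of_iSup_maxGenEigenspace_eq_top_of_commute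
    f (fun i j _ => h1 i i.2 j) (fun i => Module.End.iSup_maxGenEigenspace_eq_top _)
  let E : (LieAlgebra.radical K L → K) → LieSubmodule K L V := fun χ =>
    { carrier := {v | ∀ r, f r v = χ r • v}
      add_mem' := by
        intro v w hv hw r
        rw [map_add, hv r, hw r, smul_add]
      zero_mem' := by intro r; rw [map_zero, smul_zero]
      smul_mem' := by
        intro a v hv r
        rw [map_smul, hv r, smul_comm]
      lie_mem := by
        intro x v hv r
        have h3 : ⁅x, v⁆ = (x : Module.End K V) v := rfl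
        have h4 : f r ((x : Module.End K V) v) = (x : Module.End K V) (f r v) :=
          LinearMap.congr_fun (h1 r r.2 x) v
        rw [h3, h4, hv r, map_smul] }
  have hE : ∀ χ v, v ∈ E χ ↔ ∀ r, f r v = χ r • v := fun χ v => Iff.rfl
  refine Cb.a19237_S (Set.range E) ?_ ?_
  · rw [eq_top_iff]
    have h3 : (⊤ : Submodule K V) ≤ (sSup (Set.range E)).toSubmodule := by
      rw [← htop]
      refine iSup_le fun χ => ?_
      intro v hv
      have h4 : v ∈ E χ := by
        intro r
        rw [Submodule.mem_iInf] at hv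
        have h5 := hv r
        rw [(h2 r r.2).isFinitelySemisimple.maxGenEigenspace_eq_eigenspace,
          Module.End.mem_eigenspace_iff] at h5
        exact h5
      exact (le_sSup (Set.mem_range_self χ) : E χ ≤ _) h4
    intro v _
    exact h3 trivial
  · rintro H ⟨χ, rfl⟩ W hW
    obtain ⟨W', hW'⟩ := Cb.a19237_B (split K) L (E χ) (by
      intro x hx
      refine ⟨χ ⟨x, hx⟩, fun v => ?_⟩
      apply Subtype.ext
      exact v.2 ⟨x, hx⟩) (W.comap (E χ).incl)
    rw [isCompl_iff, disjoint_iff, codisjoint_iff] at hW'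
    refine ⟨W'.map (E χ).incl, ?_, ?_, ?_⟩
    · intro v hv
      rw [LieSubmodule.mem_map] at hv
      obtain ⟨y, _, rfl⟩ := hv
      exact y.2
    · rw [eq_bot_iff]
      intro v hv
      rw [LieSubmodule.mem_inf, LieSubmodule.mem_map] at hv
      obtain ⟨hv1, y, hy, rfl⟩ := hv
      have h3 : y ∈ W.comap (E χ).incl ⊓ W' := by
        rw [LieSubmodule.mem_inf]
        exact ⟨hv1, hy⟩
      rw [hW'.1, LieSubmodule.mem_bot] at h3
      rw [h3, map_zero]
      exact LieSubmodule.zero_mem _
    · apply le_antisymm
      · apply sup_le hW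
        intro v hv
        rw [LieSubmodule.mem_map] at hv
        obtain ⟨y, _, rfl⟩ := hv
        exact y.2
      · intro v hv
        have h3 : (⟨v, hv⟩ : E χ) ∈ W.comap (E χ).incl ⊔ W' := by rw [hW'.2]; trivial
        rw [LieSubmodule.mem_sup] at h3
        obtain ⟨a, ha, b, hb, hab⟩ := h3
        rw [LieSubmodule.mem_sup]
        refine ⟨a, ha, b, ?_, congrArg Subtype.val hab⟩
        rw [LieSubmodule.mem_map]
        exact ⟨b, hb, rfl⟩

end Pool.Agent.U282.ZL
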