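import Mathlib
import Pool.Agent.U282.ZL.Lie

/-! A Lie algebra of operators which does not act semisimply contains or generates a nilpotent
operator which acts as zero on all simple subquotients of tensor powers. -/

set_option autoImplicit false

namespace Pool.Agent.U282.ZL

open Pool.Agent.U282.PW Module PiTensorProduct
open scoped TensorProduct

universe u

attribute [local instance 100] LieRing.ofAssociativeRing

/-- Nothing stable lies strictly between `F` and `W`. -/
def Cover {K M X : Type*} [Field K] [AddCommGroup M] [Module K M] (st : X → M →ₗ[K] M)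
    (F W : Submodule K M) : Prop :=
  F < W ∧ (∀ x, ∀ v ∈ F, st x v ∈ F) ∧ (∀ x, ∀ v ∈ W, st x v ∈ W) ∧
    ∀ U : Submodule K M, (∀ x, ∀ v ∈ U, st x v ∈ U) → F ≤ U → U ≤ W → U = F ∨ U = W

/-- Below a nonzero stable subspace there is a maximal stable one. -/
theorem exists_cover {K M X : Type*} [Field K] [AddCommGroup M] [Module K M]
    [FiniteDimensional K M] (st : X → M →ₗ[K] M) (B W : Submodule K M) (hBW : B < W)
    (hB : ∀ x, ∀ v ∈ B, st x v ∈ B) (hW : ∀ x, ∀ v ∈ W, st x v ∈ W) :
    ∃ F, B ≤ F ∧ Cover st F W := by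
  obtain ⟨F, ⟨hF1, hF2, hF3⟩, hmax⟩ := (wellFounded_gt (α := Submodule K M)).has_min
    {F | B ≤ F ∧ F < W ∧ ∀ x, ∀ v ∈ F, st x v ∈ F} ⟨B, le_rfl, hBW, hB⟩
  refine ⟨F, hF1, hF2, hF3, hW, fun U hU h1 h2 => ?_⟩
  by_contra hcon
  push Not at hcon
  exact hmax U ⟨hF1.trans h1, lt_of_le_of_ne h2 hcon.2, hU⟩ (lt_of_le_of_ne h1 (Ne.symm hcon.1))

theorem exists_cover' {K M X : Type*} [Field K] [AddCommGroup M] [Module K M]
    [FiniteDimensional K M] (st : X → M →ₗ[K] M) (F W : Submodule K M) (hFW : F < W)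
    (hF : ∀ x, ∀ v ∈ F, st x v ∈ F) (hW : ∀ x, ∀ v ∈ W, st x v ∈ W) :
    ∃ U, U ≤ W ∧ Cover st F U := by
  obtain ⟨U, ⟨hU1, hU2, hU3⟩, hmin⟩ := (wellFounded_lt (α := Submodule K M)).has_min
    {U | U ≤ W ∧ F < U ∧ ∀ x, ∀ v ∈ U, st x v ∈ U} ⟨W, le_rfl, hFW, hW⟩
  refine ⟨U, hU1, hU2, hF, hU3, fun Y hY h1 h2 => ?_⟩
  by_contra hcon
  push Not at hcon
  exact hmin Y ⟨h2.trans hU1, lt_of_le_of_ne h1 (Ne.symm hcon.1), hY⟩ (lt_of_le_of_ne h2 hcon.2)

theorem nil_of_cover {K M X : Type*} [Field K] [AddCommGroup M] [Module K M]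
    [FiniteDimensional K M] (st : X → M →ₗ[K] M) (N : Module.End K M)
    (h : ∀ F W, Cover st F W → ∀ w ∈ W, N w ∈ F) : IsNilpotent N := by
  have key : ∀ (d : ℕ) (W : Submodule K M), finrank K W ≤ d → (∀ x, ∀ v ∈ W, st x v ∈ W) →
      ∃ m : ℕ, ∀ w ∈ W, (N ^ m) w = 0 := by
    intro d
    induction d with
    | zero =>
      intro W hd _
      refine ⟨0, fun w hw => ?_⟩
      rw [Submodule.finrank_eq_zero.1 (Nat.le_zero.1 hd), Submodule.mem_bot] at hw
      rw [hw, map_zero]
    | succ d ih =>
      intro W hd hW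
      by_cases hb : W = ⊥
      · refine ⟨0, fun w hw => ?_⟩
        rw [hb, Submodule.mem_bot] at hw
        rw [hw, map_zero]
      · obtain ⟨F, _, hF⟩ := exists_cover st ⊥ W (bot_lt_iff_ne_bot.2 hb) (by
          intro x v hv
          rw [Submodule.mem_bot] at hv ⊢
          rw [hv, map_zero]) hW
        obtain ⟨m, hm⟩ := ih F (by
          have := Submodule.finrank_lt_finrank_of_lt hF.1
          omega) hF.2.1
        refine ⟨m + 1, fun w hw => ?_⟩
        rw [pow_succ, Module.End.mul_apply]
        exact hm _ (h F W hF w hw)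
  obtain ⟨m, hm⟩ := key _ ⊤ le_rfl (fun _ _ _ => trivial)
  exact ⟨m, LinearMap.ext fun v => hm v trivial⟩

/-- Commutators with the radical kill simple subquotients. -/
theorem comm_case {K L M : Type u} [Field K] [CharZero K] [IsAlgClosed K] [LieRing L]
    [LieAlgebra K L] [FiniteDimensional K L] [AddCommGroup M] [Module K M] [FiniteDimensional K M]
    (φ : L →ₗ⁅K⁆ Module.End K M) (F W : Submodule K M) (h : Cover (fun x : L => φ x) F W)
    (x y : L) (hx : x ∈ LieAlgebra.radical K L) (w : M) (hw : w ∈ W) :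
    (φ x * φ y - φ y * φ x) w ∈ F := by
  obtain ⟨c, hc⟩ := scal φ F W h.1 h.2.1 h.2.2.1 h.2.2.2 x hx
  have h1 := hc _ (h.2.2.1 y w hw)
  have h2 := h.2.1 y _ (hc w hw)
  have h3 := F.sub_mem h1 h2
  rw [map_sub, map_smul, sub_sub_sub_cancel_right] at h3
  exact h3

/-- The action on the tensor power. -/
noncomputable def dnHom {K V : Type*} [Field K] [AddCommGroup V] [Module K V]
    (L : LieSubalgebra K (Module.End K V)) (n : ℕ) :
    L →ₗ⁅K⁆ Module.End K (⨂[K] _ : Fin n, V) where
  toFun := fun x => dn n (x : Module.End K V)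
  map_add' := fun x y => dn_add _ _
  map_smul' := fun c x => dn_smul _ _
  map_lie' := by
    intro x y
    apply LinearMap.ext
    intro t
    have h := dn_comm (n := n) (x : Module.End K V) (y : Module.End K V)
      ((x : Module.End K V) * (y : Module.End K V) - (y : Module.End K V) * (x : Module.End K V))
      (fun v => by simp) t
    rw [Ring.lie_def, LinearMap.sub_apply, Module.End.mul_apply, Module.End.mul_apply, h,
      add_sub_cancel_left]
    rfl

theorem lie_main {K V : Type u} [Field K] [CharZero K] [IsAlgClosed K] [AddCommGroup V]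
    [Module K V] [FiniteDimensional K V] (L : LieSubalgebra K (Module.End K V))
    (W : Submodule K V) (hW : ∀ x ∈ L, ∀ w ∈ W, x w ∈ W)
    (hns : ∀ W' : Submodule K V, (∀ x ∈ L, ∀ w ∈ W', x w ∈ W') → ¬ IsCompl W W') :
    ∃ N : Module.End K V, N ≠ 0 ∧ IsNilpotent N ∧ ∀ (n : ℕ)
      (F W : Submodule K (⨂[K] _ : Fin n, V)), Cover (fun x : L => dn n (x : Module.End K V)) F W →
        ∀ w ∈ W, dn n N w ∈ F := by
  have : FiniteDimensional K L := inferInstanceAs (FiniteDimensional K L.toSubmodule)
  by_cases hcomm : ∀ x ∈ LieAlgebra.radical K L, ∀ y : L,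
      Commute (x : Module.End K V) (y : Module.End K V)
  · by_cases hss : ∀ x ∈ LieAlgebra.radical K L, Module.End.IsSemisimple (x : Module.End K V)
    · exfalso
      obtain ⟨W', hW'⟩ := ss_of_rad L hcomm hss { W with lie_mem := fun {x m} hm => hW x.1 x.2 m hm }
      refine hns W'.toSubmodule (fun x hx w hw => W'.lie_mem (x := (⟨x, hx⟩ : L)) hw) ?_
      rw [isCompl_iff, disjoint_iff, codisjoint_iff] at hW' ⊢
      constructor
      · rw [eq_bot_iff]
        rintro v ⟨hv1, hv2⟩
        have h3 : v ∈ ({ W with lie_mem := fun {x m} hm => hW x.1 x.2 m hm } :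
            LieSubmodule K L V) ⊓ W' := by
          rw [LieSubmodule.mem_inf]
          exact ⟨hv1, hv2⟩
        rw [hW'.1, LieSubmodule.mem_bot] at h3
        rw [Submodule.mem_bot]
        exact h3
      · rw [eq_top_iff]
        intro v _
        have h3 : v ∈ ({ W with lie_mem := fun {x m} hm => hW x.1 x.2 m hm } :
            LieSubmodule K L V) ⊔ W' := by rw [hW'.2]; trivial
        rw [LieSubmodule.mem_sup] at h3
        rw [Submodule.mem_sup]
        exact h3
    · push Not at hss
      obtain ⟨z, hz, hzs⟩ := hss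
      obtain ⟨N, hN1, S, hS1, hN2, hS2, hzN⟩ :=
        Module.End.exists_isNilpotent_isSemisimple (f := (z : Module.End K V))
      have hNS : Commute N S :=
        (Algebra.commute_of_mem_adjoin_singleton_of_commute hN1
          (Algebra.commute_of_mem_adjoin_singleton_of_commute hS1 (Commute.refl _)).symm).symm
      refine ⟨N, ?_, hN2, ?_⟩
      · intro h0
        rw [h0, zero_add] at hzN
        rw [hzN] at hzs
        exact hzs hS2
      · intro n F W h w hw
        obtain ⟨c, hc⟩ := scal (dnHom L n) F W h.1 h.2.1 h.2.2.1 h.2.2.2 z hz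
        exact nil_part _ _ (dn_part (z : Module.End K V) N S hzN hN2 hS2 hNS) (dn_isNilpotent hN2)
          F W h.1.le (h.2.1 z) c hc w hw
  · push Not at hcomm
    obtain ⟨x, hx, y, hxy⟩ := hcomm
    refine ⟨(x : Module.End K V) * (y : Module.End K V) -
      (y : Module.End K V) * (x : Module.End K V), ?_, ?_, ?_⟩
    · intro h0
      exact hxy (sub_eq_zero.1 h0)
    · refine nil_of_cover (fun x : L => (x : Module.End K V)) _ ?_
      intro F W h w hw
      exact comm_case L.incl F W h x y hx w hw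
    · intro n F W h w hw
      have h1 := comm_case (dnHom L n) F W h x y hx w hw
      have h2 : (dn n ((x : Module.End K V) * (y : Module.End K V) -
          (y : Module.End K V) * (x : Module.End K V)) : Module.End K (⨂[K] _ : Fin n, V)) =
          dnHom L n x * dnHom L n y - dnHom L n y * dnHom L n x := by
        have h3 := (dnHom L n).map_lie x y
        rw [Ring.lie_def] at h3
        rw [← h3]
        rfl
      rw [h2]
      exact h1

end Pool.Agent.U282.ZL
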