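import Mathlib
import Pool.Agent.U282.ZL.Lie2

/-! The algebra of matrix coefficients of a representation of an abstract group and its
Lie algebra of tangent vectors at the identity. -/

set_option autoImplicit false

namespace Pool.Agent.U282.ZL

open Pool.Agent.U282.PW Module PiTensorProduct
open scoped TensorProduct

attribute [local instance 100] LieRing.ofAssociativeRing

variable {K V Γ : Type*} [Field K] [AddCommGroup V] [Module K V] [Group Γ]
  (ρ : Representation K Γ V)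

/-- The matrix coefficient. -/
def co (ξ : Dual K V) (v : V) : Γ → K := fun g => ξ (ρ g v)

/-- The algebra generated by the matrix coefficients. -/
def cA : Subalgebra K (Γ → K) := Algebra.adjoin K {f | ∃ ξ v, f = co ρ ξ v}

theorem co_mem (ξ : Dual K V) (v : V) : co ρ ξ v ∈ cA ρ := Algebra.subset_adjoin ⟨ξ, v, rfl⟩

/-- The matrix coefficient as an element of the algebra. -/
def coA (ξ : Dual K V) (v : V) : cA ρ := ⟨co ρ ξ v, co_mem ρ ξ v⟩

/-- Translation on both sides. -/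
def tr (a b : Γ) : (Γ → K) →ₐ[K] (Γ → K) :=
  AlgHom.pi (fun h => Pi.evalAlgHom K (fun _ : Γ => K) (a * h * b))

theorem tr_apply (a b : Γ) (f : Γ → K) (h : Γ) : tr a b f h = f (a * h * b) := rfl

theorem tr_co (a b : Γ) (ξ : Dual K V) (v : V) :
    tr a b (co ρ ξ v) = co ρ (ξ ∘ₗ ρ a) (ρ b v) := by
  funext h
  rw [tr_apply, co, co, map_mul, map_mul]
  rfl

theorem tr_mem (a b : Γ) (f : Γ → K) (hf : f ∈ cA ρ) : tr a b f ∈ cA ρ := by
  have h : cA ρ ≤ (cA ρ).comap (tr a b) := by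
    refine Algebra.adjoin_le ?_
    rintro f ⟨ξ, v, rfl⟩
    show tr a b (co ρ ξ v) ∈ cA ρ
    rw [tr_co]
    exact co_mem ρ _ _
  exact h hf

/-- Translation on the algebra of coefficients. -/
def trA (a b : Γ) : cA ρ →ₐ[K] cA ρ :=
  ((tr a b).comp (cA ρ).val).codRestrict (cA ρ) (fun f => tr_mem ρ a b f.1 f.2)

theorem trA_val (a b : Γ) (f : cA ρ) (h : Γ) : (trA ρ a b f).1 h = f.1 (a * h * b) := rfl

theorem trA_co (a b : Γ) (ξ : Dual K V) (v : V) :
    trA ρ a b (coA ρ ξ v) = coA ρ (ξ ∘ₗ ρ a) (ρ b v) := Subtype.ext (tr_co ρ a b ξ v)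

/-- Point derivations at the identity. -/
def IsPD (δ : cA ρ →ₗ[K] K) : Prop := ∀ f f', δ (f * f') = δ f * f'.1 1 + f.1 1 * δ f'

theorem IsPD.one {δ : cA ρ →ₗ[K] K} (h : IsPD ρ δ) : δ 1 = 0 := by
  have h1 := h 1 1
  have h2 : (1 : cA ρ).1 1 = (1 : K) := rfl
  rw [mul_one, h2, mul_one, one_mul] at h1
  have h3 : δ 1 + 0 = δ 1 + δ 1 := by rw [add_zero]; exact h1
  exact (add_left_cancel h3).symm

/-- The left invariant derivation, with values in all functions. -/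
def Df (δ : cA ρ →ₗ[K] K) : cA ρ →ₗ[K] (Γ → K) :=
  LinearMap.pi fun g => δ ∘ₗ (trA ρ g 1).toLinearMap

theorem Df_apply (δ : cA ρ →ₗ[K] K) (f : cA ρ) (g : Γ) : Df ρ δ f g = δ (trA ρ g 1 f) := rfl

theorem Df_mul {δ : cA ρ →ₗ[K] K} (h : IsPD ρ δ) (f f' : cA ρ) :
    Df ρ δ (f * f') = Df ρ δ f * f'.1 + f.1 * Df ρ δ f' := by
  funext g
  rw [Df_apply, map_mul, h, Pi.add_apply, Pi.mul_apply, Pi.mul_apply, Df_apply, Df_apply,
    trA_val, trA_val, mul_one, mul_one]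

theorem Df_co {δ : cA ρ →ₗ[K] K} (X : Module.End K V) (hX : ∀ ξ v, δ (coA ρ ξ v) = ξ (X v))
    (ξ : Dual K V) (v : V) : Df ρ δ (coA ρ ξ v) = co ρ ξ (X v) := by
  funext g
  rw [Df_apply, trA_co, hX, map_one]
  rfl

theorem Df_mem {δ : cA ρ →ₗ[K] K} (h : IsPD ρ δ) (X : Module.End K V)
    (hX : ∀ ξ v, δ (coA ρ ξ v) = ξ (X v)) (f : cA ρ) : Df ρ δ f ∈ cA ρ := by
  obtain ⟨f, hf⟩ := f
  have key : ∀ (f : Γ → K) (hf : f ∈ cA ρ), Df ρ δ ⟨f, hf⟩ ∈ cA ρ := by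
    intro f hf
    unfold cA at hf
    induction hf using Algebra.adjoin_induction with
    | mem x hx =>
      obtain ⟨ξ, v, rfl⟩ := hx
      have := Df_co ρ X hX ξ v
      rw [coA] at this
      rw [this]
      exact co_mem ρ _ _
    | algebraMap r =>
      have e : (⟨algebraMap K (Γ → K) r, (cA ρ).algebraMap_mem r⟩ : cA ρ) = r • 1 := by
        rw [← Algebra.algebraMap_eq_smul_one]; rfl
      have e2 : Df ρ δ (1 : cA ρ) = 0 := by
        funext g
        rw [Df_apply, map_one, h.one]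
        rfl
      have e3 : Df ρ δ (⟨algebraMap K (Γ → K) r, (cA ρ).algebraMap_mem r⟩ : cA ρ) = 0 := by
        rw [e, map_smul, e2, smul_zero]
      rw [e3]
      exact (cA ρ).zero_mem
    | add x y hx' hy' hx hy =>
      have e : (⟨x + y, (cA ρ).add_mem hx' hy'⟩ : cA ρ) = ⟨x, hx'⟩ + ⟨y, hy'⟩ := rfl
      rw [e, map_add]
      exact (cA ρ).add_mem hx hy
    | mul x y hx' hy' hx hy =>
      have e : (⟨x * y, (cA ρ).mul_mem hx' hy'⟩ : cA ρ) = ⟨x, hx'⟩ * ⟨y, hy'⟩ := rfl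
      rw [e, Df_mul ρ h]
      exact (cA ρ).add_mem ((cA ρ).mul_mem hx hy') ((cA ρ).mul_mem hx' hy)
  exact key f hf

/-- The left invariant derivation of the algebra of coefficients. -/
def DA {δ : cA ρ →ₗ[K] K} (h : IsPD ρ δ) (X : Module.End K V)
    (hX : ∀ ξ v, δ (coA ρ ξ v) = ξ (X v)) : cA ρ →ₗ[K] cA ρ :=
  (Df ρ δ).codRestrict (Subalgebra.toSubmodule (cA ρ)) (fun f => Df_mem ρ h X hX f)

theorem DA_mul {δ : cA ρ →ₗ[K] K} (h : IsPD ρ δ) (X : Module.End K V)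
    (hX : ∀ ξ v, δ (coA ρ ξ v) = ξ (X v)) (f f' : cA ρ) :
    DA ρ h X hX (f * f') = DA ρ h X hX f * f' + f * DA ρ h X hX f' :=
  Subtype.ext (Df_mul ρ h f f')

theorem DA_co {δ : cA ρ →ₗ[K] K} (h : IsPD ρ δ) (X : Module.End K V)
    (hX : ∀ ξ v, δ (coA ρ ξ v) = ξ (X v)) (ξ : Dual K V) (v : V) :
    DA ρ h X hX (coA ρ ξ v) = coA ρ ξ (X v) := Subtype.ext (Df_co ρ X hX ξ v)

theorem DA_one {δ : cA ρ →ₗ[K] K} (h : IsPD ρ δ) (X : Module.End K V)
    (hX : ∀ ξ v, δ (coA ρ ξ v) = ξ (X v)) (f : cA ρ) : (DA ρ h X hX f).1 1 = δ f := by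
  show δ (trA ρ 1 1 f) = δ f
  congr 1
  apply Subtype.ext
  funext g
  rw [trA_val, one_mul, mul_one]

/-- The Lie algebra of tangent vectors. -/
def tanL : LieSubalgebra K (Module.End K V) where
  carrier := {X | ∃ δ : cA ρ →ₗ[K] K, IsPD ρ δ ∧ ∀ ξ v, δ (coA ρ ξ v) = ξ (X v)}
  add_mem' := by
    rintro X Y ⟨δ, h, hX⟩ ⟨δ', h', hY⟩
    refine ⟨δ + δ', ?_, ?_⟩
    · intro f f'
      rw [LinearMap.add_apply, LinearMap.add_apply, LinearMap.add_apply, h, h']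
      ring
    · intro ξ v
      rw [LinearMap.add_apply, hX, hY, LinearMap.add_apply, map_add]
  zero_mem' := ⟨0, fun f f' => by simp, fun ξ v => by simp⟩
  smul_mem' := by
    rintro a X ⟨δ, h, hX⟩
    refine ⟨a • δ, ?_, ?_⟩
    · intro f f'
      rw [LinearMap.smul_apply, LinearMap.smul_apply, LinearMap.smul_apply, h]
      simp only [smul_eq_mul]
      ring
    · intro ξ v
      rw [LinearMap.smul_apply, hX, LinearMap.smul_apply, map_smul]
  lie_mem' := by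
    rintro X Y ⟨δ, h, hX⟩ ⟨δ', h', hY⟩
    refine ⟨δ ∘ₗ DA ρ h' Y hY - δ' ∘ₗ DA ρ h X hX, ?_, ?_⟩
    · intro f f'
      simp only [LinearMap.sub_apply, LinearMap.comp_apply, DA_mul, map_add, h _ _, h' _ _, DA_one]
      ring
    · intro ξ v
      rw [LinearMap.sub_apply, LinearMap.comp_apply, LinearMap.comp_apply, DA_co, DA_co, hX, hY,
        Ring.lie_def, LinearMap.sub_apply, map_sub]
      rfl

theorem mem_tanL (X : Module.End K V) : X ∈ tanL ρ ↔
    ∃ δ : cA ρ →ₗ[K] K, IsPD ρ δ ∧ ∀ ξ v, δ (coA ρ ξ v) = ξ (X v) := Iff.rfl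

/-- The Lie algebra is normalized by the group. -/
theorem tanL_conj (a : Γ) (X : Module.End K V) (hX : X ∈ tanL ρ) :
    (ρ a * X * ρ a⁻¹ : Module.End K V) ∈ tanL ρ := by
  obtain ⟨δ, h, hX⟩ := (mem_tanL ρ X).1 hX
  refine (mem_tanL ρ _).2 ⟨δ ∘ₗ (trA ρ a a⁻¹).toLinearMap, ?_, ?_⟩
  · intro f f'
    simp only [LinearMap.comp_apply, AlgHom.toLinearMap_apply, map_mul, h _ _, trA_val, mul_one,
      mul_inv_cancel]
  · intro ξ v
    rw [LinearMap.comp_apply, AlgHom.toLinearMap_apply, trA_co, hX]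
    rfl

end Pool.Agent.U282.ZL
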