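import Mathlib
import Pool.Agent.U282.ZL.Grp1
import Pool.Agent.U282.ZL.Eul

/-! Stable subspaces of tensor powers of a representation are stable under its Lie algebra. -/

set_option autoImplicit false

namespace Pool.Agent.U282.ZL

open Pool.Agent.U282.PW Module PiTensorProduct
open scoped TensorProduct

attribute [local instance 100] LieRing.ofAssociativeRing

variable {K V Γ : Type*} [Field K] [AddCommGroup V] [Module K V] [Group Γ]
  (ρ : Representation K Γ V)

/-- Evaluation at the identity. -/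
def ev1 : cA ρ →ₐ[K] K := (Pi.evalAlgHom K (fun _ : Γ => K) 1).comp (cA ρ).val

theorem ev1_apply (f : cA ρ) : ev1 ρ f = f.1 1 := rfl

theorem pd_prod {δ : cA ρ →ₗ[K] K} (h : IsPD ρ δ) {ι : Type*} [DecidableEq ι] (s : Finset ι)
    (F : ι → cA ρ) : δ (∏ i ∈ s, F i) = ∑ i ∈ s, δ (F i) * ∏ j ∈ s.erase i, ev1 ρ (F j) := by
  induction s using Finset.induction_on with
  | empty => rw [Finset.prod_empty, Finset.sum_empty]; exact h.one
  | insert i s hi ih =>
    rw [Finset.prod_insert hi, h, ih, Finset.sum_insert hi, Finset.erase_insert hi]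
    congr 1
    · rw [← ev1_apply, map_prod]
    · rw [← ev1_apply, Finset.mul_sum]
      refine Finset.sum_congr rfl fun k hk => ?_
      have hki : k ≠ i := fun e => hi (e ▸ hk)
      rw [Finset.erase_insert_of_ne (Ne.symm hki), Finset.prod_insert (fun h' =>
        hi (Finset.mem_of_mem_erase h'))]
      ring

theorem tensor_exp {ι : Type*} [Fintype ι] [DecidableEq ι] (b : Basis ι K V) {n : ℕ}
    (η : Dual K (⨂[K] _ : Fin n, V)) (u : Fin n → V) :
    η (tprod K u) = ∑ c : Fin n → ι, η (tprod K (fun i => b (c i))) * ∏ i, b.coord (c i) (u i) := by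
  have h1 : tprod K u = tprod K (fun i => ∑ j, b.repr (u i) j • b j) := by
    congr 1
    funext i
    exact (b.sum_repr (u i)).symm
  rw [h1, MultilinearMap.map_sum, map_sum]
  refine Finset.sum_congr rfl fun c _ => ?_
  rw [MultilinearMap.map_smul_univ, map_smul, smul_eq_mul, mul_comm]
  rfl

/-- The representation on the tensor power. -/
noncomputable def tg (n : ℕ) (g : Γ) : (⨂[K] _ : Fin n, V) →ₗ[K] (⨂[K] _ : Fin n, V) :=
  PiTensorProduct.map (fun _ => ρ g)

theorem tco_mem [FiniteDimensional K V] {δ : cA ρ →ₗ[K] K} (h : IsPD ρ δ) (X : Module.End K V)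
    (hX : ∀ ξ v, δ (coA ρ ξ v) = ξ (X v)) {n : ℕ} (η : Dual K (⨂[K] _ : Fin n, V))
    (t : ⨂[K] _ : Fin n, V) :
    ∃ f : cA ρ, (∀ g, f.1 g = η (tg ρ n g t)) ∧ δ f = η (dn n X t) := by
  classical
  induction t using PiTensorProduct.induction_on with
  | smul_tprod r v =>
    let b := Module.finBasis K V
    refine ⟨r • ∑ c : Fin n → Fin (finrank K V), η (tprod K (fun i => b (c i))) •
      ∏ i, coA ρ (b.coord (c i)) (v i), ?_, ?_⟩
    · intro g
      have h1 : ∀ f : cA ρ, f.1 g = (Pi.evalAlgHom K (fun _ : Γ => K) g).comp (cA ρ).val f :=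
        fun f => rfl
      rw [h1, map_smul, map_sum, map_smul, map_smul, tg, PiTensorProduct.map_tprod, tensor_exp b]
      congr 1
      refine Finset.sum_congr rfl fun c _ => ?_
      rw [map_smul, map_prod]
      rfl
    · rw [map_smul, map_smul, map_smul, map_sum]
      congr 1
      rw [dn_apply, map_sum]
      have h2 : ∀ i, η (atF i X (tprod K v)) = ∑ c : Fin n → Fin (finrank K V),
          η (tprod K (fun i => b (c i))) *
            (b.coord (c i) (X (v i)) * ∏ j ∈ Finset.univ.erase i, b.coord (c j) (v j)) := by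
        intro i
        rw [atF_tprod, tensor_exp b]
        refine Finset.sum_congr rfl fun c _ => ?_
        congr 1
        rw [← Finset.mul_prod_erase Finset.univ _ (Finset.mem_univ i)]
        congr 1
        · rw [Function.update_self]
        · refine Finset.prod_congr rfl fun j hj => ?_
          rw [Function.update_of_ne (Finset.ne_of_mem_erase hj)]
      simp only [h2]
      rw [Finset.sum_comm]
      refine Finset.sum_congr rfl fun c _ => ?_
      rw [map_smul, smul_eq_mul, pd_prod ρ h, Finset.mul_sum]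
      refine Finset.sum_congr rfl fun i _ => ?_
      rw [hX]
      congr 2
      refine Finset.prod_congr rfl fun j _ => ?_
      rw [ev1_apply]
      show b.coord (c j) (ρ 1 (v j)) = _
      rw [map_one]
      rfl
  | add x y hx hy =>
    obtain ⟨f, hf1, hf2⟩ := hx
    obtain ⟨f', hf1', hf2'⟩ := hy
    refine ⟨f + f', fun g => ?_, ?_⟩
    · rw [map_add, map_add, ← hf1, ← hf1']
      rfl
    · rw [map_add, map_add, map_add, hf2, hf2']

theorem tensor_stable [FiniteDimensional K V] {n : ℕ} (S : Submodule K (⨂[K] _ : Fin n, V))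
    (hS : ∀ g, ∀ s ∈ S, tg ρ n g s ∈ S) (X : Module.End K V) (hX : X ∈ tanL ρ) :
    ∀ s ∈ S, dn n X s ∈ S := by
  intro s hs
  obtain ⟨δ, h, hX⟩ := (mem_tanL ρ X).1 hX
  by_contra hcon
  obtain ⟨η, h1, h2⟩ := Submodule.exists_le_ker_of_notMem hcon
  obtain ⟨f, hf1, hf2⟩ := tco_mem ρ h X hX η s
  apply h1
  rw [← hf2]
  have hf0 : f = 0 := by
    apply Subtype.ext
    funext g
    rw [hf1]
    exact LinearMap.mem_ker.1 (h2 (hS g s hs))
  rw [hf0, map_zero]

theorem stable_one [FiniteDimensional K V] (S : Submodule K V)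
    (hS : ∀ g, ∀ s ∈ S, ρ g s ∈ S) (X : Module.End K V) (hX : X ∈ tanL ρ) :
    ∀ s ∈ S, X s ∈ S := by
  intro s hs
  obtain ⟨δ, h, hX⟩ := (mem_tanL ρ X).1 hX
  by_contra hcon
  obtain ⟨ξ, h1, h2⟩ := Submodule.exists_le_ker_of_notMem hcon
  apply h1
  rw [← hX]
  have hf0 : coA ρ ξ s = 0 := by
    apply Subtype.ext
    funext g
    exact LinearMap.mem_ker.1 (h2 (hS g s hs))
  rw [hf0, map_zero]

theorem cA_fg [FiniteDimensional K V] : (cA ρ).FG := by
  classical
  let b := Module.finBasis K V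
  refine ⟨Finset.univ.image fun p : Fin (finrank K V) × Fin (finrank K V) =>
    co ρ (b.coord p.1) (b p.2), ?_⟩
  apply le_antisymm
  · apply Algebra.adjoin_mono
    intro f hf
    rw [Finset.mem_coe, Finset.mem_image] at hf
    obtain ⟨p, _, rfl⟩ := hf
    exact ⟨_, _, rfl⟩
  · refine Algebra.adjoin_le ?_
    rintro f ⟨ξ, v, rfl⟩
    have h1 : co ρ ξ v = ∑ i, ∑ j, (ξ (b i) * b.repr v j) • co ρ (b.coord i) (b j) := by
      funext g
      rw [Finset.sum_apply]
      simp only [Finset.sum_apply, Pi.smul_apply, smul_eq_mul, co]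
      conv_lhs => rw [← b.sum_repr v]
      rw [map_sum, map_sum, Finset.sum_comm]
      refine Finset.sum_congr rfl fun j _ => ?_
      rw [map_smul, map_smul]
      conv_lhs => rw [← b.sum_repr (ρ g (b j))]
      rw [map_sum, Finset.smul_sum]
      refine Finset.sum_congr rfl fun i _ => ?_
      rw [map_smul, smul_eq_mul, smul_eq_mul, Basis.coord_apply]
      ring
    rw [SetLike.mem_coe, h1]
    refine Subalgebra.sum_mem _ fun i _ => Subalgebra.sum_mem _ fun j _ => ?_
    refine Subalgebra.smul_mem _ (Algebra.subset_adjoin ?_) _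
    rw [Finset.mem_coe, Finset.mem_image]
    exact ⟨(i, j), Finset.mem_univ _, rfl⟩

theorem cA_noeth [FiniteDimensional K V] : IsNoetherianRing (cA ρ) := by
  have h1 : Algebra.FiniteType K (cA ρ) := (cA ρ).fg_iff_finiteType.1 (cA_fg ρ)
  exact Algebra.FiniteType.isNoetherianRing K (cA ρ)

theorem exists_tangent [FiniteDimensional K V] (δ : cA ρ →ₗ[K] K) :
    ∃ X : Module.End K V, ∀ ξ v, δ (coA ρ ξ v) = ξ (X v) := by
  let Φ : V →ₗ[K] Dual K (Dual K V) :=
    { toFun := fun v =>
        { toFun := fun ξ => δ (coA ρ ξ v)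
          map_add' := by
            intro ξ ξ'
            rw [← map_add]
            rfl
          map_smul' := by
            intro a ξ
            rw [RingHom.id_apply, ← map_smul]
            rfl }
      map_add' := by
        intro v w
        apply LinearMap.ext
        intro ξ
        show δ (coA ρ ξ (v + w)) = δ (coA ρ ξ v) + δ (coA ρ ξ w)
        rw [← map_add]
        congr 1
        apply Subtype.ext
        funext g
        show ξ (ρ g (v + w)) = ξ (ρ g v) + ξ (ρ g w)
        rw [map_add, map_add]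
      map_smul' := by
        intro a v
        apply LinearMap.ext
        intro ξ
        show δ (coA ρ ξ (a • v)) = a • δ (coA ρ ξ v)
        rw [← map_smul]
        congr 1
        apply Subtype.ext
        funext g
        show ξ (ρ g (a • v)) = a • ξ (ρ g v)
        rw [map_smul, map_smul] }
  refine ⟨(Module.evalEquiv K V).symm.toLinearMap ∘ₗ Φ, fun ξ v => ?_⟩
  have h1 : (Module.evalEquiv K V) ((Module.evalEquiv K V).symm (Φ v)) = Φ v :=
    LinearEquiv.apply_symm_apply _ _
  have h2 := LinearMap.congr_fun h1 ξ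
  exact h2.symm

/-- A subspace stable under the Lie algebra is stable under the elements where a suitable
function does not vanish. -/
theorem exists_h [FiniteDimensional K V] [CharZero K] (W : Submodule K V)
    (hW : ∀ X ∈ tanL ρ, ∀ w ∈ W, X w ∈ W) :
    ∃ h : cA ρ, h.1 1 = 1 ∧ ∀ g, h.1 g ≠ 0 → ∀ w ∈ W, ρ g w ∈ W := by
  classical
  have := cA_noeth ρ
  obtain ⟨r, t, δ, ht, hδ, hdual⟩ := exists_dual (ev1 ρ)
  have hpd : ∀ k, IsPD ρ (δ k) := fun k f f' => hδ k f f'
  choose X hX using fun k => exists_tangent ρ (δ k)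
  have hXL : ∀ k, X k ∈ tanL ρ := fun k => (mem_tanL ρ _).2 ⟨δ k, hpd k, hX k⟩
  let S : Set (cA ρ) := {f | ∃ ξ : Dual K V, (∀ w ∈ W, ξ w = 0) ∧ ∃ w ∈ W, f = coA ρ ξ w}
  have hall := fun n => all_pow (ev1 ρ) t δ ht hdual (fun k => DA ρ (hpd k) (X k) (hX k))
    (fun k f f' => DA_mul ρ (hpd k) (X k) (hX k) f f')
    (fun k f => DA_one ρ (hpd k) (X k) (hX k) f) S
    (by
      rintro f ⟨ξ, hξ, w, hw, rfl⟩
      show ξ (ρ 1 w) = 0
      rw [map_one]
      exact hξ w hw)
    (by
      rintro k f ⟨ξ, hξ, w, hw, rfl⟩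
      rw [DA_co]
      exact ⟨ξ, hξ, _, hW _ (hXL k) w hw, rfl⟩) n
  have hkr : ∀ f ∈ S, ∃ h : cA ρ, ev1 ρ h = 1 ∧ h * f = 0 := fun f hf =>
    krull_elt (ev1 ρ) f (fun n => hall n f hf)
  let bW := Module.finBasis K W
  let P : Submodule K (Dual K V) := W.dualAnnihilator
  have : Module.Free K P := Module.Free.of_divisionRing K P
  let bP := Module.finBasis K P
  have hk : ∀ (i : Fin (finrank K P)) (j : Fin (finrank K W)),
      ∃ h : cA ρ, ev1 ρ h = 1 ∧ h * coA ρ (bP i : Dual K V) (bW j : V) = 0 := by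
    intro i j
    refine hkr _ ⟨_, ?_, _, (bW j).2, rfl⟩
    intro w hw
    exact (Submodule.mem_dualAnnihilator _).1 (bP i).2 w hw
  choose h hh1 hh2 using hk
  refine ⟨∏ i, ∏ j, h i j, ?_, ?_⟩
  · rw [← ev1_apply, map_prod]
    refine Finset.prod_eq_one fun i _ => ?_
    rw [map_prod]
    exact Finset.prod_eq_one fun j _ => hh1 i j
  · intro g hg
    have h1 : ∀ i j, (h i j).1 g ≠ 0 := by
      intro i j h0
      apply hg
      have e : ∀ f : cA ρ, f.1 g = (Pi.evalAlgHom K (fun _ : Γ => K) g).comp (cA ρ).val f :=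
        fun f => rfl
      rw [e, map_prod]
      refine Finset.prod_eq_zero (Finset.mem_univ i) ?_
      rw [map_prod]
      exact Finset.prod_eq_zero (Finset.mem_univ j) h0
    have h2 : ∀ i j, (bP i : Dual K V) (ρ g (bW j : V)) = 0 := by
      intro i j
      have h3 := congrArg (fun f : cA ρ => f.1 g) (hh2 i j)
      exact (mul_eq_zero.1 h3).resolve_left (h1 i j)
    have h3 : ∀ j, ρ g (bW j : V) ∈ W := by
      intro j
      by_contra hcon
      obtain ⟨ξ, hξ1, hξ2⟩ := Submodule.exists_le_ker_of_notMem hcon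
      apply hξ1
      have hξ : ξ ∈ W.dualAnnihilator := (Submodule.mem_dualAnnihilator _).2
        (fun w hw => LinearMap.mem_ker.1 (hξ2 hw))
      have h4 : ξ = ∑ i, bP.repr ⟨ξ, hξ⟩ i • (bP i : Dual K V) := by
        have := congrArg Subtype.val (bP.sum_repr ⟨ξ, hξ⟩)
        rw [Submodule.coe_sum] at this
        exact this.symm
      rw [h4, LinearMap.sum_apply]
      refine Finset.sum_eq_zero fun i _ => ?_
      rw [LinearMap.smul_apply, h2, smul_zero]
    intro w hw
    have h4 : w = ∑ j, bW.repr ⟨w, hw⟩ j • (bW j : V) := by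
      have := congrArg Subtype.val (bW.sum_repr ⟨w, hw⟩)
      rw [Submodule.coe_sum] at this
      exact this.symm
    rw [h4, map_sum]
    refine W.sum_mem fun j _ => ?_
    rw [map_smul]
    exact W.smul_mem _ (h3 j)

/-- Finitely many translates of the stabilizer cover the group. -/
theorem finite_cover [FiniteDimensional K V] [CharZero K] (W : Submodule K V)
    (hW : ∀ X ∈ tanL ρ, ∀ w ∈ W, X w ∈ W) :
    ∃ T : Finset Γ, ∀ g : Γ, ∃ t ∈ T, ∀ w ∈ W, ρ (t⁻¹ * g) w ∈ W := by
  classical
  have := cA_noeth ρ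
  obtain ⟨h, hh1, hh2⟩ := exists_h ρ W hW
  let F : Γ → cA ρ := fun g0 => trA ρ g0⁻¹ 1 h
  have hF : ∀ g0 g, (F g0).1 g = h.1 (g0⁻¹ * g) := by
    intro g0 g
    rw [trA_val, mul_one]
  obtain ⟨s, hs1, hs2⟩ := (Submodule.fg_span_iff_fg_span_finset_subset (Set.range F)).1
    ((inferInstance : IsNoetherianRing (cA ρ)).noetherian (Submodule.span (cA ρ) (Set.range F)))
  obtain ⟨T, hT⟩ : ∃ T : Finset Γ, (s : Set (cA ρ)) ⊆ F '' T := by
    have hfin : (s : Set (cA ρ)).Finite := s.finite_toSet
    choose! φ hφ using fun (x : cA ρ) (hx : x ∈ (s : Set (cA ρ))) => hs1 hx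
    refine ⟨s.image φ, fun x hx => ?_⟩
    exact ⟨φ x, Finset.mem_coe.2 (Finset.mem_image_of_mem φ (Finset.mem_coe.1 hx)), hφ x hx⟩
  refine ⟨T, fun g => ?_⟩
  by_contra hcon
  push Not at hcon
  have hz : ∀ t ∈ T, (F t).1 g = 0 := by
    intro t ht
    by_contra hne
    rw [hF] at hne
    obtain ⟨w, hw, hw'⟩ := hcon t ht
    exact hw' (hh2 _ hne w hw)
  have hall : ∀ f ∈ Submodule.span (cA ρ) (s : Set (cA ρ)), f.1 g = 0 := by
    intro f hf
    induction hf using Submodule.span_induction with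
    | mem x hx =>
      obtain ⟨t, ht, rfl⟩ := hT hx
      exact hz t ht
    | zero => rfl
    | add x y _ _ hx hy =>
      show x.1 g + y.1 g = 0
      rw [hx, hy, add_zero]
    | smul a x _ hx =>
      show a.1 g * x.1 g = 0
      rw [hx, mul_zero]
  have h1 := hall (F g) (by
    rw [← hs2]
    exact Submodule.subset_span ⟨g, rfl⟩)
  rw [hF, inv_mul_cancel, hh1] at h1
  exact one_ne_zero h1

end Pool.Agent.U282.ZL
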