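import Mathlib
import Pool.Agent.U282.ZL.Grp2

/-! A representation whose matrix coefficients lie in the algebra of coefficients of another one:
semisimplicity for the Lie algebra implies semisimplicity for the group. -/

set_option autoImplicit false

namespace Pool.Agent.U282.ZL

open Pool.Agent.U282.PW Module PiTensorProduct
open scoped TensorProduct

attribute [local instance 100] LieRing.ofAssociativeRing

/-- Semisimplicity of a representation: stable subspaces have stable complements. -/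
def SSRep {K M Γ : Type*} [Field K] [AddCommGroup M] [Module K M] [Group Γ]
    (τ : Representation K Γ M) : Prop :=
  ∀ U : Submodule K M, (∀ g, ∀ u ∈ U, τ g u ∈ U) →
    ∃ U' : Submodule K M, (∀ g, ∀ u ∈ U', τ g u ∈ U') ∧ IsCompl U U'

theorem rep_inv {K M Γ : Type*} [Field K] [AddCommGroup M] [Module K M] [Group Γ]
    (τ : Representation K Γ M) (g : Γ) (v : M) : τ g⁻¹ (τ g v) = v := by
  rw [← Module.End.mul_apply, ← map_mul, inv_mul_cancel, map_one]
  rfl

theorem rep_inv' {K M Γ : Type*} [Field K] [AddCommGroup M] [Module K M] [Group Γ]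
    (τ : Representation K Γ M) (g : Γ) (v : M) : τ g (τ g⁻¹ v) = v := by
  rw [← Module.End.mul_apply, ← map_mul, mul_inv_cancel, map_one]
  rfl

variable {K V Γ : Type*} [Field K] [AddCommGroup V] [Module K V] [Group Γ]
  (ρ : Representation K Γ V)
variable {M : Type*} [AddCommGroup M] [Module K M] (τ : Representation K Γ M)
  (st : Module.End K V → Module.End K M)

/-- The matrix coefficients of `τ` lie in the algebra of coefficients of `ρ`, and `st` is the
derivative. -/
def Good : Prop := ∀ (δ : cA ρ →ₗ[K] K) (X : Module.End K V), IsPD ρ δ →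
  (∀ ξ v, δ (coA ρ ξ v) = ξ (X v)) → ∀ (η : Dual K M) (t : M),
    ∃ f : cA ρ, (∀ g, f.1 g = η (τ g t)) ∧ δ f = η (st X t)

variable {ρ τ st}

theorem Good.stable (h : Good ρ τ st) (S : Submodule K M) (hS : ∀ g, ∀ s ∈ S, τ g s ∈ S)
    (X : Module.End K V) (hX : X ∈ tanL ρ) : ∀ s ∈ S, st X s ∈ S := by
  intro s hs
  obtain ⟨δ, hδ, hX⟩ := (mem_tanL ρ X).1 hX
  by_contra hcon
  obtain ⟨η, h1, h2⟩ := Submodule.exists_le_ker_of_notMem hcon
  obtain ⟨f, hf1, hf2⟩ := h δ X hδ hX η s
  apply h1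
  rw [← hf2]
  have hf0 : f = 0 := by
    apply Subtype.ext
    funext g
    rw [hf1]
    exact LinearMap.mem_ker.1 (h2 (hS g s hs))
  rw [hf0, map_zero]

theorem Good.coeff (h : Good ρ τ st) (η : Dual K M) (t : M) :
    ∃ f : cA ρ, (∀ g, f.1 g = η (τ g t)) ∧ ∀ (δ : cA ρ →ₗ[K] K) (X : Module.End K V),
      IsPD ρ δ → (∀ ξ v, δ (coA ρ ξ v) = ξ (X v)) → δ f = η (st X t) := by
  obtain ⟨f, hf, -⟩ := h 0 0 (fun f f' => by simp) (fun ξ v => by simp) η t
  refine ⟨f, hf, fun δ X hδ hX => ?_⟩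
  obtain ⟨f', hf', hf''⟩ := h δ X hδ hX η t
  have : f = f' := by
    apply Subtype.ext
    funext g
    rw [hf, hf']
  rw [this, hf'']

/-- A subspace stable under the Lie algebra is stable under the elements where a suitable
function does not vanish. -/
theorem Good.exists_h [FiniteDimensional K V] [FiniteDimensional K M] [CharZero K]
    (hG : Good ρ τ st) (W : Submodule K M) (hW : ∀ X ∈ tanL ρ, ∀ w ∈ W, st X w ∈ W) :
    ∃ h : cA ρ, h.1 1 = 1 ∧ ∀ g, h.1 g ≠ 0 → ∀ w ∈ W, τ g w ∈ W := by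
  classical
  have := cA_noeth ρ
  obtain ⟨r, t, δ, ht, hδ, hdual⟩ := exists_dual (ev1 ρ)
  have hpd : ∀ k, IsPD ρ (δ k) := fun k f f' => hδ k f f'
  choose X hX using fun k => exists_tangent ρ (δ k)
  have hXL : ∀ k, X k ∈ tanL ρ := fun k => (mem_tanL ρ _).2 ⟨δ k, hpd k, hX k⟩
  choose cf hcf1 hcf2 using fun (p : Dual K M × M) => hG.coeff p.1 p.2
  let S : Set (cA ρ) := {f | ∃ ξ : Dual K M, (∀ w ∈ W, ξ w = 0) ∧ ∃ w ∈ W, f = cf (ξ, w)}
  have hall := fun n => all_pow (ev1 ρ) t δ ht hdual (fun k => DA ρ (hpd k) (X k) (hX k))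
    (fun k f f' => DA_mul ρ (hpd k) (X k) (hX k) f f')
    (fun k f => DA_one ρ (hpd k) (X k) (hX k) f) S
    (by
      rintro f ⟨ξ, hξ, w, hw, rfl⟩
      rw [ev1_apply, hcf1, map_one]
      exact hξ w hw)
    (by
      rintro k f ⟨ξ, hξ, w, hw, rfl⟩
      refine ⟨ξ, hξ, _, hW _ (hXL k) w hw, ?_⟩
      apply Subtype.ext
      funext g
      show δ k (trA ρ g 1 (cf (ξ, w))) = _
      rw [hcf1]
      have e : trA ρ g 1 (cf (ξ, w)) = cf (ξ ∘ₗ τ g, w) := by
        apply Subtype.ext
        funext a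
        rw [trA_val, hcf1, hcf1, mul_one, map_mul]
        rfl
      rw [e, hcf2 _ (δ k) (X k) (hpd k) (hX k)]
      rfl) n
  have hkr : ∀ f ∈ S, ∃ h : cA ρ, ev1 ρ h = 1 ∧ h * f = 0 := fun f hf =>
    krull_elt (ev1 ρ) f (fun n => hall n f hf)
  let bW := Module.finBasis K W
  let P : Submodule K (Dual K M) := W.dualAnnihilator
  have : Module.Free K P := Module.Free.of_divisionRing K P
  let bP := Module.finBasis K P
  have hk : ∀ (i : Fin (finrank K P)) (j : Fin (finrank K W)),
      ∃ h : cA ρ, ev1 ρ h = 1 ∧ h * cf ((bP i : Dual K M), (bW j : M)) = 0 := by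
    intro i j
    refine hkr _ ⟨_, ?_, _, (bW j).2, rfl⟩
    intro w hw
    exact (Submodule.mem_dualAnnihilator _).1 (bP i).2 w hw
  choose h hh1 hh2 using hk
  refine ⟨∏ i, ∏ j, h i j, ?_, ?_⟩
  · rw [← ev1_apply, map_prod]
    refine Finset.prod_eq_one fun i _ => ?_
    rw [map_prod]
    exact Finset.prod_eq_one fun j _ => hh1 i j
  · intro g hg
    have h1 : ∀ i j, (h i j).1 g ≠ 0 := by
      intro i j h0
      apply hg
      have e : ∀ f : cA ρ, f.1 g = (Pi.evalAlgHom K (fun _ : Γ => K) g).comp (cA ρ).val f :=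
        fun f => rfl
      rw [e, map_prod]
      refine Finset.prod_eq_zero (Finset.mem_univ i) ?_
      rw [map_prod]
      exact Finset.prod_eq_zero (Finset.mem_univ j) h0
    have h2 : ∀ i j, (bP i : Dual K M) (τ g (bW j : M)) = 0 := by
      intro i j
      have h3 := congrArg (fun f : cA ρ => f.1 g) (hh2 i j)
      have h4 : (h i j).1 g * (cf ((bP i : Dual K M), (bW j : M))).1 g = 0 := h3
      rw [hcf1] at h4
      exact (mul_eq_zero.1 h4).resolve_left (h1 i j)
    have h3 : ∀ j, τ g (bW j : M) ∈ W := by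
      intro j
      by_contra hcon
      obtain ⟨ξ, hξ1, hξ2⟩ := Submodule.exists_le_ker_of_notMem hcon
      apply hξ1
      have hξ : ξ ∈ W.dualAnnihilator := (Submodule.mem_dualAnnihilator _).2
        (fun w hw => LinearMap.mem_ker.1 (hξ2 hw))
      have h4 : ξ = ∑ i, bP.repr ⟨ξ, hξ⟩ i • (bP i : Dual K M) := by
        have := congrArg Subtype.val (bP.sum_repr ⟨ξ, hξ⟩)
        rw [Submodule.coe_sum] at this
        exact this.symm
      rw [h4, LinearMap.sum_apply]
      refine Finset.sum_eq_zero fun i _ => ?_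
      rw [LinearMap.smul_apply, h2, smul_zero]
    intro w hw
    have h4 : w = ∑ j, bW.repr ⟨w, hw⟩ j • (bW j : M) := by
      have := congrArg Subtype.val (bW.sum_repr ⟨w, hw⟩)
      rw [Submodule.coe_sum] at this
      exact this.symm
    rw [h4, map_sum]
    refine W.sum_mem fun j _ => ?_
    rw [map_smul]
    exact W.smul_mem _ (h3 j)

/-- Finitely many translates of the stabilizer cover the group. -/
theorem Good.finite_cover [FiniteDimensional K V] [FiniteDimensional K M] [CharZero K]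
    (hG : Good ρ τ st) (W : Submodule K M) (hW : ∀ X ∈ tanL ρ, ∀ w ∈ W, st X w ∈ W) :
    ∃ T : Finset Γ, ∀ g : Γ, ∃ t ∈ T, ∀ w ∈ W, τ (t⁻¹ * g) w ∈ W := by
  classical
  have := cA_noeth ρ
  obtain ⟨h, hh1, hh2⟩ := hG.exists_h W hW
  let F : Γ → cA ρ := fun g0 => trA ρ g0⁻¹ 1 h
  have hF : ∀ g0 g, (F g0).1 g = h.1 (g0⁻¹ * g) := by
    intro g0 g
    rw [trA_val, mul_one]
  obtain ⟨s, hs1, hs2⟩ := (Submodule.fg_span_iff_fg_span_finset_subset (Set.range F)).1
    ((inferInstance : IsNoetherianRing (cA ρ)).noetherian (Submodule.span (cA ρ) (Set.range F)))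
  obtain ⟨T, hT⟩ : ∃ T : Finset Γ, (s : Set (cA ρ)) ⊆ F '' T := by
    have hfin : (s : Set (cA ρ)).Finite := s.finite_toSet
    choose! φ hφ using fun (x : cA ρ) (hx : x ∈ (s : Set (cA ρ))) => hs1 hx
    refine ⟨s.image φ, fun x hx => ?_⟩
    exact ⟨φ x, Finset.mem_coe.2 (Finset.mem_image_of_mem φ (Finset.mem_coe.1 hx)), hφ x hx⟩
  refine ⟨T, fun g => ?_⟩
  by_contra hcon
  push Not at hcon
  have hz : ∀ t ∈ T, (F t).1 g = 0 := by
    intro t ht
    by_contra hne
    rw [hF] at hne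
    obtain ⟨w, hw, hw'⟩ := hcon t ht
    exact hw' (hh2 _ hne w hw)
  have hall : ∀ f ∈ Submodule.span (cA ρ) (s : Set (cA ρ)), f.1 g = 0 := by
    intro f hf
    induction hf using Submodule.span_induction with
    | mem x hx =>
      obtain ⟨t, ht, rfl⟩ := hT hx
      exact hz t ht
    | zero => rfl
    | add x y _ _ hx hy =>
      show x.1 g + y.1 g = 0
      rw [hx, hy, add_zero]
    | smul a x _ hx =>
      show a.1 g * x.1 g = 0
      rw [hx, mul_zero]
  have h1 := hall (F g) (by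
    rw [← hs2]
    exact Submodule.subset_span ⟨g, rfl⟩)
  rw [hF, inv_mul_cancel, hh1] at h1
  exact one_ne_zero h1

theorem stab_inv' [FiniteDimensional K M] (W : Submodule K M) (g : Γ) (h : ∀ w ∈ W, τ g w ∈ W) :
    ∀ w ∈ W, τ g⁻¹ w ∈ W := by
  have h1 : Function.Injective ((τ g).restrict h) := by
    intro a b hab
    have h2 := congrArg Subtype.val hab
    rw [LinearMap.coe_restrict_apply, LinearMap.coe_restrict_apply] at h2
    apply Subtype.ext
    have h3 := congrArg (τ g⁻¹) h2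
    rwa [rep_inv, rep_inv] at h3
  have h2 := LinearMap.surjective_of_injective h1
  intro w hw
  obtain ⟨w', hw'⟩ := h2 ⟨w, hw⟩
  have h3 := congrArg Subtype.val hw'
  rw [LinearMap.coe_restrict_apply] at h3
  have h4 := congrArg (τ g⁻¹) h3
  rw [rep_inv] at h4
  rw [← h4]
  exact w'.2

/-- The stabilizer of a subspace. -/
def stabM (τ : Representation K Γ M) [FiniteDimensional K M] (W : Submodule K M) : Subgroup Γ where
  carrier := {g | ∀ w ∈ W, τ g w ∈ W}
  mul_mem' := by
    intro a b ha hb w hw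
    rw [map_mul]
    exact ha _ (hb w hw)
  one_mem' := by
    intro w hw
    rw [map_one]
    exact hw
  inv_mem' := by
    intro g hg
    exact stab_inv' W g hg

theorem Good.transfer [FiniteDimensional K V] [FiniteDimensional K M] [CharZero K]
    (hG : Good ρ τ st)
    (hL : ∀ W : Submodule K M, (∀ X ∈ tanL ρ, ∀ w ∈ W, st X w ∈ W) →
      ∃ W' : Submodule K M, (∀ X ∈ tanL ρ, ∀ w ∈ W', st X w ∈ W') ∧ IsCompl W W') :
    SSRep τ := by
  classical
  intro U hU
  obtain ⟨W, hW, hUW⟩ := hL U (fun X hX => hG.stable U hU X hX)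
  obtain ⟨T, hT⟩ := hG.finite_cover W hW
  let H : Subgroup Γ := stabM τ W
  have hfin : Finite (Γ ⧸ H) := by
    refine Finite.of_surjective (fun t : T => ((t : Γ) : Γ ⧸ H)) ?_
    intro q
    induction q using QuotientGroup.induction_on with
    | _ g =>
      obtain ⟨t, ht, h⟩ := hT g
      exact ⟨⟨t, ht⟩, QuotientGroup.eq.2 h⟩
  let _ : Fintype (Γ ⧸ H) := Fintype.ofFinite _
  let p : Module.End K M := Submodule.projection U W hUW
  have hp1 : ∀ u ∈ U, p u = u := fun u hu => Submodule.projection_apply_of_mem_left hUW hu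
  have hp2 : ∀ w ∈ W, p w = 0 := fun w hw => (Submodule.projection_apply_eq_zero_iff hUW).2 hw
  have hp3 : ∀ v, p v ∈ U := fun v => Submodule.projection_apply_mem hUW v
  let c : Γ → Module.End K M := fun g => τ g * p * τ g⁻¹
  have hc : ∀ g v, c g v = τ g (p (τ g⁻¹ v)) := fun g v => rfl
  have hH : ∀ x ∈ H, ∀ v, τ x (p (τ x⁻¹ v)) = p v := by
    intro x hx v
    obtain ⟨u, hu, w, hw, rfl⟩ := Submodule.mem_sup.1 (show v ∈ U ⊔ W by rw [hUW.sup_eq_top]; trivial)
    rw [map_add, map_add, hp1 _ (hU _ _ hu), hp2 _ (stab_inv' W x hx w hw), add_zero, rep_inv',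
      map_add, hp1 u hu, hp2 w hw, add_zero]
  have hcong : ∀ a b : Γ, a⁻¹ * b ∈ H → c a = c b := by
    intro a b hab
    apply LinearMap.ext
    intro v
    rw [hc, hc]
    have h1 := hH _ hab (τ a⁻¹ v)
    have h2 : τ (a⁻¹ * b)⁻¹ (τ a⁻¹ v) = τ b⁻¹ v := by
      rw [← Module.End.mul_apply, ← map_mul]
      congr 2
      group
    rw [h2] at h1
    rw [← h1, map_mul, Module.End.mul_apply, rep_inv']
  let c' : Γ ⧸ H → Module.End K M := fun q => c q.out
  have hc' : ∀ g : Γ, c' (g : Γ ⧸ H) = c g := by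
    intro g
    apply hcong
    exact QuotientGroup.eq.1 (QuotientGroup.out_eq' _)
  have hcg : ∀ (g : Γ) (q : Γ ⧸ H) (v : M), τ g (c' q v) = c' (g • q) (τ g v) := by
    intro g q v
    induction q using QuotientGroup.induction_on with
    | _ a =>
      have e : g • (a : Γ ⧸ H) = ((g * a : Γ) : Γ ⧸ H) := rfl
      rw [e, hc', hc', hc, hc, ← Module.End.mul_apply, ← map_mul]
      congr 2
      rw [← Module.End.mul_apply, ← map_mul]
      congr 2
      group
  let P : Module.End K M := ∑ q : Γ ⧸ H, c' q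
  have hPapp : ∀ v, P v = ∑ q : Γ ⧸ H, c' q v := fun v => LinearMap.sum_apply _ _ _
  have hPg : ∀ g v, τ g (P v) = P (τ g v) := by
    intro g v
    rw [hPapp, hPapp, map_sum]
    simp only [hcg]
    exact (MulAction.bijective g).sum_comp (fun q => c' q (τ g v))
  have hPU : ∀ v, P v ∈ U := by
    intro v
    rw [hPapp]
    refine U.sum_mem fun q _ => ?_
    exact hU _ _ (hp3 _)
  have hPu : ∀ u ∈ U, P u = (Fintype.card (Γ ⧸ H) : K) • u := by
    intro u hu
    rw [hPapp]
    have : ∀ q : Γ ⧸ H, c' q u = u := by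
      intro q
      show τ q.out (p (τ q.out⁻¹ u)) = u
      rw [hp1 _ (hU _ _ hu), rep_inv']
    simp only [this, Finset.sum_const, Finset.card_univ]
    rw [Nat.cast_smul_eq_nsmul]
  have hcard : (Fintype.card (Γ ⧸ H) : K) ≠ 0 := by
    rw [Nat.cast_ne_zero]
    exact Fintype.card_ne_zero
  refine ⟨LinearMap.ker P, ?_, ?_⟩
  · intro g u hu
    rw [LinearMap.mem_ker] at hu ⊢
    rw [← hPg, hu, map_zero]
  · rw [isCompl_iff, disjoint_iff, codisjoint_iff]
    constructor
    · rw [eq_bot_iff]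
      rintro u ⟨hu1, hu2⟩
      have h1 : P u = 0 := hu2
      rw [hPu u hu1] at h1
      rw [Submodule.mem_bot]
      exact (smul_eq_zero.1 h1).resolve_left hcard
    · rw [eq_top_iff]
      intro v _
      rw [Submodule.mem_sup]
      refine ⟨(Fintype.card (Γ ⧸ H) : K)⁻¹ • P v, U.smul_mem _ (hPU v),
        v - (Fintype.card (Γ ⧸ H) : K)⁻¹ • P v, ?_, by abel⟩
      rw [LinearMap.mem_ker, map_sub, map_smul, hPu _ (hPU v), smul_smul, inv_mul_cancel₀ hcard,
        one_smul, sub_self]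

end Pool.Agent.U282.ZL
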