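import Mathlib
import Pool.Agent.U282.ZL.Grp2

/-! Semisimplicity passes from the Lie algebra to the group; semisimple layers of tensor powers. -/

set_option autoImplicit false

namespace Pool.Agent.U282.ZL

open Pool.Agent.U282.PW Module PiTensorProduct
open scoped TensorProduct

attribute [local instance 100] LieRing.ofAssociativeRing

variable {K V Γ : Type*} [Field K] [AddCommGroup V] [Module K V] [Group Γ]
  (ρ : Representation K Γ V)

theorem rho_inv (g : Γ) (v : V) : ρ g⁻¹ (ρ g v) = v := by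
  rw [← Module.End.mul_apply, ← map_mul, inv_mul_cancel, map_one]
  rfl

theorem rho_inv' (g : Γ) (v : V) : ρ g (ρ g⁻¹ v) = v := by
  rw [← Module.End.mul_apply, ← map_mul, mul_inv_cancel, map_one]
  rfl

theorem stab_inv [FiniteDimensional K V] (W : Submodule K V) (g : Γ) (h : ∀ w ∈ W, ρ g w ∈ W) :
    ∀ w ∈ W, ρ g⁻¹ w ∈ W := by
  have h1 : Function.Injective ((ρ g).restrict h) := by
    intro a b hab
    have h2 := congrArg Subtype.val hab
    rw [LinearMap.coe_restrict_apply, LinearMap.coe_restrict_apply] at h2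
    apply Subtype.ext
    have h3 := congrArg (ρ g⁻¹) h2
    rwa [rho_inv, rho_inv] at h3
  have h2 := LinearMap.surjective_of_injective h1
  intro w hw
  obtain ⟨w', hw'⟩ := h2 ⟨w, hw⟩
  have h3 := congrArg Subtype.val hw'
  rw [LinearMap.coe_restrict_apply] at h3
  have h4 := congrArg (ρ g⁻¹) h3
  rw [rho_inv] at h4
  rw [← h4]
  exact w'.2

/-- The stabilizer of a subspace. -/
def stabW [FiniteDimensional K V] (W : Submodule K V) : Subgroup Γ where
  carrier := {g | ∀ w ∈ W, ρ g w ∈ W}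
  mul_mem' := by
    intro a b ha hb w hw
    rw [map_mul]
    exact ha _ (hb w hw)
  one_mem' := by
    intro w hw
    rw [map_one]
    exact hw
  inv_mem' := by
    intro g hg
    exact stab_inv ρ W g hg

theorem ss_transfer [FiniteDimensional K V] [CharZero K]
    (hL : ∀ W : Submodule K V, (∀ X ∈ tanL ρ, ∀ w ∈ W, X w ∈ W) →
      ∃ W' : Submodule K V, (∀ X ∈ tanL ρ, ∀ w ∈ W', X w ∈ W') ∧ IsCompl W W')
    (U : Submodule K V) (hU : ∀ g, ∀ u ∈ U, ρ g u ∈ U) :
    ∃ U' : Submodule K V, (∀ g, ∀ u ∈ U', ρ g u ∈ U') ∧ IsCompl U U' := by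
  classical
  obtain ⟨W, hW, hUW⟩ := hL U (fun X hX => stable_one ρ U hU X hX)
  obtain ⟨T, hT⟩ := finite_cover ρ W hW
  let H : Subgroup Γ := stabW ρ W
  have hfin : Finite (Γ ⧸ H) := by
    refine Finite.of_surjective (fun t : T => ((t : Γ) : Γ ⧸ H)) ?_
    intro q
    induction q using QuotientGroup.induction_on with
    | _ g =>
      obtain ⟨t, ht, h⟩ := hT g
      exact ⟨⟨t, ht⟩, QuotientGroup.eq.2 h⟩
  let _ : Fintype (Γ ⧸ H) := Fintype.ofFinite _
  let p : Module.End K V := Submodule.projection U W hUW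
  have hp1 : ∀ u ∈ U, p u = u := fun u hu => Submodule.projection_apply_of_mem_left hUW hu
  have hp2 : ∀ w ∈ W, p w = 0 := fun w hw => (Submodule.projection_apply_eq_zero_iff hUW).2 hw
  have hp3 : ∀ v, p v ∈ U := fun v => Submodule.projection_apply_mem hUW v
  let c : Γ → Module.End K V := fun g => ρ g * p * ρ g⁻¹
  have hc : ∀ g v, c g v = ρ g (p (ρ g⁻¹ v)) := fun g v => rfl
  have hH : ∀ x ∈ H, ∀ v, ρ x (p (ρ x⁻¹ v)) = p v := by
    intro x hx v
    obtain ⟨u, hu, w, hw, rfl⟩ := Submodule.mem_sup.1 (show v ∈ U ⊔ W by rw [hUW.sup_eq_top]; trivial)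
    rw [map_add, map_add, hp1 _ (hU _ _ hu), hp2 _ (stab_inv ρ W x hx w hw), add_zero, rho_inv',
      map_add, hp1 u hu, hp2 w hw, add_zero]
  have hcong : ∀ a b : Γ, a⁻¹ * b ∈ H → c a = c b := by
    intro a b hab
    apply LinearMap.ext
    intro v
    rw [hc, hc]
    have h1 := hH _ hab (ρ a⁻¹ v)
    have h2 : ρ (a⁻¹ * b)⁻¹ (ρ a⁻¹ v) = ρ b⁻¹ v := by
      rw [← Module.End.mul_apply, ← map_mul]
      congr 2
      group
    rw [h2] at h1
    rw [← h1, map_mul, Module.End.mul_apply, rho_inv']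
  let c' : Γ ⧸ H → Module.End K V := fun q => c q.out
  have hc' : ∀ g : Γ, c' (g : Γ ⧸ H) = c g := by
    intro g
    apply hcong
    exact QuotientGroup.eq.1 (QuotientGroup.out_eq' _)
  have hcg : ∀ (g : Γ) (q : Γ ⧸ H) (v : V), ρ g (c' q v) = c' (g • q) (ρ g v) := by
    intro g q v
    induction q using QuotientGroup.induction_on with
    | _ a =>
      have e : g • (a : Γ ⧸ H) = ((g * a : Γ) : Γ ⧸ H) := rfl
      rw [e, hc', hc', hc, hc, ← Module.End.mul_apply, ← map_mul]
      congr 2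
      rw [← Module.End.mul_apply, ← map_mul]
      congr 2
      group
  let P : Module.End K V := ∑ q : Γ ⧸ H, c' q
  have hPapp : ∀ v, P v = ∑ q : Γ ⧸ H, c' q v := fun v => LinearMap.sum_apply _ _ _
  have hPg : ∀ g v, ρ g (P v) = P (ρ g v) := by
    intro g v
    rw [hPapp, hPapp, map_sum]
    simp only [hcg]
    exact (MulAction.bijective g).sum_comp (fun q => c' q (ρ g v))
  have hPU : ∀ v, P v ∈ U := by
    intro v
    rw [hPapp]
    refine U.sum_mem fun q _ => ?_
    exact hU _ _ (hp3 _)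
  have hPu : ∀ u ∈ U, P u = (Fintype.card (Γ ⧸ H) : K) • u := by
    intro u hu
    rw [hPapp]
    have : ∀ q : Γ ⧸ H, c' q u = u := by
      intro q
      show ρ q.out (p (ρ q.out⁻¹ u)) = u
      rw [hp1 _ (hU _ _ hu), rho_inv']
    simp only [this, Finset.sum_const, Finset.card_univ]
    rw [Nat.cast_smul_eq_nsmul]
  have hcard : (Fintype.card (Γ ⧸ H) : K) ≠ 0 := by
    rw [Nat.cast_ne_zero]
    exact Fintype.card_ne_zero
  refine ⟨LinearMap.ker P, ?_, ?_⟩
  · intro g u hu
    rw [LinearMap.mem_ker] at hu ⊢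
    rw [← hPg, hu, map_zero]
  · rw [isCompl_iff, disjoint_iff, codisjoint_iff]
    constructor
    · rw [eq_bot_iff]
      rintro u ⟨hu1, hu2⟩
      have h1 : P u = 0 := hu2
      rw [hPu u hu1] at h1
      rw [Submodule.mem_bot]
      exact (smul_eq_zero.1 h1).resolve_left hcard
    · rw [eq_top_iff]
      intro v _
      rw [Submodule.mem_sup]
      refine ⟨(Fintype.card (Γ ⧸ H) : K)⁻¹ • P v, U.smul_mem _ (hPU v),
        v - (Fintype.card (Γ ⧸ H) : K)⁻¹ • P v, ?_, by abel⟩
      rw [LinearMap.mem_ker, map_sub, map_smul, hPu _ (hPU v), smul_smul, inv_mul_cancel₀ hcard,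
        one_smul, sub_self]

end Pool.Agent.U282.ZL
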