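import Mathlib
import Pool.Agent.U282.ZL.Grp3

/-! The nilpotent operator maps each semisimple layer of a tensor power to the layer below. -/

set_option autoImplicit false

namespace Pool.Agent.U282.ZL

open Pool.Agent.U282.PW Module PiTensorProduct
open scoped TensorProduct

attribute [local instance 100] LieRing.ofAssociativeRing

variable {K V Γ : Type*} [Field K] [AddCommGroup V] [Module K V] [Group Γ]
  (ρ : Representation K Γ V) {n : ℕ}

theorem tg_one (v : ⨂[K] _ : Fin n, V) : tg ρ n 1 v = v := by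
  rw [tg, map_one]
  have : (fun _ : Fin n => (1 : Module.End K V)) = fun _ => LinearMap.id := rfl
  rw [this, PiTensorProduct.map_id]
  rfl

theorem tg_mul (a b : Γ) (v : ⨂[K] _ : Fin n, V) : tg ρ n (a * b) v = tg ρ n a (tg ρ n b v) := by
  rw [tg, tg, tg, ← LinearMap.comp_apply, ← PiTensorProduct.map_comp, map_mul]
  rfl

theorem tg_inv (g : Γ) (v : ⨂[K] _ : Fin n, V) : tg ρ n g⁻¹ (tg ρ n g v) = v := by
  rw [← tg_mul, inv_mul_cancel, tg_one]

theorem tg_inv' (g : Γ) (v : ⨂[K] _ : Fin n, V) : tg ρ n g (tg ρ n g⁻¹ v) = v := by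
  rw [← tg_mul, mul_inv_cancel, tg_one]

theorem tg_dn (a : Γ) (X : Module.End K V) (v : ⨂[K] _ : Fin n, V) :
    tg ρ n a (dn n X v) = dn n (ρ a * X * ρ a⁻¹ : Module.End K V) (tg ρ n a v) := by
  have h : tg ρ n a ∘ₗ dn n X = dn n (ρ a * X * ρ a⁻¹ : Module.End K V) ∘ₗ tg ρ n a := by
    apply PiTensorProduct.ext
    apply MultilinearMap.ext
    intro x
    rw [LinearMap.compMultilinearMap_apply, LinearMap.compMultilinearMap_apply,
      LinearMap.comp_apply, LinearMap.comp_apply, dn_apply, dn_apply, map_sum]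
    refine Finset.sum_congr rfl fun i _ => ?_
    rw [atF_tprod, tg, PiTensorProduct.map_tprod, PiTensorProduct.map_tprod, atF_tprod]
    congr 1
    funext k
    by_cases hk : k = i
    · subst hk
      rw [Function.update_self, Function.update_self, Module.End.mul_apply, Module.End.mul_apply,
        rho_inv]
    · rw [Function.update_of_ne hk, Function.update_of_ne hk]
  exact LinearMap.congr_fun h v

theorem pres [FiniteDimensional K V] (T : Module.End K (⨂[K] _ : Fin n, V))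
    (hN : ∀ (F W : Submodule K (⨂[K] _ : Fin n, V)),
      Cover (fun x : tanL ρ => dn n (x : Module.End K V)) F W → ∀ w ∈ W, T w ∈ F)
    (F : Submodule K (⨂[K] _ : Fin n, V)) (hF : ∀ x : tanL ρ, ∀ v ∈ F, dn n (x : Module.End K V) v ∈ F) :
    ∀ v ∈ F, T v ∈ F := by
  intro v hv
  by_cases hb : F = ⊥
  · subst hb
    rw [Submodule.mem_bot] at hv ⊢
    rw [hv, map_zero]
  · obtain ⟨F', _, hF'⟩ := exists_cover (fun x : tanL ρ => dn n (x : Module.End K V)) ⊥ F
      (bot_lt_iff_ne_bot.2 hb) (by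
        intro x v hv
        rw [Submodule.mem_bot] at hv ⊢
        rw [hv, map_zero]) hF
    exact hF'.1.le (hN F' F hF' v hv)

/-- The layer is semisimple for the group. -/
structure Layer (F F' : Submodule K (⨂[K] _ : Fin n, V)) : Prop where
  le : F ≤ F'
  lo : ∀ g, ∀ v ∈ F, tg ρ n g v ∈ F
  up : ∀ g, ∀ v ∈ F', tg ρ n g v ∈ F'
  ss : ∀ U : Submodule K (⨂[K] _ : Fin n, V), (∀ g, ∀ v ∈ U, tg ρ n g v ∈ U) → F ≤ U → U ≤ F' →
    ∃ U' : Submodule K (⨂[K] _ : Fin n, V), (∀ g, ∀ v ∈ U', tg ρ n g v ∈ U') ∧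
      U ⊓ U' = F ∧ U ⊔ U' = F'

theorem layer [FiniteDimensional K V] (T : Module.End K (⨂[K] _ : Fin n, V))
    (hN : ∀ (F W : Submodule K (⨂[K] _ : Fin n, V)),
      Cover (fun x : tanL ρ => dn n (x : Module.End K V)) F W → ∀ w ∈ W, T w ∈ F)
    (F F' : Submodule K (⨂[K] _ : Fin n, V)) (h : Layer ρ F F') : ∀ v ∈ F', T v ∈ F := by
  have hst : ∀ U : Submodule K (⨂[K] _ : Fin n, V), (∀ g, ∀ v ∈ U, tg ρ n g v ∈ U) →
      ∀ x : tanL ρ, ∀ v ∈ U, dn n (x : Module.End K V) v ∈ U :=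
    fun U hU x => tensor_stable ρ U hU x.1 x.2
  obtain ⟨U0, ⟨hU1, hU2, hU3, hU4⟩, hmax⟩ :=
    (wellFounded_gt (α := Submodule K (⨂[K] _ : Fin n, V))).has_min
    {U | F ≤ U ∧ U ≤ F' ∧ (∀ g, ∀ v ∈ U, tg ρ n g v ∈ U) ∧ ∀ v ∈ U, T v ∈ F}
    ⟨F, le_rfl, h.le, h.lo, pres ρ T hN F (hst F h.lo)⟩
  by_cases hU0 : U0 = F'
  · rw [← hU0]; exact hU4
  exfalso
  obtain ⟨U', hU'1, hU'2, hU'3⟩ := h.ss U0 hU3 hU1 hU2
  have hFU' : F < U' := by
    refine lt_of_le_of_ne (hU'2 ▸ inf_le_right) ?_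
    intro e
    rw [← e, sup_eq_left.2 hU1] at hU'3
    exact hU0 hU'3
  obtain ⟨S, hS1, hS2⟩ := exists_cover' (fun g : Γ => tg ρ n g) F U' hFU' h.lo hU'1
  obtain ⟨Y, hY1, hY2⟩ := exists_cover' (fun x : tanL ρ => dn n (x : Module.End K V)) F S hS2.1
    (hst F h.lo) (hst S hS2.2.2.1)
  -- translates of `Y`
  have hYg : ∀ g : Γ, Cover (fun x : tanL ρ => dn n (x : Module.End K V)) F
      (Y.comap (tg ρ n g⁻¹)) := by
    intro g
    have hcs : ∀ (a : Γ) (Z : Submodule K (⨂[K] _ : Fin n, V)),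
        (∀ x : tanL ρ, ∀ v ∈ Z, dn n (x : Module.End K V) v ∈ Z) →
        ∀ x : tanL ρ, ∀ v ∈ Z.comap (tg ρ n a), dn n (x : Module.End K V) v ∈ Z.comap (tg ρ n a) := by
      intro a Z hZ x v hv
      rw [Submodule.mem_comap] at hv ⊢
      rw [tg_dn]
      exact hZ ⟨_, tanL_conj ρ a x.1 x.2⟩ _ hv
    refine ⟨?_, hst F h.lo, hcs g⁻¹ Y hY2.2.2.1, ?_⟩
    · refine lt_of_le_of_ne ?_ ?_
      · intro v hv
        exact hY2.1.le (h.lo _ v hv)
      · intro e
        obtain ⟨y, hy, hyF⟩ := SetLike.exists_of_lt hY2.1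
        apply hyF
        have h1 : tg ρ n g y ∈ Y.comap (tg ρ n g⁻¹) := by
          rw [Submodule.mem_comap, tg_inv]; exact hy
        rw [← e] at h1
        have h2 := h.lo g⁻¹ _ h1
        rwa [tg_inv] at h2
    · intro Z hZ hFZ hZY
      rcases hY2.2.2.2 (Z.comap (tg ρ n g)) (hcs g Z hZ)
        (fun v hv => hFZ (h.lo g v hv)) (fun v hv => by
          have := hZY hv
          rwa [Submodule.mem_comap, tg_inv] at this) with e | e
      · left
        apply le_antisymm _ hFZ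
        intro v hv
        have h1 : tg ρ n g⁻¹ v ∈ Z.comap (tg ρ n g) := by
          rw [Submodule.mem_comap, tg_inv']; exact hv
        rw [e] at h1
        have h2 := h.lo g _ h1
        rwa [tg_inv'] at h2
      · right
        apply le_antisymm hZY
        intro v hv
        rw [Submodule.mem_comap, ← e, Submodule.mem_comap, tg_inv'] at hv
        exact hv
  let Z : Submodule K (⨂[K] _ : Fin n, V) := ⨆ g : Γ, Y.comap (tg ρ n g⁻¹)
  have hZst : ∀ a : Γ, ∀ v ∈ Z, tg ρ n a v ∈ Z := by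
    intro a v hv
    have h1 : Z ≤ Z.comap (tg ρ n a) := by
      refine iSup_le fun g => ?_
      intro w hw
      rw [Submodule.mem_comap]
      refine (le_iSup (fun g : Γ => Y.comap (tg ρ n g⁻¹)) (a * g)) ?_
      rw [Submodule.mem_comap, mul_inv_rev, tg_mul, tg_inv]
      exact hw
    exact h1 hv
  have hYZ : Y ≤ Z := by
    intro v hv
    refine (le_iSup (fun g : Γ => Y.comap (tg ρ n g⁻¹)) 1) ?_
    rw [Submodule.mem_comap, inv_one, tg_one]
    exact hv
  have hZS : Z ≤ S := by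
    refine iSup_le fun g => ?_
    intro v hv
    rw [Submodule.mem_comap] at hv
    have h1 := hS2.2.2.1 g _ (hY1 hv)
    rwa [tg_inv'] at h1
  have hZeq : Z = S := by
    rcases hS2.2.2.2 Z hZst (hY2.1.le.trans hYZ) hZS with e | e
    · exfalso
      rw [e] at hYZ
      exact hY2.1.not_ge hYZ
    · exact e
  have hTS : ∀ v ∈ S, T v ∈ F := by
    have h1 : Z ≤ F.comap T := iSup_le fun g => fun v hv => hN _ _ (hYg g) v hv
    intro v hv
    exact h1 (hZeq ▸ hv)
  have hFS : S ≤ U0 := by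
    have h1 : U0 ⊔ S = U0 := by
      by_contra hne
      refine hmax (U0 ⊔ S) ⟨hU1.trans le_sup_left, sup_le hU2 (hS1.trans ?_), ?_, ?_⟩
        (lt_of_le_of_ne le_sup_left (Ne.symm hne))
      · rw [← hU'3]; exact le_sup_right
      · intro g v hv
        obtain ⟨a, ha, b, hb, rfl⟩ := Submodule.mem_sup.1 hv
        rw [map_add]
        exact Submodule.add_mem_sup (hU3 g a ha) (hS2.2.2.1 g b hb)
      · intro v hv
        obtain ⟨a, ha, b, hb, rfl⟩ := Submodule.mem_sup.1 hv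
        rw [map_add]
        exact F.add_mem (hU4 a ha) (hTS b hb)
    rw [← h1]
    exact le_sup_right
  have hSF : S ≤ F := by
    rw [← hU'2]
    exact le_inf hFS hS1
  exact hS2.1.not_ge hSF

/-- If the representation is not semisimple there is a nilpotent operator, not zero, which maps
each semisimple layer of each tensor power to the layer below. -/
theorem exists_nilp.{u} {K V : Type u} {Γ : Type*} [Field K] [CharZero K] [IsAlgClosed K]
    [AddCommGroup V] [Module K V] [FiniteDimensional K V] [Group Γ] (ρ : Representation K Γ V)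
    (U : Submodule K V) (hU : ∀ g, ∀ u ∈ U, ρ g u ∈ U)
    (hns : ∀ U' : Submodule K V, (∀ g, ∀ u ∈ U', ρ g u ∈ U') → ¬ IsCompl U U') :
    ∃ N : Module.End K V, N ≠ 0 ∧ IsNilpotent N ∧
      ∀ (n : ℕ) (F F' : Submodule K (⨂[K] _ : Fin n, V)), Layer ρ F F' →
        ∀ v ∈ F', dn n N v ∈ F := by
  have h1 : ∃ W : Submodule K V, (∀ X ∈ tanL ρ, ∀ w ∈ W, X w ∈ W) ∧
      ∀ W' : Submodule K V, (∀ X ∈ tanL ρ, ∀ w ∈ W', X w ∈ W') → ¬ IsCompl W W' := by
    by_contra hcon
    push Not at hcon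
    obtain ⟨U', hU', hc⟩ := ss_transfer ρ hcon U hU
    exact hns U' hU' hc
  obtain ⟨W, hW, hW'⟩ := h1
  obtain ⟨N, hN0, hN1, hN2⟩ := lie_main (tanL ρ) W hW hW'
  exact ⟨N, hN0, hN1, fun n F F' h => layer ρ (dn n N) (hN2 n) F F' h⟩

end Pool.Agent.U282.ZL
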