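import Mathlib
import Pool.Agent.U282.ZL.Gen1
import Pool.Agent.U282.ZL.Grp4

/-! Semisimple layers, Chevalley's theorem on tensor powers of semisimple representations of an
abstract group, and the operator which kills semisimple layers. -/

set_option autoImplicit false

namespace Pool.Agent.U282.ZL

open Pool.Agent.U282.PW Module PiTensorProduct
open scoped TensorProduct

attribute [local instance 100] LieRing.ofAssociativeRing

/-- `F ≤ F'` are stable subspaces with semisimple quotient. -/
structure SSLayer {K M Γ : Type*} [Field K] [AddCommGroup M] [Module K M] [Group Γ]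
    (τ : Representation K Γ M) (F F' : Submodule K M) : Prop where
  le : F ≤ F'
  lo : ∀ g, ∀ v ∈ F, τ g v ∈ F
  up : ∀ g, ∀ v ∈ F', τ g v ∈ F'
  ss : ∀ U : Submodule K M, (∀ g, ∀ v ∈ U, τ g v ∈ U) → F ≤ U → U ≤ F' →
    ∃ U' : Submodule K M, (∀ g, ∀ v ∈ U', τ g v ∈ U') ∧ U ⊓ U' = F ∧ U ⊔ U' = F'

section abs

variable {K V Γ : Type*} [Field K] [AddCommGroup V] [Module K V] [Group Γ]
  {ρ : Representation K Γ V}
variable {M : Type*} [AddCommGroup M] [Module K M] {τ : Representation K Γ M}
  {st : Module.End K V → Module.End K M}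

theorem Good.pres [FiniteDimensional K M] (T : Module.End K M)
    (hN : ∀ (F W : Submodule K M), Cover (fun x : tanL ρ => st x) F W → ∀ w ∈ W, T w ∈ F)
    (F : Submodule K M) (hF : ∀ x : tanL ρ, ∀ v ∈ F, st x v ∈ F) :
    ∀ v ∈ F, T v ∈ F := by
  intro v hv
  by_cases hb : F = ⊥
  · subst hb
    rw [Submodule.mem_bot] at hv ⊢
    rw [hv, map_zero]
  · obtain ⟨F', _, hF'⟩ := exists_cover (fun x : tanL ρ => st x) ⊥ F
      (bot_lt_iff_ne_bot.2 hb) (by
        intro x v hv
        rw [Submodule.mem_bot] at hv ⊢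
        rw [hv, map_zero]) hF
    exact hF'.1.le (hN F' F hF' v hv)

theorem Good.layer [FiniteDimensional K M] (hG : Good ρ τ st)
    (hconj : ∀ a X v, τ a (st X v) = st (ρ a * X * ρ a⁻¹ : Module.End K V) (τ a v))
    (T : Module.End K M)
    (hN : ∀ (F W : Submodule K M), Cover (fun x : tanL ρ => st x) F W → ∀ w ∈ W, T w ∈ F)
    (F F' : Submodule K M) (h : SSLayer τ F F') : ∀ v ∈ F', T v ∈ F := by
  have hst : ∀ U : Submodule K M, (∀ g, ∀ v ∈ U, τ g v ∈ U) →
      ∀ x : tanL ρ, ∀ v ∈ U, st x v ∈ U :=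
    fun U hU x => hG.stable U hU x.1 x.2
  obtain ⟨U0, ⟨hU1, hU2, hU3, hU4⟩, hmax⟩ :=
    (wellFounded_gt (α := Submodule K M)).has_min
    {U | F ≤ U ∧ U ≤ F' ∧ (∀ g, ∀ v ∈ U, τ g v ∈ U) ∧ ∀ v ∈ U, T v ∈ F}
    ⟨F, le_rfl, h.le, h.lo, Good.pres T hN F (hst F h.lo)⟩
  by_cases hU0 : U0 = F'
  · rw [← hU0]; exact hU4
  exfalso
  obtain ⟨U', hU'1, hU'2, hU'3⟩ := h.ss U0 hU3 hU1 hU2
  have hFU' : F < U' := by
    refine lt_of_le_of_ne (hU'2 ▸ inf_le_right) ?_
    intro e
    rw [← e, sup_eq_left.2 hU1] at hU'3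
    exact hU0 hU'3
  obtain ⟨S, hS1, hS2⟩ := exists_cover' (fun g : Γ => τ g) F U' hFU' h.lo hU'1
  obtain ⟨Y, hY1, hY2⟩ := exists_cover' (fun x : tanL ρ => st x) F S hS2.1
    (hst F h.lo) (hst S hS2.2.2.1)
  have hYg : ∀ g : Γ, Cover (fun x : tanL ρ => st x) F (Y.comap (τ g⁻¹)) := by
    intro g
    have hcs : ∀ (a : Γ) (Z : Submodule K M),
        (∀ x : tanL ρ, ∀ v ∈ Z, st x v ∈ Z) →
        ∀ x : tanL ρ, ∀ v ∈ Z.comap (τ a), st x v ∈ Z.comap (τ a) := by
      intro a Z hZ x v hv
      rw [Submodule.mem_comap] at hv ⊢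
      rw [hconj]
      exact hZ ⟨_, tanL_conj ρ a x.1 x.2⟩ _ hv
    refine ⟨?_, hst F h.lo, hcs g⁻¹ Y hY2.2.2.1, ?_⟩
    · refine lt_of_le_of_ne ?_ ?_
      · intro v hv
        exact hY2.1.le (h.lo _ v hv)
      · intro e
        obtain ⟨y, hy, hyF⟩ := SetLike.exists_of_lt hY2.1
        apply hyF
        have h1 : τ g y ∈ Y.comap (τ g⁻¹) := by
          rw [Submodule.mem_comap, rep_inv]; exact hy
        rw [← e] at h1
        have h2 := h.lo g⁻¹ _ h1
        rwa [rep_inv] at h2
    · intro Z hZ hFZ hZY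
      rcases hY2.2.2.2 (Z.comap (τ g)) (hcs g Z hZ)
        (fun v hv => hFZ (h.lo g v hv)) (fun v hv => by
          have := hZY hv
          rwa [Submodule.mem_comap, rep_inv] at this) with e | e
      · left
        apply le_antisymm _ hFZ
        intro v hv
        have h1 : τ g⁻¹ v ∈ Z.comap (τ g) := by
          rw [Submodule.mem_comap, rep_inv']; exact hv
        rw [e] at h1
        have h2 := h.lo g _ h1
        rwa [rep_inv'] at h2
      · right
        apply le_antisymm hZY
        intro v hv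
        rw [Submodule.mem_comap, ← e, Submodule.mem_comap, rep_inv'] at hv
        exact hv
  let Z : Submodule K M := ⨆ g : Γ, Y.comap (τ g⁻¹)
  have hZst : ∀ a : Γ, ∀ v ∈ Z, τ a v ∈ Z := by
    intro a v hv
    have h1 : Z ≤ Z.comap (τ a) := by
      refine iSup_le fun g => ?_
      intro w hw
      rw [Submodule.mem_comap]
      refine (le_iSup (fun g : Γ => Y.comap (τ g⁻¹)) (a * g)) ?_
      rw [Submodule.mem_comap, mul_inv_rev, map_mul, Module.End.mul_apply, rep_inv]
      exact hw
    exact h1 hv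
  have hYZ : Y ≤ Z := by
    intro v hv
    refine (le_iSup (fun g : Γ => Y.comap (τ g⁻¹)) 1) ?_
    rw [Submodule.mem_comap, inv_one, map_one]
    exact hv
  have hZS : Z ≤ S := by
    refine iSup_le fun g => ?_
    intro v hv
    rw [Submodule.mem_comap] at hv
    have h1 := hS2.2.2.1 g _ (hY1 hv)
    rwa [rep_inv'] at h1
  have hZeq : Z = S := by
    rcases hS2.2.2.2 Z hZst (hY2.1.le.trans hYZ) hZS with e | e
    · exfalso
      rw [e] at hYZ
      exact hY2.1.not_ge hYZ
    · exact e
  have hTS : ∀ v ∈ S, T v ∈ F := by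
    have h1 : Z ≤ F.comap T := iSup_le fun g => fun v hv => hN _ _ (hYg g) v hv
    intro v hv
    exact h1 (hZeq ▸ hv)
  have hFS : S ≤ U0 := by
    have h1 : U0 ⊔ S = U0 := by
      by_contra hne
      refine hmax (U0 ⊔ S) ⟨hU1.trans le_sup_left, sup_le hU2 (hS1.trans ?_), ?_, ?_⟩
        (lt_of_le_of_ne le_sup_left (Ne.symm hne))
      · rw [← hU'3]; exact le_sup_right
      · intro g v hv
        obtain ⟨a, ha, b, hb, rfl⟩ := Submodule.mem_sup.1 hv
        rw [map_add]
        exact Submodule.add_mem_sup (hU3 g a ha) (hS2.2.2.1 g b hb)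
      · intro v hv
        obtain ⟨a, ha, b, hb, rfl⟩ := Submodule.mem_sup.1 hv
        rw [map_add]
        exact F.add_mem (hU4 a ha) (hTS b hb)
    rw [← h1]
    exact le_sup_right
  have hSF : S ≤ F := by
    rw [← hU'2]
    exact le_inf hFS hS1
  exact hS2.1.not_ge hSF

theorem SSRep.layer (h : SSRep τ) : SSLayer τ ⊥ ⊤ where
  le := bot_le
  lo := by
    intro g v hv
    rw [Submodule.mem_bot] at hv ⊢
    rw [hv, map_zero]
  up := fun _ _ _ => trivial
  ss := by
    intro U hU _ _
    obtain ⟨U', hU', hc⟩ := h U hU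
    exact ⟨U', hU', hc.inf_eq_bot, hc.sup_eq_top⟩

end abs

section examples

variable {K V Γ : Type*} [Field K] [AddCommGroup V] [Module K V] [Group Γ]
  (ρ : Representation K Γ V)

/-- The tensor power of a representation. -/
noncomputable def tpow (n : ℕ) : Representation K Γ (⨂[K] _ : Fin n, V) where
  toFun := fun g => PiTensorProduct.map (fun _ => ρ g)
  map_one' := by
    apply LinearMap.ext
    intro v
    exact tg_one ρ v
  map_mul' := by
    intro a b
    apply LinearMap.ext
    intro v
    exact tg_mul ρ a b v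

theorem good_tpow [FiniteDimensional K V] (n : ℕ) : Good ρ (tpow ρ n) (dn n) :=
  fun _ X hδ hX η t => tco_mem ρ hδ X hX η t

theorem good_self : Good ρ ρ id := fun _ _ _ hX η t => ⟨coA ρ η t, fun _ => rfl, hX η t⟩

end examples

universe u

/-- If the radical acts by commuting semisimple operators, the action is semisimple. -/
theorem ss_of_rad' {K L M : Type u} [Field K] [CharZero K] [IsAlgClosed K] [LieRing L]
    [LieAlgebra K L] [FiniteDimensional K L] [AddCommGroup M] [Module K M] [FiniteDimensional K M]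
    (φ : L →ₗ⁅K⁆ Module.End K M)
    (h1 : ∀ x ∈ LieAlgebra.radical K L, ∀ y : L, Commute (φ x) (φ y))
    (h2 : ∀ x ∈ LieAlgebra.radical K L, Module.End.IsSemisimple (φ x))
    (W : Submodule K M) (hW : ∀ x, ∀ w ∈ W, φ x w ∈ W) :
    ∃ W' : Submodule K M, (∀ x, ∀ w ∈ W', φ x w ∈ W') ∧ IsCompl W W' := by
  let _ : LieRingModule L M := LieRingModule.compLieHom M φ
  let _ : LieModule K L M := LieModule.compLieHom M φ
  have hlie : ∀ (x : L) (v : M), ⁅x, v⁆ = φ x v := fun x v => rfl
  have key : ∀ W : LieSubmodule K L M, ∃ W' : LieSubmodule K L M, IsCompl W W' := by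
    let f : LieAlgebra.radical K L → Module.End K M := fun r => φ r
    have htop :=
      Module.End.iSup_iInf_maxGenEigenspace_eq_top_of_iSup_maxGenEigenspace_eq_top_of_commute
      f (fun i j _ => h1 i i.2 j) (fun i => Module.End.iSup_maxGenEigenspace_eq_top _)
    let E : (LieAlgebra.radical K L → K) → LieSubmodule K L M := fun χ =>
      { carrier := {v | ∀ r, f r v = χ r • v}
        add_mem' := by
          intro v w hv hw r
          rw [map_add, hv r, hw r, smul_add]
        zero_mem' := by intro r; rw [map_zero, smul_zero]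
        smul_mem' := by
          intro a v hv r
          rw [map_smul, hv r, smul_comm]
        lie_mem := by
          intro x v hv r
          have h4 : f r (φ x v) = φ x (f r v) := LinearMap.congr_fun (h1 r r.2 x) v
          rw [hlie, h4, hv r, map_smul] }
    refine Cb.a19237_S (Set.range E) ?_ ?_
    · rw [eq_top_iff]
      have h3 : (⊤ : Submodule K M) ≤ (sSup (Set.range E)).toSubmodule := by
        rw [← htop]
        refine iSup_le fun χ => ?_
        intro v hv
        have h4 : v ∈ E χ := by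
          intro r
          rw [Submodule.mem_iInf] at hv
          have h5 := hv r
          rw [(h2 r r.2).isFinitelySemisimple.maxGenEigenspace_eq_eigenspace,
            Module.End.mem_eigenspace_iff] at h5
          exact h5
        exact (le_sSup (Set.mem_range_self χ) : E χ ≤ _) h4
      intro v _
      exact h3 trivial
    · rintro H ⟨χ, rfl⟩ W hW
      obtain ⟨W', hW'⟩ := Cb.a19237_B (split K) L (E χ) (by
        intro x hx
        refine ⟨χ ⟨x, hx⟩, fun v => ?_⟩
        apply Subtype.ext
        exact v.2 ⟨x, hx⟩) (W.comap (E χ).incl)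
      rw [isCompl_iff, disjoint_iff, codisjoint_iff] at hW'
      refine ⟨W'.map (E χ).incl, ?_, ?_, ?_⟩
      · intro v hv
        rw [LieSubmodule.mem_map] at hv
        obtain ⟨y, _, rfl⟩ := hv
        exact y.2
      · rw [eq_bot_iff]
        intro v hv
        rw [LieSubmodule.mem_inf, LieSubmodule.mem_map] at hv
        obtain ⟨hv1, y, hy, rfl⟩ := hv
        have h3 : y ∈ W.comap (E χ).incl ⊓ W' := by
          rw [LieSubmodule.mem_inf]
          exact ⟨hv1, hy⟩
        rw [hW'.1, LieSubmodule.mem_bot] at h3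
        rw [h3, map_zero]
        exact LieSubmodule.zero_mem _
      · apply le_antisymm
        · apply sup_le hW
          intro v hv
          rw [LieSubmodule.mem_map] at hv
          obtain ⟨y, _, rfl⟩ := hv
          exact y.2
        · intro v hv
          have h3 : (⟨v, hv⟩ : E χ) ∈ W.comap (E χ).incl ⊔ W' := by rw [hW'.2]; trivial
          rw [LieSubmodule.mem_sup] at h3
          obtain ⟨a, ha, b, hb, hab⟩ := h3
          rw [LieSubmodule.mem_sup]
          refine ⟨a, ha, b, ?_, congrArg Subtype.val hab⟩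
          rw [LieSubmodule.mem_map]
          exact ⟨b, hb, rfl⟩
  obtain ⟨W', hW'⟩ := key { W with lie_mem := fun {x m} hm => hW x m hm }
  refine ⟨W'.toSubmodule, fun x w hw => W'.lie_mem (x := x) hw, ?_⟩
  rw [isCompl_iff, disjoint_iff, codisjoint_iff] at hW' ⊢
  constructor
  · rw [eq_bot_iff]
    rintro v ⟨hv1, hv2⟩
    have h3 : v ∈ ({ W with lie_mem := fun {x m} hm => hW x m hm } :
        LieSubmodule K L M) ⊓ W' := by
      rw [LieSubmodule.mem_inf]
      exact ⟨hv1, hv2⟩
    rw [hW'.1, LieSubmodule.mem_bot] at h3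
    rw [Submodule.mem_bot]
    exact h3
  · rw [eq_top_iff]
    intro v _
    have h3 : v ∈ ({ W with lie_mem := fun {x m} hm => hW x m hm } :
        LieSubmodule K L M) ⊔ W' := by rw [hW'.2]; trivial
    rw [LieSubmodule.mem_sup] at h3
    rw [Submodule.mem_sup]
    exact h3

/-- Chevalley: the tensor powers of a semisimple representation of any group over an algebraically
closed field of characteristic zero are semisimple. -/
theorem chevalley {K V : Type u} {Γ : Type*} [Field K] [CharZero K] [IsAlgClosed K]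
    [AddCommGroup V] [Module K V] [FiniteDimensional K V] [Group Γ] (ρ : Representation K Γ V)
    (h : SSRep ρ) (n : ℕ) : SSRep (tpow ρ n) := by
  let L := tanL ρ
  have : FiniteDimensional K L := inferInstanceAs (FiniteDimensional K L.toSubmodule)
  have hlay : ∀ T : Module.End K V, (∀ (F W : Submodule K V),
      Cover (fun x : tanL ρ => (id (x : Module.End K V) : Module.End K V)) F W → ∀ w ∈ W, T w ∈ F) →
      T = 0 := by
    intro T hT
    apply LinearMap.ext
    intro v
    have h1 := (good_self ρ).layer (fun a X v => by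
      simp only [id, Module.End.mul_apply, rep_inv]) T hT ⊥ ⊤ h.layer v trivial
    exact (Submodule.mem_bot K).1 h1
  have hcomm : ∀ x ∈ LieAlgebra.radical K L, ∀ y : L,
      Commute (x : Module.End K V) (y : Module.End K V) := by
    intro x hx y
    have h1 := hlay ((x : Module.End K V) * (y : Module.End K V) -
      (y : Module.End K V) * (x : Module.End K V)) (by
        intro F W hc w hw
        exact comm_case L.incl F W hc x y hx w hw)
    exact sub_eq_zero.1 h1
  have hss : ∀ x ∈ LieAlgebra.radical K L, Module.End.IsSemisimple (x : Module.End K V) := by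
    intro x hx
    obtain ⟨N, hN1, S, hS1, hN2, hS2, hzN⟩ :=
      Module.End.exists_isNilpotent_isSemisimple (f := (x : Module.End K V))
    have hN0 : N = 0 := by
      apply hlay
      intro F W hc w hw
      obtain ⟨c, hc'⟩ := scal L.incl F W hc.1 hc.2.1 hc.2.2.1 hc.2.2.2 x hx
      exact nil_part _ _ hN1 hN2 F W hc.1.le (hc.2.1 x) c hc' w hw
    rw [hN0, zero_add] at hzN
    rw [hzN]
    exact hS2
  refine (good_tpow ρ n).transfer ?_
  intro W hW
  obtain ⟨W', hW', hc⟩ := ss_of_rad' (dnHom L n)
    (fun x hx y => dn_commute (hcomm x hx y)) (fun x hx => dn_ss n (hss x hx)) W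
    (fun x w hw => hW x.1 x.2 w hw)
  exact ⟨W', fun X hX w hw => hW' ⟨X, hX⟩ w hw, hc⟩

/-- If the representation is not semisimple there is a nilpotent operator, not zero, which maps
each semisimple layer of each tensor power to the layer below. -/
theorem exists_nil {K V : Type u} {Γ : Type*} [Field K] [CharZero K] [IsAlgClosed K]
    [AddCommGroup V] [Module K V] [FiniteDimensional K V] [Group Γ] (ρ : Representation K Γ V)
    (h : ¬ SSRep ρ) :
    ∃ N : Module.End K V, N ≠ 0 ∧ IsNilpotent N ∧
      ∀ (n : ℕ) (F F' : Submodule K (⨂[K] _ : Fin n, V)), SSLayer (tpow ρ n) F F' →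
        ∀ v ∈ F', dn n N v ∈ F := by
  have h1 : ∃ W : Submodule K V, (∀ X ∈ tanL ρ, ∀ w ∈ W, X w ∈ W) ∧
      ∀ W' : Submodule K V, (∀ X ∈ tanL ρ, ∀ w ∈ W', X w ∈ W') → ¬ IsCompl W W' := by
    by_contra hcon
    push Not at hcon
    exact h ((good_self ρ).transfer hcon)
  obtain ⟨W, hW, hW'⟩ := h1
  obtain ⟨N, hN0, hN1, hN2⟩ := lie_main (tanL ρ) W hW hW'
  exact ⟨N, hN0, hN1, fun n F F' h => (good_tpow ρ n).layer
    (fun a X v => tg_dn ρ a X v) (dn n N) (hN2 n) F F' h⟩

end Pool.Agent.U282.ZL
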