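import Mathlib
import Pool.Agent.U282.ZL.Gen2

/-! A stable subspace has a stable complement if its determinant line is not killed by some
semi-invariant alternating form. -/

set_option autoImplicit false

namespace Pool.Agent.U282.ZL

open Module PiTensorProduct
open scoped TensorProduct

variable {K V Γ : Type*} [Field K] [AddCommGroup V] [Module K V] [Group Γ]

/-- Alternating forms and the determinant on a subspace. -/
theorem alt_det {r : ℕ} (W : Submodule K V) (e : Basis (Fin r) K W) (A : V [⋀^Fin r]→ₗ[K] K)
    (G : W →ₗ[K] W) :
    A (fun i => ((G (e i) : W) : V)) = LinearMap.det G * A (fun i => (e i : V)) := by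
  let A' : W [⋀^Fin r]→ₗ[K] K := A.compLinearMap W.subtype
  have h1 := A'.eq_smul_basis_det e
  have h2 : A' (fun i => G (e i)) = A' e * e.det (fun i => G (e i)) := by
    conv_lhs => rw [h1]
    rfl
  have h3 : e.det (fun i => G (e i)) = LinearMap.det G := by
    have := e.det_comp G e
    rw [e.det_self, mul_one] at this
    exact this
  rw [h3, mul_comm] at h2
  exact h2

theorem alt_cons {s : ℕ} (A : V [⋀^Fin (s + 1)]→ₗ[K] K) (z : Fin (s + 1) → V) (k : Fin (s + 1))
    (q : Fin s → Fin (s + 1)) (hq : Function.Injective q) (hk : ∀ i, q i ≠ k) :
    ∃ ε : ℤˣ, A (Matrix.vecCons (z k) (fun i => z (q i))) = ε • A z := by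
  have hinj : Function.Injective (Fin.cons k q : Fin (s + 1) → Fin (s + 1)) := by
    rw [Fin.cons_injective_iff]
    refine ⟨?_, hq⟩
    rintro ⟨i, hi⟩
    exact hk i hi
  let π : Equiv.Perm (Fin (s + 1)) := Equiv.ofBijective _ (Finite.injective_iff_bijective.1 hinj)
  refine ⟨Equiv.Perm.sign π, ?_⟩
  rw [← A.map_perm z π]
  congr 1
  funext i
  refine Fin.cases ?_ (fun i => ?_) i
  · rfl
  · rfl

/-- The functional is semi-invariant and does not vanish on the determinant of `W`. -/
theorem exists_compl_of_alt (ρ : Representation K Γ V) {r : ℕ} (W : Submodule K V)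
    (hW : ∀ g, ∀ w ∈ W, ρ g w ∈ W) (e : Basis (Fin r) K W) (A : V [⋀^Fin r]→ₗ[K] K)
    (hA : ∀ g, ∃ d : K, ∀ v : Fin r → V, A (fun i => ρ g (v i)) = d * A v)
    (hne : A (fun i => (e i : V)) ≠ 0) :
    ∃ U : Submodule K V, (∀ g, ∀ u ∈ U, ρ g u ∈ U) ∧ IsCompl W U := by
  cases r with
  | zero =>
    have : W = ⊥ := by
      rw [eq_bot_iff]
      intro w hw
      have h1 := e.sum_repr ⟨w, hw⟩
      rw [Finset.univ_eq_empty, Finset.sum_empty] at h1
      rw [Submodule.mem_bot]
      exact (congrArg Subtype.val h1).symm
    refine ⟨⊤, fun _ _ _ => trivial, ?_⟩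
    rw [this]
    exact isCompl_bot_top
  | succ s =>
    let U : Submodule K V :=
      { carrier := {v | ∀ u : Fin s → V, (∀ i, u i ∈ W) → A (Matrix.vecCons v u) = 0}
        add_mem' := by
          intro a b ha hb u hu
          have := A.map_vecCons_add u a b
          rw [this, ha u hu, hb u hu, add_zero]
        zero_mem' := by
          intro u hu
          have := A.map_vecCons_smul u (0 : K) (0 : V)
          rw [zero_smul, zero_smul] at this
          exact this
        smul_mem' := by
          intro c a ha u hu
          have := A.map_vecCons_smul u c a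
          rw [this, ha u hu, smul_zero] }
    have hU : ∀ v, v ∈ U ↔ ∀ u : Fin s → V, (∀ i, u i ∈ W) → A (Matrix.vecCons v u) = 0 :=
      fun v => Iff.rfl
    have hexp : ∀ (v : V) (j : Fin (s + 1)), v ∈ W → ∀ hv : v ∈ W,
        A (Function.update (fun i => (e i : V)) j v) = e.repr ⟨v, hv⟩ j * A (fun i => (e i : V)) := by
      intro v j _ hv
      have h1 : v = ∑ i, e.repr ⟨v, hv⟩ i • (e i : V) := by
        have := congrArg Subtype.val (e.sum_repr ⟨v, hv⟩)
        rw [Submodule.coe_sum] at this
        exact this.symm
      conv_lhs => rw [h1]
      have h2 : A (Function.update (fun i => (e i : V)) j (∑ i, e.repr ⟨v, hv⟩ i • (e i : V))) =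
          ∑ i, A (Function.update (fun i => (e i : V)) j (e.repr ⟨v, hv⟩ i • (e i : V))) :=
        A.toMultilinearMap.map_update_sum Finset.univ j _ _
      rw [h2, Finset.sum_eq_single j]
      · have h3 : A (Function.update (fun i => (e i : V)) j (e.repr ⟨v, hv⟩ j • (e j : V))) =
            e.repr ⟨v, hv⟩ j • A (Function.update (fun i => (e i : V)) j (e j : V)) :=
          A.toMultilinearMap.map_update_smul _ j _ _
        rw [h3, Function.update_eq_self]
        rfl
      · intro i _ hij
        have h3 : A (Function.update (fun i => (e i : V)) j (e.repr ⟨v, hv⟩ i • (e i : V))) =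
            e.repr ⟨v, hv⟩ i • A (Function.update (fun i => (e i : V)) j (e i : V)) :=
          A.toMultilinearMap.map_update_smul _ j _ _
        rw [h3, A.map_eq_zero_of_eq _ (i := j) (j := i) _ (Ne.symm hij), smul_zero]
        rw [Function.update_self, Function.update_of_ne hij]
      · intro h; exact absurd (Finset.mem_univ _) h
    refine ⟨U, ?_, ?_⟩
    · intro g v hv
      rw [hU] at hv ⊢
      intro u hu
      obtain ⟨d, hd⟩ := hA g
      have h1 : Matrix.vecCons (ρ g v) u =
          fun i => ρ g ((Matrix.vecCons v (fun i => ρ g⁻¹ (u i)) : Fin (s + 1) → V) i) := by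
        funext i
        refine Fin.cases ?_ (fun i => ?_) i
        · rfl
        · exact (rep_inv' ρ g (u i)).symm
      rw [h1, hd, hv _ (fun i => hW _ _ (hu i)), mul_zero]
    · rw [isCompl_iff, disjoint_iff, codisjoint_iff]
      constructor
      · rw [eq_bot_iff]
        rintro v ⟨hvW, hvU⟩
        have hz : e.repr ⟨v, hvW⟩ = 0 := by
          ext j
          obtain ⟨ε, hε⟩ := alt_cons A (Function.update (fun i => (e i : V)) j v) j j.succAbove
            Fin.succAbove_right_injective (fun i => Fin.succAbove_ne j i)
          rw [Function.update_self] at hε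
          have h2 : A (Matrix.vecCons v (fun i => Function.update (fun i => (e i : V)) j v
              (j.succAbove i))) = 0 := by
            apply hvU
            intro i
            rw [Function.update_of_ne (Fin.succAbove_ne j i)]
            exact (e _).2
          rw [h2, hexp v j hvW hvW] at hε
          have h3 : e.repr ⟨v, hvW⟩ j * A (fun i => (e i : V)) = 0 := by
            rcases Int.units_eq_one_or ε with h | h
            · rw [h, one_smul] at hε; exact hε.symm
            · rw [h, Units.neg_smul, one_smul] at hε
              exact neg_eq_zero.1 hε.symm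
          exact (mul_eq_zero.1 h3).resolve_right hne
        rw [Submodule.mem_bot]
        have h1 := e.repr.injective (a₁ := ⟨v, hvW⟩) (a₂ := 0) (by rw [hz, map_zero])
        exact congrArg Subtype.val h1
      · rw [eq_top_iff]
        intro v _
        let a : Fin (s + 1) → K := fun j =>
          A (Function.update (fun i => (e i : V)) j v) / A (fun i => (e i : V))
        let w : W := ∑ j, a j • e j
        have hw : ∀ j, e.repr w j = a j := by
          intro j
          show e.repr (∑ j, a j • e j) j = a j
          rw [e.repr_sum_self]
        rw [Submodule.mem_sup]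
        refine ⟨(w : V), w.2, v - w, ?_, by abel⟩
        have hk : ∀ k, A (Function.update (fun i => (e i : V)) k (v - w)) = 0 := by
          intro k
          have h1 : A (Function.update (fun i => (e i : V)) k (v - w)) =
              A (Function.update (fun i => (e i : V)) k v) -
                A (Function.update (fun i => (e i : V)) k (w : V)) :=
            A.toMultilinearMap.map_update_sub _ k _ _
          rw [h1, hexp w k w.2 w.2, Subtype.coe_eta, hw, sub_eq_zero]
          exact (div_mul_cancel₀ _ hne).symm
        rw [hU]
        intro u hu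
        let A1 : V [⋀^Fin s]→ₗ[K] K := AlternatingMap.curryLeft A (v - w)
        have hA1 : A1.compLinearMap W.subtype = 0 := by
          refine Basis.ext_alternating e fun q hq => ?_
          obtain ⟨k, hkq⟩ : ∃ k, ∀ i, q i ≠ k := by
            by_contra hcon
            push Not at hcon
            have : Function.Surjective q := hcon
            have h1 := Fintype.card_le_of_surjective q this
            rw [Fintype.card_fin, Fintype.card_fin] at h1
            omega
          obtain ⟨ε, hε⟩ := alt_cons A (Function.update (fun i => (e i : V)) k (v - w)) k q hq hkq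
          rw [Function.update_self, hk k, smul_zero] at hε
          have h2 : (fun i => Function.update (fun i => (e i : V)) k (v - w) (q i)) =
              fun i => (e (q i) : V) := by
            funext i
            rw [Function.update_of_ne (hkq i)]
          rw [h2] at hε
          exact hε
        have h3 := congrArg (fun B : W [⋀^Fin s]→ₗ[K] K => B (fun i => ⟨u i, hu i⟩)) hA1
        exact h3

end Pool.Agent.U282.ZL
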