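import Mathlib
import Pool.Agent.U282.ZL.Ext

/-! Semisimplicity and the trace form on the commutants of the tensor powers. -/

set_option autoImplicit false

namespace Pool.Agent.U282.ZL

open Module PiTensorProduct
open scoped TensorProduct

/-- The trace form on the algebra of the endomorphisms which commute with the group is
nondegenerate. -/
def TraceNondeg {K M Γ : Type*} [Field K] [AddCommGroup M] [Module K M] [Group Γ]
    (τ : Representation K Γ M) : Prop :=
  ∀ f : Module.End K M, (∀ g, Commute f (τ g)) →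
    (∀ ψ : Module.End K M, (∀ g, Commute ψ (τ g)) → LinearMap.trace K M (f * ψ) = 0) → f = 0

/-- A semisimple representation has a nondegenerate trace form. -/
theorem SSRep.traceNondeg {K M Γ : Type*} [Field K] [CharZero K] [AddCommGroup M] [Module K M]
    [FiniteDimensional K M] [Group Γ] {τ : Representation K Γ M} (h : SSRep τ) :
    TraceNondeg τ := by
  intro f hf htr
  have hfg : ∀ g v, f (τ g v) = τ g (f v) := fun g v => LinearMap.congr_fun (hf g) v
  obtain ⟨C, hC, hkC⟩ := h (LinearMap.ker f) (by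
    intro g v hv
    rw [LinearMap.mem_ker] at hv ⊢
    rw [hfg, hv, map_zero])
  obtain ⟨D, hD, hRD⟩ := h (LinearMap.range f) (by
    rintro g _ ⟨v, rfl⟩
    exact ⟨_, hfg g v⟩)
  let fC : C →ₗ[K] LinearMap.range f := f.rangeRestrict ∘ₗ C.subtype
  have hfC : ∀ c : C, (fC c : M) = f c := fun c => rfl
  have hinj : Function.Injective fC := by
    rw [← LinearMap.ker_eq_bot, eq_bot_iff]
    intro c hc
    rw [LinearMap.mem_ker] at hc
    have h1 : f (c : M) = 0 := congrArg Subtype.val hc
    have h2 : (c : M) ∈ LinearMap.ker f ⊓ C := ⟨h1, c.2⟩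
    rw [hkC.inf_eq_bot, Submodule.mem_bot] at h2
    exact Subtype.ext h2
  have hsurj : Function.Surjective fC := by
    rintro ⟨_, ⟨v, rfl⟩⟩
    obtain ⟨k, hk, c, hc, rfl⟩ := Submodule.mem_sup.1
      (show v ∈ LinearMap.ker f ⊔ C by rw [hkC.sup_eq_top]; trivial)
    refine ⟨⟨c, hc⟩, Subtype.ext ?_⟩
    show f c = f (k + c)
    rw [map_add, LinearMap.mem_ker.1 hk, zero_add]
  let E : C ≃ₗ[K] LinearMap.range f := LinearEquiv.ofBijective fC ⟨hinj, hsurj⟩
  let p : M →ₗ[K] LinearMap.range f := Submodule.projectionOnto (LinearMap.range f) D hRD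
  let ψ : Module.End K M := C.subtype ∘ₗ E.symm.toLinearMap ∘ₗ p
  have hψC : ∀ v, ψ v ∈ C := fun v => (E.symm (p v)).2
  have hfψ : ∀ v, f (ψ v) = (p v : M) := by
    intro v
    have h1 : E (E.symm (p v)) = p v := E.apply_symm_apply _
    exact congrArg Subtype.val h1
  have hpg : ∀ g v, (p (τ g v) : M) = τ g (p v) := by
    intro g v
    obtain ⟨y, hy, d, hd, rfl⟩ := Submodule.mem_sup.1
      (show v ∈ LinearMap.range f ⊔ D by rw [hRD.sup_eq_top]; trivial)
    have h1 : τ g y ∈ LinearMap.range f := by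
      obtain ⟨u, rfl⟩ := hy
      exact ⟨_, hfg g u⟩
    have e1 : p (τ g d) = 0 := (Submodule.projectionOnto_apply_eq_zero_iff hRD).2 (hD g d hd)
    have e2 : p d = 0 := (Submodule.projectionOnto_apply_eq_zero_iff hRD).2 hd
    have e3 : p (τ g y) = ⟨τ g y, h1⟩ := Submodule.projectionOnto_apply_left hRD ⟨τ g y, h1⟩
    have e4 : p y = ⟨y, hy⟩ := Submodule.projectionOnto_apply_left hRD ⟨y, hy⟩
    rw [map_add, map_add, map_add, e1, e2, e3, e4, add_zero, add_zero]
  have hψg : ∀ g, Commute ψ (τ g) := by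
    intro g
    apply LinearMap.ext
    intro v
    show ψ (τ g v) = τ g (ψ v)
    have h1 : fC ⟨ψ (τ g v), hψC _⟩ = fC ⟨τ g (ψ v), hC g _ (hψC v)⟩ := by
      apply Subtype.ext
      rw [hfC, hfC]
      show f (ψ (τ g v)) = f (τ g (ψ v))
      rw [hfψ, hpg, hfg, hfψ]
    exact congrArg Subtype.val (hinj h1)
  have h1 := htr ψ hψg
  have hproj : LinearMap.IsProj (LinearMap.range f) (f * ψ : Module.End K M) := by
    refine ⟨fun v => ⟨ψ v, rfl⟩, fun v hv => ?_⟩
    show f (ψ v) = v
    rw [hfψ]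
    exact congrArg Subtype.val (Submodule.projectionOnto_apply_left hRD ⟨v, hv⟩)
  rw [hproj.trace, Nat.cast_eq_zero, Submodule.finrank_eq_zero, LinearMap.range_eq_bot] at h1
  exact h1

section main

variable {K V Γ : Type*} [Field K] [AddCommGroup V] [Module K V] [FiniteDimensional K V] [Group Γ]

/-- The antisymmetrized tensor. -/
noncomputable def anti {r : ℕ} (v : Fin r → V) : ⨂[K] _ : Fin r, V :=
  ∑ π : Equiv.Perm (Fin r), Equiv.Perm.sign π • tprod K (fun i => v (π i))

/-- The alternating form of a functional on the tensor power. -/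
noncomputable def altOf {r : ℕ} (μ : Dual K (⨂[K] _ : Fin r, V)) : V [⋀^Fin r]→ₗ[K] K :=
  MultilinearMap.alternatization (μ.compMultilinearMap (tprod K))

theorem altOf_apply {r : ℕ} (μ : Dual K (⨂[K] _ : Fin r, V)) (v : Fin r → V) :
    altOf μ v = μ (anti v) := by
  rw [altOf, MultilinearMap.alternatization_apply, anti, map_sum]
  refine Finset.sum_congr rfl fun π _ => ?_
  rw [Units.smul_def, Units.smul_def, map_zsmul]
  rfl

theorem tpow_anti {r : ℕ} (ρ : Representation K Γ V) (g : Γ) (v : Fin r → V) :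
    tpow ρ r g (anti v) = anti (fun i => ρ g (v i)) := by
  rw [anti, anti, map_sum]
  refine Finset.sum_congr rfl fun π _ => ?_
  rw [Units.smul_def, Units.smul_def, map_zsmul]
  congr 1
  exact PiTensorProduct.map_tprod _ _

theorem anti_det {r : ℕ} (W : Submodule K V) (e : Basis (Fin r) K W) (G : W →ₗ[K] W) :
    anti (fun i => ((G (e i) : W) : V)) = LinearMap.det G • anti (K := K) (fun i => (e i : V)) := by
  rw [← sub_eq_zero, ← Module.forall_dual_apply_eq_zero_iff K]
  intro μ
  rw [map_sub, map_smul, ← altOf_apply, ← altOf_apply, alt_det W e, smul_eq_mul, sub_self]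

/-- The functional `x ↦ ∑ sign π ∏ B (x_i, y_{π i})`. -/
noncomputable def dfun (B : V →ₗ[K] V →ₗ[K] K) {r : ℕ} (y : Fin r → V) :
    Dual K (⨂[K] _ : Fin r, V) :=
  ∑ π : Equiv.Perm (Fin r), Equiv.Perm.sign π •
    dualDistrib (tprod K (fun i => B.flip (y (π i))))

theorem dfun_tprod (B : V →ₗ[K] V →ₗ[K] K) {r : ℕ} (y x : Fin r → V) :
    dfun B y (tprod K x) = ∑ π : Equiv.Perm (Fin r), Equiv.Perm.sign π •
      ∏ i, B (x i) (y (π i)) := by
  rw [dfun, LinearMap.sum_apply]
  refine Finset.sum_congr rfl fun π _ => ?_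
  rw [LinearMap.smul_apply, dualDistrib_apply]
  rfl

theorem dfun_det (B : V →ₗ[K] V →ₗ[K] K) {r : ℕ} (W : Submodule K V) (e : Basis (Fin r) K W)
    (G : W →ₗ[K] W) (t : ⨂[K] _ : Fin r, V) :
    dfun B (fun i => ((G (e i) : W) : V)) t = LinearMap.det G * dfun B (fun i => (e i : V)) t := by
  have h : dfun B (fun i => ((G (e i) : W) : V)) =
      LinearMap.det G • dfun B (fun i => (e i : V)) := by
    apply PiTensorProduct.ext
    apply MultilinearMap.ext
    intro x
    rw [LinearMap.compMultilinearMap_apply, LinearMap.compMultilinearMap_apply,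
      LinearMap.smul_apply]
    -- the functional in the other variable
    have key : ∀ y : Fin r → V, dfun B y (tprod K x) =
        altOf (dualDistrib (tprod K (fun i => B (x i)))) y := by
      intro y
      rw [dfun_tprod, altOf_apply, anti, map_sum]
      refine Finset.sum_congr rfl fun π _ => ?_
      rw [Units.smul_def, Units.smul_def, map_zsmul, dualDistrib_apply]
    rw [key, key, alt_det W e, smul_eq_mul]
  rw [h]
  rfl

theorem dfun_act (ρ : Representation K Γ V) (B : V →ₗ[K] V →ₗ[K] K) (χ : Γ → K)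
    (hB : ∀ g x y, B (ρ g x) (ρ g y) = χ g * B x y) {r : ℕ} (y : Fin r → V) (g : Γ)
    (t : ⨂[K] _ : Fin r, V) :
    dfun B (fun i => ρ g (y i)) (tpow ρ r g t) = χ g ^ r * dfun B y t := by
  have h : dfun B (fun i => ρ g (y i)) ∘ₗ (tpow ρ r g) = χ g ^ r • dfun B y := by
    apply PiTensorProduct.ext
    apply MultilinearMap.ext
    intro x
    rw [LinearMap.compMultilinearMap_apply, LinearMap.compMultilinearMap_apply,
      LinearMap.smul_apply, LinearMap.comp_apply]
    have h1 : tpow ρ r g (tprod K x) = tprod K (fun i => ρ g (x i)) :=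
      PiTensorProduct.map_tprod _ _
    rw [h1, dfun_tprod, dfun_tprod, Finset.smul_sum]
    refine Finset.sum_congr rfl fun π _ => ?_
    simp only [hB, Finset.prod_mul_distrib, Finset.prod_const, Finset.card_univ, Fintype.card_fin]
    rw [smul_comm, smul_eq_mul]
  exact LinearMap.congr_fun h t

theorem sum_perm_one {r : ℕ} (c : Fin r → Fin r → K) (hc : ∀ i j, c i j = if i = j then 1 else 0) :
    ∑ π : Equiv.Perm (Fin r), Equiv.Perm.sign π • ∏ i, c i (π i) = 1 := by
  rw [Finset.sum_eq_single 1]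
  · simp [hc]
  · intro π _ hπ
    have : ∃ i, π i ≠ i := by
      by_contra hcon
      push Not at hcon
      exact hπ (Equiv.ext hcon)
    obtain ⟨i, hi⟩ := this
    rw [Finset.prod_eq_zero (Finset.mem_univ i), smul_zero]
    rw [hc, if_neg (Ne.symm hi)]
  · intro h; exact absurd (Finset.mem_univ _) h

theorem exists_dual_family {r : ℕ} (W : Submodule K V) (e : Basis (Fin r) K W) :
    ∃ φ : Fin r → Dual K V, ∀ i j, φ i (e j : V) = if i = j then 1 else 0 := by
  obtain ⟨p, hp⟩ := W.exists_isCompl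
  refine ⟨fun i => e.coord i ∘ₗ Submodule.projectionOnto W p hp, fun i j => ?_⟩
  rw [LinearMap.comp_apply, Submodule.projectionOnto_apply_left, Basis.coord_apply,
    Basis.repr_self, Finsupp.single_apply]
  by_cases h : i = j
  · rw [if_pos h, if_pos h.symm]
  · rw [if_neg h, if_neg (Ne.symm h)]

theorem anti_ne {r : ℕ} (W : Submodule K V) (e : Basis (Fin r) K W) :
    anti (K := K) (fun i => (e i : V)) ≠ 0 := by
  obtain ⟨φ, hφ⟩ := exists_dual_family W e
  intro h0
  have h1 : dualDistrib (tprod K φ) (anti (K := K) (fun i => (e i : V))) = 1 := by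
    rw [anti, map_sum]
    have h2 := sum_perm_one (fun i j => φ i (e j : V)) hφ
    rw [← h2]
    refine Finset.sum_congr rfl fun π _ => ?_
    rw [Units.smul_def, Units.smul_def, map_zsmul, dualDistrib_apply]
  rw [h0, map_zero] at h1
  exact zero_ne_one h1

theorem dfun_ne_zero (B : V →ₗ[K] V →ₗ[K] K) (hB : Function.Surjective B) {r : ℕ}
    (W : Submodule K V) (e : Basis (Fin r) K W) :
    ∃ x : Fin r → V, dfun B (fun i => (e i : V)) (tprod K x) = 1 := by
  obtain ⟨φ, hφ⟩ := exists_dual_family W e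
  choose x hx using fun i => hB (φ i)
  refine ⟨x, ?_⟩
  rw [dfun_tprod]
  exact sum_perm_one (fun i j => B (x i) (e j : V)) (fun i j => by rw [hx]; exact hφ i j)

/-- The main step: a nondegenerate trace form gives a stable complement. -/
theorem compl_of_trace (ρ : Representation K Γ V) (B : V →ₗ[K] V →ₗ[K] K)
    (hBs : Function.Surjective B) (χ : Γ → K)
    (hB : ∀ g x y, B (ρ g x) (ρ g y) = χ g * B x y) (m : ℕ) (hm : 0 < m) (W : Submodule K V)
    (hW : ∀ g, ∀ w ∈ W, ρ g w ∈ W) (r : ℕ) (hr : finrank K W = r)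
    (hdet : ∀ g, LinearMap.det ((ρ g).restrict (hW g)) ^ (2 * m) = χ g ^ (m * r))
    (hT : TraceNondeg (tpow (tpow ρ r) m)) :
    ∃ U : Submodule K V, (∀ g, ∀ u ∈ U, ρ g u ∈ U) ∧ IsCompl W U := by
  let e : Basis (Fin r) K W := finBasisOfFinrankEq K W hr
  let d : Γ → K := fun g => LinearMap.det ((ρ g).restrict (hW g))
  have hd0 : ∀ g, d g ≠ 0 := by
    intro g h0
    have h1 : (ρ g).restrict (hW g) ∘ₗ (ρ g⁻¹).restrict (hW g⁻¹) = LinearMap.id := by
      apply LinearMap.ext
      intro w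
      apply Subtype.ext
      exact rep_inv' ρ g (w : V)
    have h2 := congrArg LinearMap.det h1
    rw [LinearMap.det_comp, LinearMap.det_id] at h2
    have h3 : LinearMap.det ((ρ g).restrict (hW g)) = 0 := h0
    rw [h3, zero_mul] at h2
    exact zero_ne_one h2
  let ω : ⨂[K] _ : Fin r, V := anti (fun i => (e i : V))
  let lam : Dual K (⨂[K] _ : Fin r, V) := dfun B (fun i => (e i : V))
  have hω : ∀ g, tpow ρ r g ω = d g • ω := by
    intro g
    show tpow ρ r g (anti (fun i => (e i : V))) = _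
    rw [tpow_anti]
    exact anti_det W e ((ρ g).restrict (hW g))
  have hlam : ∀ g t, d g * lam (tpow ρ r g t) = χ g ^ r * lam t := by
    intro g t
    have h1 := dfun_det B W e ((ρ g).restrict (hW g)) (tpow ρ r g t)
    have h2 := dfun_act ρ B χ hB (fun i => (e i : V)) g t
    rw [← h2]
    exact h1.symm
  let c : Γ → K := fun g => (d g)⁻¹ * χ g ^ r
  have hlam' : ∀ g t, lam (tpow ρ r g t) = c g * lam t := by
    intro g t
    show lam (tpow ρ r g t) = (d g)⁻¹ * χ g ^ r * lam t
    rw [mul_assoc, ← hlam, ← mul_assoc, inv_mul_cancel₀ (hd0 g), one_mul]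
  have hω0 : ω ≠ 0 := anti_ne W e
  obtain ⟨x0, hx0⟩ := dfun_ne_zero B hBs W e
  let Ω : ⨂[K] _ : Fin m, (⨂[K] _ : Fin r, V) := tprod K (fun _ => ω)
  let Lam : Dual K (⨂[K] _ : Fin m, (⨂[K] _ : Fin r, V)) :=
    dualDistrib (tprod K (fun _ => lam))
  have hLz : ∀ z : Fin m → ⨂[K] _ : Fin r, V, Lam (tprod K z) = ∏ j, lam (z j) :=
    fun z => dualDistrib_apply _ _
  have hT1 : ∀ (g : Γ) (z : Fin m → ⨂[K] _ : Fin r, V),
      tpow (tpow ρ r) m g (tprod K z) = tprod K (fun j => tpow ρ r g (z j)) :=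
    fun g z => PiTensorProduct.map_tprod _ _
  have hΩ : ∀ g, tpow (tpow ρ r) m g Ω = d g ^ m • Ω := by
    intro g
    show tpow (tpow ρ r) m g (tprod K (fun _ => ω)) = _
    rw [hT1]
    simp only [hω]
    rw [MultilinearMap.map_smul_univ, Finset.prod_const, Finset.card_univ, Fintype.card_fin]
  have hLam : ∀ g t, Lam (tpow (tpow ρ r) m g t) = c g ^ m * Lam t := by
    intro g t
    have h : Lam ∘ₗ tpow (tpow ρ r) m g = c g ^ m • Lam := by
      apply PiTensorProduct.ext
      apply MultilinearMap.ext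
      intro z
      rw [LinearMap.compMultilinearMap_apply, LinearMap.compMultilinearMap_apply,
        LinearMap.smul_apply, LinearMap.comp_apply, hT1]
      rw [hLz, hLz]
      simp only [hlam', Finset.prod_mul_distrib, Finset.prod_const, Finset.card_univ,
        Fintype.card_fin, smul_eq_mul]
    exact LinearMap.congr_fun h t
  have hcd : ∀ g, c g ^ m = d g ^ m := by
    intro g
    show ((d g)⁻¹ * χ g ^ r) ^ m = d g ^ m
    rw [mul_pow, ← pow_mul, mul_comm r m, ← hdet g, two_mul, pow_add, inv_pow, ← mul_assoc,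
      inv_mul_cancel₀ (pow_ne_zero _ (hd0 g)), one_mul]
  let f : Module.End K (⨂[K] _ : Fin m, (⨂[K] _ : Fin r, V)) := Lam.smulRight Ω
  have hf : ∀ t, f t = Lam t • Ω := fun t => rfl
  have hfc : ∀ g, Commute f (tpow (tpow ρ r) m g) := by
    intro g
    apply LinearMap.ext
    intro t
    show f (tpow (tpow ρ r) m g t) = tpow (tpow ρ r) m g (f t)
    rw [hf, hf, hLam, map_smul, hΩ, smul_smul, hcd, mul_comm]
  have hf0 : f ≠ 0 := by
    intro h0
    have h1 : f (tprod K (fun _ => tprod K x0)) = 0 := by rw [h0]; rfl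
    rw [hf] at h1
    have h2 : Lam (tprod K (fun _ => tprod K x0)) = 1 := by
      rw [hLz]
      exact Finset.prod_eq_one fun _ _ => hx0
    rw [h2, one_smul] at h1
    obtain ⟨μ, hμ⟩ : ∃ μ : Dual K (⨂[K] _ : Fin r, V), μ ω ≠ 0 := by
      by_contra hcon
      push Not at hcon
      exact hω0 ((Module.forall_dual_apply_eq_zero_iff K ω).1 hcon)
    have h3 : dualDistrib (tprod K (fun _ : Fin m => μ)) Ω = ∏ _i : Fin m, μ ω :=
      dualDistrib_apply _ _
    rw [h1, map_zero, Finset.prod_const] at h3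
    exact pow_ne_zero _ hμ h3.symm
  obtain ⟨ψ, hψ, htr⟩ : ∃ ψ : Module.End K (⨂[K] _ : Fin m, (⨂[K] _ : Fin r, V)),
      (∀ g, Commute ψ (tpow (tpow ρ r) m g)) ∧ LinearMap.trace K _ (f * ψ) ≠ 0 := by
    by_contra hcon
    push Not at hcon
    exact hf0 (hT f hfc hcon)
  have hψg : ∀ g t, ψ (tpow (tpow ρ r) m g t) = tpow (tpow ρ r) m g (ψ t) :=
    fun g t => LinearMap.congr_fun (hψ g) t
  have htr' : Lam (ψ Ω) ≠ 0 := by
    have h1 : (f * ψ : Module.End K _) = (Lam ∘ₗ ψ).smulRight Ω := by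
      apply LinearMap.ext
      intro t
      rfl
    rw [h1, LinearMap.trace_smulRight] at htr
    exact htr
  -- the functional on the first factor
  let i0 : Fin m := ⟨0, hm⟩
  let J : (⨂[K] _ : Fin r, V) →ₗ[K] (⨂[K] _ : Fin m, (⨂[K] _ : Fin r, V)) :=
    MultilinearMap.toLinearMap (PiTensorProduct.tprod K) (fun _ : Fin m => ω) i0
  have hJ : ∀ x, J x = tprod K (Function.update (fun _ => ω) i0 x) := fun x => rfl
  have hJg : ∀ g, ∃ a : K, a ≠ 0 ∧ ∀ x, tpow (tpow ρ r) m g (J x) = a • J (tpow ρ r g x) := by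
    intro g
    refine ⟨∏ j : Fin m, (if j = i0 then 1 else d g), ?_, ?_⟩
    · rw [Finset.prod_ne_zero_iff]
      intro j _
      split_ifs
      · exact one_ne_zero
      · exact hd0 g
    · intro x
      rw [hJ, hT1, hJ, ← MultilinearMap.map_smul_univ]
      congr 1
      funext j
      by_cases hj : j = i0
      · subst hj
        rw [Function.update_self, Function.update_self, if_pos rfl, one_smul]
      · rw [Function.update_of_ne hj, Function.update_of_ne hj, if_neg hj, hω]
  let mu : Dual K (⨂[K] _ : Fin r, V) := Lam ∘ₗ ψ ∘ₗ J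
  have hmu : ∀ g, ∃ a : K, ∀ x, mu (tpow ρ r g x) = a * mu x := by
    intro g
    obtain ⟨a, ha0, ha⟩ := hJg g
    refine ⟨a⁻¹ * c g ^ m, fun x => ?_⟩
    have h1 : J (tpow ρ r g x) = a⁻¹ • tpow (tpow ρ r) m g (J x) := by
      rw [ha, smul_smul, inv_mul_cancel₀ ha0, one_smul]
    show Lam (ψ (J (tpow ρ r g x))) = a⁻¹ * c g ^ m * Lam (ψ (J x))
    rw [h1, map_smul, map_smul, hψg, hLam, smul_eq_mul, mul_assoc]
  refine exists_compl_of_alt ρ W hW e (altOf mu) ?_ ?_
  · intro g
    obtain ⟨a, ha⟩ := hmu g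
    refine ⟨a, fun v => ?_⟩
    rw [altOf_apply, altOf_apply, ← tpow_anti ρ g v, ha]
  · rw [altOf_apply]
    show Lam (ψ (J ω)) ≠ 0
    rw [hJ, Function.update_eq_self]
    exact htr'

end main

end Pool.Agent.U282.ZL
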