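import Mathlib
import Pool.Agent.U282.ZL.Mo

/-! Transport of the nondegeneracy of the trace form. -/

set_option autoImplicit false

namespace Pool.Agent.U282.ZL

open Module PiTensorProduct
open scoped TensorProduct

section transport

variable {K Γ : Type*} [Field K] [Group Γ] {M H : Type*} [AddCommGroup M] [Module K M]
  [AddCommGroup H] [Module K H] {τ : Representation K Γ M} {σ : Representation K Γ H}

/-- The two representations are isomorphic. -/
def IsoRep (τ : Representation K Γ M) (σ : Representation K Γ H) : Prop :=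
  ∃ e : M ≃ₗ[K] H, ∀ g v, e (τ g v) = σ g (e v)

theorem IsoRep.traceNondeg (h : IsoRep τ σ) (hT : TraceNondeg σ) : TraceNondeg τ := by
  obtain ⟨e, he⟩ := h
  have he' : ∀ g v, e.symm (σ g v) = τ g (e.symm v) := by
    intro g v
    rw [LinearEquiv.symm_apply_eq, he, LinearEquiv.apply_symm_apply]
  intro f hf htr
  have hfg : ∀ g v, f (τ g v) = τ g (f v) := fun g v => LinearMap.congr_fun (hf g) v
  have h0 : e.conj f = 0 := by
    apply hT
    · intro g
      apply LinearMap.ext
      intro v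
      show e (f (e.symm (σ g v))) = σ g (e (f (e.symm v)))
      rw [he', hfg, he]
    · intro ψ hψ
      have hψg : ∀ g v, ψ (σ g v) = σ g (ψ v) := fun g v => LinearMap.congr_fun (hψ g) v
      have h1 : (e.conj f) * ψ = e.conj (f * e.symm.conj ψ) := by
        apply LinearMap.ext
        intro v
        show e (f (e.symm (ψ v))) = e (f (e.symm (ψ (e.symm.symm (e.symm v)))))
        rw [LinearEquiv.symm_symm, LinearEquiv.apply_symm_apply]
      rw [h1, LinearMap.trace_conj']
      apply htr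
      intro g
      apply LinearMap.ext
      intro v
      show e.symm (ψ (e.symm.symm (τ g v))) = τ g (e.symm (ψ (e.symm.symm v)))
      rw [LinearEquiv.symm_symm, he, hψg, he']
  apply LinearMap.ext
  intro v
  have h2 := LinearMap.congr_fun h0 (e v)
  have h3 : e (f (e.symm (e v))) = 0 := h2
  rw [LinearEquiv.symm_apply_apply] at h3
  exact (LinearEquiv.map_eq_zero_iff e).1 h3

/-- Every functional on the endomorphisms is given by a trace. -/
theorem exists_trace_rep [FiniteDimensional K M] (L : Module.End K M →ₗ[K] K) :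
    ∃ ψ : Module.End K M, ∀ φ, LinearMap.trace K M (φ * ψ) = L φ := by
  let T : Module.End K M →ₗ[K] Dual K (Module.End K M) :=
    (LinearMap.mul K (Module.End K M)).flip.compr₂ (LinearMap.trace K M)
  have hT : ∀ ψ φ, T ψ φ = LinearMap.trace K M (φ * ψ) := fun ψ φ => rfl
  have hinj : Function.Injective T := by
    rw [← LinearMap.ker_eq_bot, eq_bot_iff]
    intro ψ hψ
    rw [LinearMap.mem_ker] at hψ
    rw [Submodule.mem_bot]
    apply LinearMap.ext
    intro a
    rw [LinearMap.zero_apply, ← Module.forall_dual_apply_eq_zero_iff K]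
    intro ξ
    have h1 : T ψ (LinearMap.smulRight ξ a) = 0 := by rw [hψ]; rfl
    rw [hT] at h1
    have h2 : (LinearMap.smulRight ξ a * ψ : Module.End K M) = (ξ ∘ₗ ψ).smulRight a := by
      apply LinearMap.ext
      intro t
      rfl
    rw [h2, LinearMap.trace_smulRight] at h1
    exact h1
  have hsurj : Function.Surjective T :=
    (LinearMap.injective_iff_surjective_of_finrank_eq_finrank
      (Subspace.dual_finrank_eq).symm).1 hinj
  obtain ⟨ψ, hψ⟩ := hsurj L
  exact ⟨ψ, fun φ => by rw [← hT, hψ]⟩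

theorem rep_mul_inv (τ : Representation K Γ M) (g : Γ) : τ g * τ g⁻¹ = 1 := by
  rw [← map_mul, mul_inv_cancel, map_one]

theorem rep_inv_mul (τ : Representation K Γ M) (g : Γ) : τ g⁻¹ * τ g = 1 := by
  rw [← map_mul, inv_mul_cancel, map_one]

/-- The trace form of a factor. -/
theorem traceNondeg_of_tprod [FiniteDimensional K M] [FiniteDimensional K H] [Nontrivial H]
    (h : TraceNondeg (τ.tprod σ)) : TraceNondeg τ := by
  intro f hf htr
  have hfg : ∀ g v, f (τ g v) = τ g (f v) := fun g v => LinearMap.congr_fun (hf g) v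
  have hrT : ∀ (φ : Module.End K M), (LinearMap.rTensor H φ : Module.End K (M ⊗[K] H)) =
      TensorProduct.map φ LinearMap.id := fun φ => rfl
  have h1 : (LinearMap.rTensor H f : Module.End K (M ⊗[K] H)) = 0 := by
    apply h
    · intro g
      apply TensorProduct.ext'
      intro x y
      show f (τ g x) ⊗ₜ[K] σ g y = τ g (f x) ⊗ₜ[K] σ g y
      rw [hfg]
    · intro ψ hψ
      let L : Module.End K M →ₗ[K] K :=
        (LinearMap.trace K (M ⊗[K] H)) ∘ₗ (LinearMap.mulRight K ψ) ∘ₗ
          (LinearMap.rTensorHom H : Module.End K M →ₗ[K] Module.End K (M ⊗[K] H))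
      have hL : ∀ φ, L φ = LinearMap.trace K _ ((LinearMap.rTensor H φ :
        Module.End K (M ⊗[K] H)) * ψ) := fun φ => rfl
      obtain ⟨ψ', hψ'⟩ := exists_trace_rep L
      rw [← hL, ← hψ']
      apply htr
      intro g
      have key : τ g * ψ' * τ g⁻¹ = ψ' := by
        rw [← sub_eq_zero]
        obtain ⟨θ, hθ⟩ : ∃ θ, θ = τ g * ψ' * τ g⁻¹ - ψ' := ⟨_, rfl⟩
        rw [← hθ]
        apply LinearMap.ext
        intro a
        rw [LinearMap.zero_apply, ← Module.forall_dual_apply_eq_zero_iff K]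
        intro ξ
        have h2 : (LinearMap.smulRight ξ a * θ : Module.End K M) = (ξ ∘ₗ θ).smulRight a := by
          apply LinearMap.ext
          intro t
          rfl
        have h3 : LinearMap.trace K M (LinearMap.smulRight ξ a * θ) = ξ (θ a) := by
          rw [h2, LinearMap.trace_smulRight]; rfl
        rw [← h3, hθ, mul_sub, map_sub, hψ', sub_eq_zero]
        obtain ⟨φ, hφ⟩ : ∃ φ : Module.End K M, φ = LinearMap.smulRight ξ a := ⟨_, rfl⟩
        rw [← hφ, ← mul_assoc, ← mul_assoc, LinearMap.trace_mul_comm, ← mul_assoc, ← mul_assoc,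
          hψ', hL, hL]
        have h4 : (LinearMap.rTensor H (τ g⁻¹ * φ * τ g) : Module.End K (M ⊗[K] H)) =
            (τ.tprod σ) g⁻¹ * LinearMap.rTensor H φ * (τ.tprod σ) g := by
          apply TensorProduct.ext'
          intro x y
          show τ g⁻¹ (φ (τ g x)) ⊗ₜ[K] y = τ g⁻¹ (φ (τ g x)) ⊗ₜ[K] σ g⁻¹ (σ g y)
          have h5 : σ g⁻¹ (σ g y) = y := LinearMap.congr_fun (rep_inv_mul σ g) y
          rw [h5]
        rw [h4, mul_assoc, mul_assoc, LinearMap.trace_mul_comm, mul_assoc, mul_assoc,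
          (hψ g⁻¹).eq, ← mul_assoc ((τ.tprod σ) g), rep_mul_inv, one_mul]
      show ψ' * τ g = τ g * ψ'
      calc ψ' * τ g = (τ g * ψ' * τ g⁻¹) * τ g := by rw [key]
        _ = τ g * ψ' := by rw [mul_assoc, rep_inv_mul, mul_one]
  obtain ⟨w, hw⟩ := exists_ne (0 : H)
  obtain ⟨ξ, hξ⟩ : ∃ ξ : Dual K H, ξ w ≠ 0 := by
    by_contra hcon
    push Not at hcon
    exact hw ((Module.forall_dual_apply_eq_zero_iff K w).1 hcon)
  apply LinearMap.ext
  intro v
  have h2 : f v ⊗ₜ[K] w = 0 := LinearMap.congr_fun h1 (v ⊗ₜ[K] w)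
  have h3 := congrArg ((TensorProduct.rid K M).toLinearMap ∘ₗ LinearMap.lTensor M ξ) h2
  rw [map_zero] at h3
  have h4 : ξ w • f v = 0 := by
    rw [← h3]
    show _ = TensorProduct.rid K M (f v ⊗ₜ[K] ξ w)
    rw [TensorProduct.rid_tmul]
  exact (smul_eq_zero.1 h4).resolve_left hξ

end transport

section powers

variable {K V Γ : Type*} [Field K] [AddCommGroup V] [Module K V] [Group Γ]

/-- The product of tensor powers. -/
noncomputable def mulE (n m : ℕ) :
    (⨂[K] _ : Fin n, V) ⊗[K] (⨂[K] _ : Fin m, V) ≃ₗ[K] ⨂[K] _ : Fin (n + m), V :=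
  TensorPower.mulEquiv

theorem mulE_tprod (n m : ℕ) (a : Fin n → V) (b : Fin m → V) :
    mulE (K := K) n m (tprod K a ⊗ₜ[K] tprod K b) = tprod K (Fin.append a b) :=
  TensorPower.tprod_mul_tprod K a b

theorem ext2 {P : Type*} [AddCommGroup P] [Module K P] {n m : ℕ}
    {f g : (⨂[K] _ : Fin n, V) ⊗[K] (⨂[K] _ : Fin m, V) →ₗ[K] P}
    (h : ∀ a b, f (tprod K a ⊗ₜ[K] tprod K b) = g (tprod K a ⊗ₜ[K] tprod K b)) : f = g := by
  apply TensorProduct.ext
  apply PiTensorProduct.ext
  apply MultilinearMap.ext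
  intro a
  apply PiTensorProduct.ext
  apply MultilinearMap.ext
  intro b
  exact h a b

theorem append_comp {X Y : Type*} (φ : X → Y) {n m : ℕ} (a : Fin n → X) (b : Fin m → X) :
    (fun i => φ (Fin.append a b i)) = Fin.append (fun i => φ (a i)) (fun i => φ (b i)) := by
  funext i
  refine Fin.addCases (fun i => ?_) (fun i => ?_) i
  · rw [Fin.append_left, Fin.append_left]
  · rw [Fin.append_right, Fin.append_right]

theorem mulE_act (ρ : Representation K Γ V) (n m : ℕ) (g : Γ)
    (z : (⨂[K] _ : Fin n, V) ⊗[K] (⨂[K] _ : Fin m, V)) :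
    mulE n m (((tpow ρ n).tprod (tpow ρ m)) g z) = tpow ρ (n + m) g (mulE n m z) := by
  have h : (mulE (K := K) n m).toLinearMap ∘ₗ ((tpow ρ n).tprod (tpow ρ m)) g =
      tpow ρ (n + m) g ∘ₗ (mulE (K := K) n m).toLinearMap := by
    apply ext2
    intro a b
    show mulE n m (tpow ρ n g (tprod K a) ⊗ₜ[K] tpow ρ m g (tprod K b)) =
      tpow ρ (n + m) g (mulE n m (tprod K a ⊗ₜ[K] tprod K b))
    have h1 : ∀ (k : ℕ) (c : Fin k → V), tpow ρ k g (tprod K c) = tprod K (fun i => ρ g (c i)) :=
      fun k c => PiTensorProduct.map_tprod _ _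
    rw [h1, h1, mulE_tprod, mulE_tprod, h1, append_comp]
  exact LinearMap.congr_fun h z

theorem iso_mul (ρ : Representation K Γ V) (n m : ℕ) :
    IsoRep ((tpow ρ n).tprod (tpow ρ m)) (tpow ρ (n + m)) :=
  ⟨mulE n m, mulE_act ρ n m⟩

instance instNontrivialPow [Nontrivial V] [FiniteDimensional K V] (n : ℕ) :
    Nontrivial (⨂[K] _ : Fin n, V) := by
  obtain ⟨v, hv⟩ := exists_ne (0 : V)
  obtain ⟨ξ, hξ⟩ : ∃ ξ : Dual K V, ξ v ≠ 0 := by
    by_contra hcon
    push Not at hcon
    exact hv ((Module.forall_dual_apply_eq_zero_iff K v).1 hcon)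
  refine ⟨⟨tprod K (fun _ => v), 0, fun h => ?_⟩⟩
  have h3 : dualDistrib (tprod K (fun _ : Fin n => ξ)) (tprod K (fun _ : Fin n => v)) =
      ∏ _i : Fin n, ξ v := dualDistrib_apply _ _
  rw [h, map_zero, Finset.prod_const] at h3
  exact pow_ne_zero _ hξ h3.symm

theorem traceNondeg_mono [FiniteDimensional K V] [Nontrivial V] (ρ : Representation K Γ V)
    {n n' : ℕ} (hn : n ≤ n') (h : TraceNondeg (tpow ρ n')) : TraceNondeg (tpow ρ n) := by
  obtain ⟨m, rfl⟩ := Nat.exists_eq_add_of_le hn
  exact traceNondeg_of_tprod ((iso_mul ρ n m).traceNondeg h)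

theorem IsoRep.trans {M1 M2 M3 : Type*} [AddCommGroup M1] [Module K M1] [AddCommGroup M2]
    [Module K M2] [AddCommGroup M3] [Module K M3] {τ : Representation K Γ M1}
    {σ : Representation K Γ M2} {υ : Representation K Γ M3} (h1 : IsoRep τ σ)
    (h2 : IsoRep σ υ) : IsoRep τ υ := by
  obtain ⟨e, he⟩ := h1
  obtain ⟨e', he'⟩ := h2
  refine ⟨e.trans e', fun g v => ?_⟩
  show e' (e (τ g v)) = υ g (e' (e v))
  rw [he, he']

theorem IsoRep.symm {M1 M2 : Type*} [AddCommGroup M1] [Module K M1] [AddCommGroup M2]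
    [Module K M2] {τ : Representation K Γ M1}
    {σ : Representation K Γ M2} (h1 : IsoRep τ σ) : IsoRep σ τ := by
  obtain ⟨e, he⟩ := h1
  refine ⟨e.symm, fun g v => ?_⟩
  rw [LinearEquiv.symm_apply_eq, he, LinearEquiv.apply_symm_apply]

theorem IsoRep.tprod {M1 M2 M3 M4 : Type*} [AddCommGroup M1] [Module K M1] [AddCommGroup M2]
    [Module K M2] [AddCommGroup M3] [Module K M3] [AddCommGroup M4] [Module K M4]
    {τ : Representation K Γ M1}
    {σ : Representation K Γ M2} {τ' : Representation K Γ M3} {σ' : Representation K Γ M4}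
    (h1 : IsoRep τ σ) (h2 : IsoRep τ' σ') : IsoRep (τ.tprod τ') (σ.tprod σ') := by
  obtain ⟨e, he⟩ := h1
  obtain ⟨e', he'⟩ := h2
  refine ⟨TensorProduct.congr e e', fun g v => ?_⟩
  have h : (TensorProduct.congr e e').toLinearMap ∘ₗ (τ.tprod τ') g =
      (σ.tprod σ') g ∘ₗ (TensorProduct.congr e e').toLinearMap := by
    apply TensorProduct.ext'
    intro x y
    show e (τ g x) ⊗ₜ[K] e' (τ' g y) = σ g (e x) ⊗ₜ[K] σ' g (e' y)
    rw [he, he']
  exact LinearMap.congr_fun h v

theorem iso_zero {V' : Type*} [AddCommGroup V'] [Module K V'] (ρ : Representation K Γ V)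
    (ρ' : Representation K Γ V') : IsoRep (tpow ρ 0) (tpow ρ' 0) := by
  refine ⟨(isEmptyEquiv (Fin 0)).trans (isEmptyEquiv (Fin 0)).symm, fun g v => ?_⟩
  have h1 : ∀ {V'' : Type _} [AddCommGroup V''] [Module K V''] (τ : Representation K Γ V'')
      (w : ⨂[K] _ : Fin 0, V''), tpow τ 0 g w = w := by
    intro V'' _ _ τ w
    have : tpow τ 0 g = LinearMap.id := by
      apply PiTensorProduct.ext
      apply MultilinearMap.ext
      intro x
      show tpow τ 0 g (PiTensorProduct.tprod K x) = PiTensorProduct.tprod K x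
      have h2 : tpow τ 0 g (PiTensorProduct.tprod K x) =
        PiTensorProduct.tprod K (fun i => τ g (x i)) := PiTensorProduct.map_tprod _ _
      rw [h2]
      congr 1
      funext i
      exact i.elim0
    rw [this]
    rfl
  have h3 : ∀ (w : ⨂[K] _ : Fin 0, V'), tpow ρ' 0 g w = w := by
    intro w
    have : tpow ρ' 0 g = LinearMap.id := by
      apply PiTensorProduct.ext
      apply MultilinearMap.ext
      intro x
      show tpow ρ' 0 g (PiTensorProduct.tprod K x) = PiTensorProduct.tprod K x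
      have h2 : tpow ρ' 0 g (PiTensorProduct.tprod K x) =
        PiTensorProduct.tprod K (fun i => ρ' g (x i)) := PiTensorProduct.map_tprod _ _
      rw [h2]
      congr 1
      funext i
      exact i.elim0
    rw [this]
    rfl
  rw [h1, h3]

theorem iso_one (ρ : Representation K Γ V) : IsoRep (tpow ρ 1) ρ := by
  refine ⟨subsingletonEquiv (0 : Fin 1), fun g v => ?_⟩
  have h : (subsingletonEquiv (R := K) (s := fun _ : Fin 1 => V) 0).toLinearMap ∘ₗ tpow ρ 1 g =
      ρ g ∘ₗ (subsingletonEquiv (R := K) (s := fun _ : Fin 1 => V) 0).toLinearMap := by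
    apply PiTensorProduct.ext
    apply MultilinearMap.ext
    intro x
    show subsingletonEquiv (R := K) (s := fun _ : Fin 1 => V) 0
      (tpow ρ 1 g (PiTensorProduct.tprod K x)) =
      ρ g (subsingletonEquiv (R := K) (s := fun _ : Fin 1 => V) 0 (PiTensorProduct.tprod K x))
    have h2 : tpow ρ 1 g (PiTensorProduct.tprod K x) =
        PiTensorProduct.tprod K (fun i => ρ g (x i)) := PiTensorProduct.map_tprod _ _
    rw [h2, subsingletonEquiv_apply_tprod, subsingletonEquiv_apply_tprod]
  exact LinearMap.congr_fun h v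

/-- The tensor powers of a tensor power. -/
theorem iso_nested (ρ : Representation K Γ V) (r m : ℕ) :
    IsoRep (tpow (tpow ρ r) m) (tpow ρ (m * r)) := by
  induction m with
  | zero =>
    rw [Nat.zero_mul]
    exact iso_zero _ _
  | succ m ih =>
    rw [Nat.succ_mul]
    exact (iso_mul (tpow ρ r) m 1).symm.trans
      ((ih.tprod (iso_one (tpow ρ r))).trans (iso_mul ρ (m * r) r))

end powers

end Pool.Agent.U282.ZL
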