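import Mathlib
import Pool.Agent.U282.ZL.Mo2

/-! Semisimplicity is equivalent to the nondegeneracy of one trace form. -/

set_option autoImplicit false

namespace Pool.Agent.U282.ZL

open Module PiTensorProduct
open scoped TensorProduct

section perp

variable {K V Γ : Type*} [Field K] [AddCommGroup V] [Module K V] [FiniteDimensional K V] [Group Γ]

theorem surj_of_inj {B : V →ₗ[K] V →ₗ[K] K} (hBi : Function.Injective B) :
    Function.Surjective B :=
  (LinearMap.injective_iff_surjective_of_finrank_eq_finrank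
    (Subspace.dual_finrank_eq (K := K) (V := V)).symm).1 hBi

theorem flip_inj {B : V →ₗ[K] V →ₗ[K] K} (hBi : Function.Injective B) :
    Function.Injective B.flip := by
  rw [← LinearMap.ker_eq_bot, eq_bot_iff]
  intro u hu
  rw [LinearMap.mem_ker] at hu
  rw [Submodule.mem_bot, ← Module.forall_dual_apply_eq_zero_iff K]
  intro φ
  obtain ⟨v, rfl⟩ := surj_of_inj hBi φ
  exact LinearMap.congr_fun hu v

/-- The orthogonal of a subspace. -/
def rperp (B : V →ₗ[K] V →ₗ[K] K) (W : Submodule K V) : Submodule K V :=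
  (W.map B).dualCoannihilator

theorem mem_rperp (B : V →ₗ[K] V →ₗ[K] K) (W : Submodule K V) (v : V) :
    v ∈ rperp B W ↔ ∀ w ∈ W, B w v = 0 := by
  rw [rperp, Submodule.mem_dualCoannihilator]
  constructor
  · intro h1 w hw
    exact h1 _ ⟨w, hw, rfl⟩
  · rintro h1 _ ⟨w, hw, rfl⟩
    exact h1 w hw

theorem finrank_rperp {B : V →ₗ[K] V →ₗ[K] K} (hBi : Function.Injective B)
    (W : Submodule K V) : finrank K W + finrank K (rperp B W) = finrank K V := by
  have h1 := Subspace.finrank_add_finrank_dualCoannihilator_eq (W.map B)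
  rw [← (Submodule.equivMapOfInjective B hBi W).finrank_eq] at h1
  exact h1

theorem rperp_stable (ρ : Representation K Γ V) (B : V →ₗ[K] V →ₗ[K] K) (χ : Γ → K)
    (hB : ∀ g x y, B (ρ g x) (ρ g y) = χ g * B x y) (W : Submodule K V)
    (hW : ∀ g, ∀ w ∈ W, ρ g w ∈ W) : ∀ g, ∀ w ∈ rperp B W, ρ g w ∈ rperp B W := by
  intro g v hv
  rw [mem_rperp] at hv ⊢
  intro w hw
  have h1 : ρ g (ρ g⁻¹ w) = w := rep_inv' ρ g w
  rw [← h1, hB, hv _ (hW _ _ hw), mul_zero]

/-- It is enough to find complements for the small stable subspaces. -/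
theorem ss_of_small (ρ : Representation K Γ V) (B : V →ₗ[K] V →ₗ[K] K)
    (hBi : Function.Injective B) (χ : Γ → K)
    (hB : ∀ g x y, B (ρ g x) (ρ g y) = χ g * B x y)
    (h : ∀ W : Submodule K V, (∀ g, ∀ w ∈ W, ρ g w ∈ W) → 2 * finrank K W ≤ finrank K V →
      ∃ U : Submodule K V, (∀ g, ∀ u ∈ U, ρ g u ∈ U) ∧ IsCompl W U) : SSRep ρ := by
  intro W hW
  rcases Nat.lt_or_ge (finrank K V) (2 * finrank K W) with hlt | hge
  swap
  · obtain ⟨U, hU, hc⟩ := h W hW hge
    exact ⟨U, hU, hc⟩
  have hPd := finrank_rperp hBi W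
  obtain ⟨U, hU, hc⟩ := h (rperp B W) (rperp_stable ρ B χ hB W hW) (by omega)
  have hB' : ∀ g x y, B.flip (ρ g x) (ρ g y) = χ g * B.flip x y := fun g x y => hB g y x
  refine ⟨rperp B.flip U, rperp_stable ρ B.flip χ hB' U hU, ?_⟩
  have hQd := finrank_rperp (flip_inj hBi) U
  have hUd : finrank K (rperp B W) + finrank K U = finrank K V := Submodule.finrank_add_eq_of_isCompl hc
  rw [Submodule.isCompl_iff_disjoint _ _ (by omega), Submodule.disjoint_def]
  intro v hvW hvQ
  rw [mem_rperp] at hvQ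
  apply hBi
  rw [map_zero]
  apply LinearMap.ext
  intro x
  obtain ⟨p, hp, u, hu, rfl⟩ := Submodule.mem_sup.1
    (show x ∈ rperp B W ⊔ U by rw [hc.sup_eq_top]; trivial)
  rw [map_add, (mem_rperp B W p).1 hp v hvW]
  have h2 : B v u = 0 := hvQ u hu
  rw [h2, add_zero]
  rfl

end perp

/-- Semisimplicity is equivalent to the nondegeneracy of the trace form of the commutant of
one tensor power. -/
theorem ss_of_trace {K V Γ : Type*} [Field K] [AddCommGroup V] [Module K V]
    [FiniteDimensional K V] [Group Γ] (ρ : Representation K Γ V) (B : V →ₗ[K] V →ₗ[K] K)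
    (hBi : Function.Injective B) (χ : Γ → K)
    (hB : ∀ g x y, B (ρ g x) (ρ g y) = χ g * B x y) (m : ℕ) (hm : 0 < m)
    (hdet : ∀ (W : Submodule K V) (hW : ∀ g, ∀ w ∈ W, ρ g w ∈ W) (g : Γ),
      LinearMap.det ((ρ g).restrict (hW g)) ^ (2 * m) = χ g ^ (m * finrank K W))
    (n : ℕ) (hn : m * (finrank K V / 2) ≤ n) (hT : TraceNondeg (tpow ρ n)) : SSRep ρ := by
  rcases subsingleton_or_nontrivial V with hV | hV
  · intro W _
    refine ⟨⊤, fun _ _ _ => trivial, ?_⟩
    have : W = ⊥ := by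
      rw [eq_bot_iff]
      intro v _
      exact Subsingleton.elim v 0
    rw [this]
    exact isCompl_bot_top
  · refine ss_of_small ρ B hBi χ hB ?_
    intro W hW hsmall
    refine compl_of_trace ρ B (surj_of_inj hBi) χ hB m hm W hW (finrank K W) rfl
      (fun g => hdet W hW g) ?_
    refine (iso_nested ρ (finrank K W) m).traceNondeg (traceNondeg_mono ρ (le_trans ?_ hn) hT)
    exact Nat.mul_le_mul_left m (by omega)

end Pool.Agent.U282.ZL
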