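import Mathlib
import Pool.Agent.U282.ZL.Mo3

/-! Tate classes and the trace form. -/

set_option autoImplicit false

namespace Pool.Agent.U282.ZL

open Module PiTensorProduct
open scoped TensorProduct

section duality

variable {K H Γ : Type*} [Field K] [AddCommGroup H] [Module K H] [FiniteDimensional K H] [Group Γ]

/-- The tensor `x ⊗ y` gives the endomorphism `v ↦ β (v, y) x`. -/
noncomputable def Phi (β : H →ₗ[K] H →ₗ[K] K) (hβ : Function.Injective β) :
    H ⊗[K] H ≃ₗ[K] (H →ₗ[K] H) :=
  (TensorProduct.congr (LinearEquiv.refl K H)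
    (LinearEquiv.ofBijective β.flip ⟨flip_inj hβ, surj_of_inj (flip_inj hβ)⟩)).trans
    ((TensorProduct.comm K H (Dual K H)).trans (dualTensorHomEquiv K H H))

theorem Phi_tmul (β : H →ₗ[K] H →ₗ[K] K) (hβ : Function.Injective β) (x y v : H) :
    Phi β hβ (x ⊗ₜ[K] y) v = β v y • x := by
  simp only [Phi, LinearEquiv.trans_apply, TensorProduct.congr_tmul, TensorProduct.comm_tmul,
    LinearEquiv.refl_apply]
  rfl

/-- The product form on `H ⊗ H`. -/
noncomputable def form2 (β : H →ₗ[K] H →ₗ[K] K) : H ⊗[K] H →ₗ[K] H ⊗[K] H →ₗ[K] K :=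
  TensorProduct.dualDistrib K H H ∘ₗ TensorProduct.map β β

theorem form2_tmul (β : H →ₗ[K] H →ₗ[K] K) (x y x' y' : H) :
    form2 β (x ⊗ₜ[K] y) (x' ⊗ₜ[K] y') = β x x' * β y y' := rfl

theorem Phi_act (β : H →ₗ[K] H →ₗ[K] K) (hβ : Function.Injective β) (τ : Representation K Γ H)
    (θ : Γ → K) (hτ : ∀ g x y, β (τ g x) (τ g y) = θ g * β x y) (g : Γ) (t : H ⊗[K] H) :
    Phi β hβ ((τ.tprod τ) g t) ∘ₗ τ g = θ g • (τ g ∘ₗ Phi β hβ t) := by
  induction t using TensorProduct.induction_on with
  | zero => simp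
  | tmul x y =>
    apply LinearMap.ext
    intro v
    show Phi β hβ (τ g x ⊗ₜ[K] τ g y) (τ g v) = θ g • τ g (Phi β hβ (x ⊗ₜ[K] y) v)
    rw [Phi_tmul, Phi_tmul, hτ, map_smul, smul_smul]
  | add a b ha hb =>
    rw [map_add, map_add, LinearMap.add_comp, ha, hb, map_add, LinearMap.comp_add, smul_add]

theorem tate_iff (β : H →ₗ[K] H →ₗ[K] K) (hβ : Function.Injective β) (τ : Representation K Γ H)
    (θ : Γ → K) (hθ : ∀ g, θ g ≠ 0) (hτ : ∀ g x y, β (τ g x) (τ g y) = θ g * β x y)
    (t : H ⊗[K] H) :
    (∀ g, (τ.tprod τ) g t = θ g • t) ↔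
      ∀ g, Commute (Phi β hβ t : Module.End K H) (τ g) := by
  constructor
  · intro h g
    have h1 := Phi_act β hβ τ θ hτ g t
    rw [h g, map_smul] at h1
    apply LinearMap.ext
    intro v
    have h2 := LinearMap.congr_fun h1 v
    have h3 : θ g • Phi β hβ t (τ g v) = θ g • τ g (Phi β hβ t v) := h2
    exact smul_right_injective _ (hθ g) h3
  · intro h g
    apply (Phi β hβ).injective
    have h1 := Phi_act β hβ τ θ hτ g t
    apply LinearMap.ext
    intro v
    have h2 := LinearMap.congr_fun h1 (τ g⁻¹ v)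
    have h3 : Phi β hβ ((τ.tprod τ) g t) (τ g (τ g⁻¹ v)) =
        θ g • τ g (Phi β hβ t (τ g⁻¹ v)) := h2
    have h4 : Phi β hβ t (τ g (τ g⁻¹ v)) = τ g (Phi β hβ t (τ g⁻¹ v)) :=
      LinearMap.congr_fun (h g) _
    have h5 : τ g (τ g⁻¹ v) = v := rep_inv' τ g v
    rw [← h4, h5] at h3
    rw [h3, map_smul]
    rfl

theorem form2_swap (β : H →ₗ[K] H →ₗ[K] K) (hβ : Function.Injective β) (s : K)
    (hs : ∀ x y, β x y = s * β y x) (t t' : H ⊗[K] H) :
    form2 β t (TensorProduct.comm K H H t') =
      s * LinearMap.trace K H ((Phi β hβ t : Module.End K H) * Phi β hβ t') := by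
  induction t using TensorProduct.induction_on with
  | zero => simp
  | add a b ha hb =>
    rw [map_add, LinearMap.add_apply, ha, hb, map_add, ← mul_add, ← map_add, ← add_mul]
  | tmul x y =>
    induction t' using TensorProduct.induction_on with
    | zero => simp
    | add a b ha hb =>
      rw [map_add, map_add, ha, hb, map_add, ← mul_add, ← map_add, ← mul_add]
    | tmul x' y' =>
      rw [TensorProduct.comm_tmul, form2_tmul]
      have h1 : (Phi β hβ (x ⊗ₜ[K] y) : Module.End K H) * Phi β hβ (x' ⊗ₜ[K] y') =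
          (β x' y • β.flip y').smulRight x := by
        apply LinearMap.ext
        intro v
        show Phi β hβ (x ⊗ₜ[K] y) (Phi β hβ (x' ⊗ₜ[K] y') v) = (β x' y * β v y') • x
        rw [Phi_tmul, Phi_tmul, map_smul, LinearMap.smul_apply, smul_eq_mul, mul_comm]
      rw [h1, LinearMap.trace_smulRight]
      show β x y' * β y x' = s * (β x' y * β x y')
      rw [hs y x']
      ring

/-- The tensors on which the group acts by the character `θ` pair perfectly. -/
def TatePerfect (τ : Representation K Γ H) (θ : Γ → K) (F : H →ₗ[K] H →ₗ[K] K) : Prop :=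
  ∀ t : H, (∀ g, τ g t = θ g • t) → (∀ t', (∀ g, τ g t' = θ g • t') → F t t' = 0) → t = 0

theorem tatePerfect_iff (β : H →ₗ[K] H →ₗ[K] K) (hβ : Function.Injective β)
    (τ : Representation K Γ H)
    (θ : Γ → K) (hθ : ∀ g, θ g ≠ 0) (hτ : ∀ g x y, β (τ g x) (τ g y) = θ g * β x y) (s : K)
    (hs0 : s ≠ 0) (hs : ∀ x y, β x y = s * β y x) :
    TatePerfect (τ.tprod τ) θ (form2 β) ↔ TraceNondeg τ := by
  constructor
  · intro h f hf htr
    have h1 : Phi β hβ ((Phi β hβ).symm f) = f := (Phi β hβ).apply_symm_apply f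
    have h2 : (Phi β hβ).symm f = 0 := by
      apply h
      · rw [tate_iff β hβ τ θ hθ hτ, h1]
        exact hf
      · intro t' ht'
        have h3 : t' = TensorProduct.comm K H H (TensorProduct.comm K H H t') := by
          rw [← LinearEquiv.symm_apply_eq, TensorProduct.comm_symm]
        rw [h3, form2_swap β hβ s hs, h1]
        have h4 : ∀ g, Commute (Phi β hβ (TensorProduct.comm K H H t') : Module.End K H)
            (τ g) := by
          rw [← tate_iff β hβ τ θ hθ hτ]
          intro g
          have h5 : ∀ z : H ⊗[K] H, (τ.tprod τ) g (TensorProduct.comm K H H z) =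
              TensorProduct.comm K H H ((τ.tprod τ) g z) := by
            intro z
            induction z using TensorProduct.induction_on with
            | zero => simp
            | tmul x y => rfl
            | add a b ha hb => rw [map_add, map_add, ha, hb, map_add, map_add]
          rw [h5, ht', map_smul]
        rw [htr _ h4, mul_zero]
    rw [← h1, h2, map_zero]
  · intro h t ht hF
    have h1 : (Phi β hβ t : Module.End K H) = 0 := by
      apply h _ ((tate_iff β hβ τ θ hθ hτ t).1 ht)
      intro ψ hψ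
      have h2 : Phi β hβ ((Phi β hβ).symm ψ) = ψ := (Phi β hβ).apply_symm_apply ψ
      have h3 : ∀ g, (τ.tprod τ) g ((Phi β hβ).symm ψ) = θ g • (Phi β hβ).symm ψ := by
        rw [tate_iff β hβ τ θ hθ hτ, h2]
        exact hψ
      have h4 := form2_swap β hβ s hs t ((Phi β hβ).symm ψ)
      rw [h2, hF _ (by
        intro g
        have h5 : ∀ z : H ⊗[K] H, (τ.tprod τ) g (TensorProduct.comm K H H z) =
            TensorProduct.comm K H H ((τ.tprod τ) g z) := by
          intro z
          induction z using TensorProduct.induction_on with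
          | zero => simp
          | tmul x y => rfl
          | add a b ha hb => rw [map_add, map_add, ha, hb, map_add, map_add]
        rw [h5, h3, map_smul])] at h4
      exact (mul_eq_zero.1 h4.symm).resolve_left hs0
    exact (LinearEquiv.map_eq_zero_iff (Phi β hβ)).1 h1

end duality

section powers

variable {K V Γ : Type*} [Field K] [AddCommGroup V] [Module K V] [FiniteDimensional K V] [Group Γ]

/-- The bilinear form `∏ B (x_i, y_i)` on the tensor power. -/
noncomputable def formPow (B : V →ₗ[K] V →ₗ[K] K) (n : ℕ) :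
    (⨂[K] _ : Fin n, V) →ₗ[K] (⨂[K] _ : Fin n, V) →ₗ[K] K :=
  dualDistrib ∘ₗ PiTensorProduct.map (fun _ => B)

theorem formPow_tprod (B : V →ₗ[K] V →ₗ[K] K) (n : ℕ) (x y : Fin n → V) :
    formPow B n (tprod K x) (tprod K y) = ∏ i, B (x i) (y i) := by
  show dualDistrib (PiTensorProduct.map (fun _ => B) (PiTensorProduct.tprod K x)) _ = _
  rw [PiTensorProduct.map_tprod, dualDistrib_apply]

theorem bil_ext {n m : ℕ} {F G : (⨂[K] _ : Fin n, V) →ₗ[K] (⨂[K] _ : Fin m, V) →ₗ[K] K}
    (h : ∀ x y, F (tprod K x) (tprod K y) = G (tprod K x) (tprod K y)) : F = G := by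
  apply PiTensorProduct.ext
  apply MultilinearMap.ext
  intro a
  apply PiTensorProduct.ext
  apply MultilinearMap.ext
  intro b
  exact h a b

theorem formPow_inj (B : V →ₗ[K] V →ₗ[K] K) (hB : Function.Injective B) (n : ℕ) :
    Function.Injective (formPow B n) := by
  let e : V ≃ₗ[K] Dual K V := LinearEquiv.ofBijective B ⟨hB, surj_of_inj hB⟩
  have h1 : formPow B n = (dualDistribEquiv (R := K) (ι := Fin n) (M := fun _ => V)).toLinearMap ∘ₗ
      (PiTensorProduct.congr (fun _ : Fin n => e)).toLinearMap := by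
    apply PiTensorProduct.ext
    apply MultilinearMap.ext
    intro x
    show dualDistrib (PiTensorProduct.map (fun _ => B) (PiTensorProduct.tprod K x)) =
      dualDistrib (PiTensorProduct.congr (fun _ : Fin n => e) (PiTensorProduct.tprod K x))
    rw [PiTensorProduct.map_tprod, PiTensorProduct.congr_tprod]
    rfl
  rw [h1, LinearMap.coe_comp]
  exact (LinearEquiv.injective _).comp (LinearEquiv.injective _)

theorem tpow_tprod (ρ : Representation K Γ V) (n : ℕ) (g : Γ) (x : Fin n → V) :
    tpow ρ n g (tprod K x) = tprod K (fun i => ρ g (x i)) := PiTensorProduct.map_tprod _ _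

theorem formPow_act (ρ : Representation K Γ V) (B : V →ₗ[K] V →ₗ[K] K) (χ : Γ → K)
    (hB : ∀ g x y, B (ρ g x) (ρ g y) = χ g * B x y) (n : ℕ) (g : Γ)
    (x y : ⨂[K] _ : Fin n, V) :
    formPow B n (tpow ρ n g x) (tpow ρ n g y) = χ g ^ n * formPow B n x y := by
  have h : ((formPow B n).compl₂ (tpow ρ n g)) ∘ₗ tpow ρ n g = χ g ^ n • formPow B n := by
    apply bil_ext
    intro a b
    show formPow B n (tpow ρ n g (tprod K a)) (tpow ρ n g (tprod K b)) =
      χ g ^ n * formPow B n (tprod K a) (tprod K b)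
    rw [tpow_tprod, tpow_tprod, formPow_tprod, formPow_tprod]
    simp only [hB, Finset.prod_mul_distrib, Finset.prod_const, Finset.card_univ,
      Fintype.card_fin]
  exact LinearMap.congr_fun (LinearMap.congr_fun h x) y

theorem formPow_symm (B : V →ₗ[K] V →ₗ[K] K) (s : K) (hs : ∀ x y, B x y = s * B y x) (n : ℕ)
    (x y : ⨂[K] _ : Fin n, V) : formPow B n x y = s ^ n * formPow B n y x := by
  have h : formPow B n = s ^ n • (formPow B n).flip := by
    apply bil_ext
    intro a b
    show formPow B n (tprod K a) (tprod K b) = s ^ n * formPow B n (tprod K b) (tprod K a)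
    rw [formPow_tprod, formPow_tprod]
    conv_lhs => rw [Finset.prod_congr rfl (fun i _ => hs (a i) (b i))]
    rw [Finset.prod_mul_distrib, Finset.prod_const, Finset.card_univ, Fintype.card_fin]
  exact LinearMap.congr_fun (LinearMap.congr_fun h x) y

theorem formPow_mulE (B : V →ₗ[K] V →ₗ[K] K) (n : ℕ)
    (z z' : (⨂[K] _ : Fin n, V) ⊗[K] (⨂[K] _ : Fin n, V)) :
    formPow B (n + n) (mulE n n z) (mulE n n z') = form2 (formPow B n) z z' := by
  have h : ((formPow B (n + n)).compl₂ (mulE n n).toLinearMap) ∘ₗ (mulE n n).toLinearMap =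
      form2 (formPow B n) := by
    apply ext2
    intro a b
    apply ext2
    intro c d
    show formPow B (n + n) (mulE n n (tprod K a ⊗ₜ[K] tprod K b))
      (mulE n n (tprod K c ⊗ₜ[K] tprod K d)) = formPow B n (tprod K a) (tprod K c) *
        formPow B n (tprod K b) (tprod K d)
    rw [mulE_tprod, mulE_tprod, formPow_tprod, formPow_tprod, formPow_tprod,
      Fin.prod_univ_add]
    simp only [Fin.append_left, Fin.append_right]
  exact LinearMap.congr_fun (LinearMap.congr_fun h z) z'

theorem tatePerfect_pow (ρ : Representation K Γ V) (B : V →ₗ[K] V →ₗ[K] K)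
    (hBi : Function.Injective B) (χ : Γ → K) (hχ : ∀ g, χ g ≠ 0)
    (hB : ∀ g x y, B (ρ g x) (ρ g y) = χ g * B x y) (s : K) (hs0 : s ≠ 0)
    (hs : ∀ x y, B x y = s * B y x) (n : ℕ) :
    TatePerfect (tpow ρ (n + n)) (fun g => χ g ^ n) (formPow B (n + n)) ↔
      TraceNondeg (tpow ρ n) := by
  rw [← tatePerfect_iff (formPow B n) (formPow_inj B hBi n) (tpow ρ n) (fun g => χ g ^ n)
    (fun g => pow_ne_zero _ (hχ g)) (formPow_act ρ B χ hB n) (s ^ n) (pow_ne_zero _ hs0)
    (formPow_symm B s hs n)]
  have hT : ∀ z, (∀ g, tpow ρ (n + n) g (mulE n n z) = χ g ^ n • mulE n n z) ↔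
      ∀ g, ((tpow ρ n).tprod (tpow ρ n)) g z = χ g ^ n • z := by
    intro z
    refine forall_congr' fun g => ?_
    rw [← mulE_act, ← map_smul, (mulE (K := K) (V := V) n n).injective.eq_iff]
  constructor
  · intro h t ht hF
    have h1 : mulE n n t = 0 := by
      apply h _ ((hT t).2 ht)
      intro t' ht'
      obtain ⟨z, rfl⟩ := (mulE (K := K) (V := V) n n).surjective t'
      rw [formPow_mulE]
      exact hF z ((hT z).1 ht')
    exact (LinearEquiv.map_eq_zero_iff (mulE (K := K) (V := V) n n)).1 h1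
  · intro h t ht hF
    obtain ⟨z, rfl⟩ := (mulE (K := K) (V := V) n n).surjective t
    rw [h z ((hT z).1 ht) (fun z' hz' => by
      rw [← formPow_mulE]
      exact hF _ ((hT z').2 hz')), map_zero]

end powers

end Pool.Agent.U282.ZL
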