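import Mathlib

/-! A bound for the number of words of given weight. -/

set_option autoImplicit false

namespace Pool.Agent.U282.ZL

theorem cb_sq (m : ℕ) : Nat.centralBinom m ^ 2 * (3 * m + 1) ≤ 16 ^ m := by
  induction m with
  | zero => simp
  | succ m ih =>
    have h1 := Nat.succ_mul_centralBinom_succ m
    have h2 : ((m + 1) * Nat.centralBinom (m + 1)) ^ 2 * (3 * (m + 1) + 1) ≤
        (m + 1) ^ 2 * 16 ^ (m + 1) := by
      rw [h1]
      have h3 : (2 * (2 * m + 1) * Nat.centralBinom m) ^ 2 * (3 * (m + 1) + 1) ≤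
          16 * (m + 1) ^ 2 * (Nat.centralBinom m ^ 2 * (3 * m + 1)) := by
        have h4 : (2 * (2 * m + 1)) ^ 2 * (3 * (m + 1) + 1) ≤ 16 * (m + 1) ^ 2 * (3 * m + 1) := by
          nlinarith
        calc (2 * (2 * m + 1) * Nat.centralBinom m) ^ 2 * (3 * (m + 1) + 1)
            = ((2 * (2 * m + 1)) ^ 2 * (3 * (m + 1) + 1)) * Nat.centralBinom m ^ 2 := by ring
          _ ≤ (16 * (m + 1) ^ 2 * (3 * m + 1)) * Nat.centralBinom m ^ 2 :=
            Nat.mul_le_mul_right _ h4
          _ = _ := by ring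
      calc _ ≤ 16 * (m + 1) ^ 2 * (Nat.centralBinom m ^ 2 * (3 * m + 1)) := h3
        _ ≤ 16 * (m + 1) ^ 2 * 16 ^ m := Nat.mul_le_mul_left _ ih
        _ = _ := by ring
    have h5 : (m + 1) ^ 2 * (Nat.centralBinom (m + 1) ^ 2 * (3 * (m + 1) + 1)) ≤
        (m + 1) ^ 2 * 16 ^ (m + 1) := by
      calc _ = ((m + 1) * Nat.centralBinom (m + 1)) ^ 2 * (3 * (m + 1) + 1) := by ring
        _ ≤ _ := h2
    exact Nat.le_of_mul_le_mul_left h5 (by positivity)

theorem mid_sq (p : ℕ) : (p.choose (p / 2)) ^ 2 * (p + 1) ≤ 4 ^ p := by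
  rcases Nat.even_or_odd' p with ⟨m, rfl | rfl⟩
  · have h1 : 2 * m / 2 = m := by omega
    rw [h1, ← Nat.centralBinom_eq_two_mul_choose, pow_mul]
    refine (Nat.mul_le_mul_left _ ?_).trans (cb_sq m)
    omega
  · have h1 : (2 * m + 1) / 2 = m := by omega
    rw [h1]
    have h2 : Nat.centralBinom (m + 1) = 2 * (2 * m + 1).choose m := by
      rw [Nat.centralBinom_eq_two_mul_choose, show 2 * (m + 1) = (2 * m + 1) + 1 by ring,
        Nat.choose_succ_succ, Nat.choose_symm_half]
      ring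
    have h3 := cb_sq (m + 1)
    rw [h2] at h3
    have h4 : ((2 * m + 1).choose m) ^ 2 * (2 * m + 1 + 1) * 4 ≤ 4 ^ (2 * m + 1) * 4 := by
      calc ((2 * m + 1).choose m) ^ 2 * (2 * m + 1 + 1) * 4
          = (2 * (2 * m + 1).choose m) ^ 2 * (2 * m + 1 + 1) := by ring
        _ ≤ (2 * (2 * m + 1).choose m) ^ 2 * (3 * (m + 1) + 1) :=
          Nat.mul_le_mul_left _ (by omega)
        _ ≤ 16 ^ (m + 1) := h3
        _ = 4 ^ (2 * m + 1) * 4 := by
          rw [show (16 : ℕ) = 4 ^ 2 by norm_num, ← pow_mul]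
          ring
    exact Nat.le_of_mul_le_mul_right h4 (by norm_num)

variable {B : Type*} [Fintype B] [DecidableEq B]

/-- The weight `2u` at `x`, `0` at `y`, `1` elsewhere. -/
noncomputable def ww (x y : B) (u : ℝ) (z : B) : ℝ := if z = y then 0 else if z = x then 2 * u else 1

theorem sum_ww (x y : B) (hxy : x ≠ y) (u : ℝ) :
    ∑ z, ww x y u z = 2 * u + (Fintype.card B - 2) := by
  have h1 : ∀ z, ww x y u z = 1 + (if z = y then -1 else 0) + (if z = x then 2 * u - 1 else 0) := by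
    intro z
    unfold ww
    by_cases hy : z = y
    · subst hy
      rw [if_pos rfl, if_pos rfl, if_neg (Ne.symm hxy)]
      ring
    · rw [if_neg hy, if_neg hy]
      by_cases hx : z = x
      · rw [if_pos hx, if_pos hx]; ring
      · rw [if_neg hx, if_neg hx]; ring
  simp only [h1, Finset.sum_add_distrib, Finset.sum_ite_eq', Finset.mem_univ, if_true,
    Finset.sum_const, Finset.card_univ, nsmul_eq_mul, mul_one]
  ring

/-- The number of letters `x`. -/
def pc (x : B) {n : ℕ} (c : Fin n → B) : ℕ := (Finset.univ.filter fun i => c i = x).card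

open Classical in
/-- The indicator of the words without the letter `y`. -/
noncomputable def av (y : B) {n : ℕ} (c : Fin n → B) : ℝ := if ∀ i, c i ≠ y then 1 else 0

omit [Fintype B] in
theorem prod_ww (x y : B) (u : ℝ) {n : ℕ} (c : Fin n → B) :
    ∏ i, ww x y u (c i) = av y c * 2 ^ pc x c * u ^ pc x c := by
  classical
  unfold av
  by_cases h : ∀ i, c i ≠ y
  · rw [if_pos h, one_mul, ← mul_pow, pc]
    have h1 : ∀ i, ww x y u (c i) = if c i = x then 2 * u else 1 := by
      intro i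
      rw [ww, if_neg (h i)]
    simp only [h1]
    rw [Finset.prod_ite, Finset.prod_const, Finset.prod_const_one, mul_one]
  · rw [if_neg h, zero_mul, zero_mul]
    push Not at h
    obtain ⟨i, hi⟩ := h
    refine Finset.prod_eq_zero (Finset.mem_univ i) ?_
    rw [ww, if_pos hi]

theorem sum_prod (x y : B) (hxy : x ≠ y) (u : ℝ) (n : ℕ) :
    ∑ c : Fin n → B, av y c * 2 ^ pc x c * u ^ pc x c = (2 * u + (Fintype.card B - 2)) ^ n := by
  rw [← sum_ww x y hxy u]
  have h1 := Finset.prod_univ_sum (fun _ : Fin n => (Finset.univ : Finset B)) (fun _ z => ww x y u z)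
  rw [Finset.prod_const, Finset.card_univ, Fintype.card_fin] at h1
  rw [h1, Fintype.piFinset_univ]
  exact Finset.sum_congr rfl fun c _ => (prod_ww x y u c).symm

theorem sum_one (x y : B) (hxy : x ≠ y) (n : ℕ) :
    ∑ c : Fin n → B, av y c * 2 ^ pc x c = (Fintype.card B : ℝ) ^ n := by
  have h := sum_prod x y hxy 1 n
  simp only [one_pow, mul_one] at h
  rw [h]
  congr 1
  ring

theorem sum_int (x y : B) (hxy : x ≠ y) (n : ℕ) :
    ∑ c : Fin n → B, av y c * 2 ^ pc x c / (pc x c + 1) ≤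
      (Fintype.card B : ℝ) ^ (n + 1) / (2 * (n + 1)) := by
  have hb : (2 : ℝ) ≤ Fintype.card B := by
    have h1 : 1 < Fintype.card B := Fintype.one_lt_card_iff.2 ⟨x, y, hxy⟩
    exact_mod_cast h1
  have h1 : ∫ u in (0:ℝ)..1, (2 * u + (Fintype.card B - 2)) ^ n =
      ∑ c : Fin n → B, av y c * 2 ^ pc x c / (pc x c + 1) := by
    have e : (fun u : ℝ => (2 * u + ((Fintype.card B : ℝ) - 2)) ^ n) =
        fun u => ∑ c : Fin n → B, av y c * 2 ^ pc x c * u ^ pc x c := by
      funext u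
      rw [sum_prod x y hxy]
    rw [e, intervalIntegral.integral_finsetSum]
    · refine Finset.sum_congr rfl fun c _ => ?_
      rw [intervalIntegral.integral_const_mul, integral_pow]
      simp
      ring
    · intro c _
      exact (Continuous.intervalIntegrable (by fun_prop) _ _)
  have h2 : ∫ u in (0:ℝ)..1, (2 * u + (Fintype.card B - 2)) ^ n =
      ((Fintype.card B : ℝ) ^ (n + 1) - (Fintype.card B - 2) ^ (n + 1)) / (2 * (n + 1)) := by
    have h3 := intervalIntegral.integral_comp_mul_add (a := 0) (b := 1) (fun u : ℝ => u ^ n)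
      (two_ne_zero) ((Fintype.card B : ℝ) - 2)
    rw [h3, integral_pow]
    rw [smul_eq_mul]
    have e1 : (2 : ℝ) * 1 + ((Fintype.card B : ℝ) - 2) = Fintype.card B := by ring
    have e2 : (2 : ℝ) * 0 + ((Fintype.card B : ℝ) - 2) = Fintype.card B - 2 := by ring
    rw [e1, e2]
    field_simp
  rw [← h1, h2]
  apply div_le_div_of_nonneg_right _ (by positivity)
  have : 0 ≤ ((Fintype.card B : ℝ) - 2) ^ (n + 1) := pow_nonneg (by linarith) _
  linarith

/-- The main inequality. -/
theorem sum_choose (x y : B) (hxy : x ≠ y) (n : ℕ) :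
    ∑ c : Fin n → B, av y c * ((pc x c).choose (pc x c / 2) : ℝ) ≤
      Real.sqrt ((Fintype.card B : ℝ) / (2 * (n + 1))) * (Fintype.card B : ℝ) ^ n := by
  have hav : ∀ c : Fin n → B, 0 ≤ av y c ∧ av y c ^ 2 = av y c := by
    intro c
    unfold av
    split_ifs <;> norm_num
  have hmid : ∀ p : ℕ, ((p.choose (p / 2) : ℕ) : ℝ) ≤ Real.sqrt (2 ^ p) * Real.sqrt (2 ^ p / (p + 1)) := by
    intro p
    rw [← Real.sqrt_mul (by positivity)]
    apply Real.le_sqrt_of_sq_le
    have h1 := mid_sq p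
    have h2 : (((p.choose (p / 2) : ℕ) : ℝ)) ^ 2 * (p + 1) ≤ 4 ^ p := by exact_mod_cast h1
    rw [← mul_div_assoc, le_div_iff₀ (by positivity), ← mul_pow]
    norm_num
    exact h2
  have h1 : ∑ c : Fin n → B, av y c * ((pc x c).choose (pc x c / 2) : ℝ) ≤
      ∑ c : Fin n → B, (av y c * Real.sqrt (2 ^ pc x c)) *
        (av y c * Real.sqrt (2 ^ pc x c / (pc x c + 1))) := by
    refine Finset.sum_le_sum fun c _ => ?_
    have h2 := mul_le_mul_of_nonneg_left (hmid (pc x c)) (hav c).1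
    have e : (av y c * Real.sqrt (2 ^ pc x c)) * (av y c * Real.sqrt (2 ^ pc x c / (pc x c + 1))) =
        av y c ^ 2 * (Real.sqrt (2 ^ pc x c) * Real.sqrt (2 ^ pc x c / (pc x c + 1))) := by ring
    rw [e, (hav c).2]
    exact h2
  have h2 := Finset.sum_mul_sq_le_sq_mul_sq (Finset.univ : Finset (Fin n → B))
    (fun c => av y c * Real.sqrt (2 ^ pc x c))
    (fun c => av y c * Real.sqrt (2 ^ pc x c / (pc x c + 1)))
  have h3 : ∑ c : Fin n → B, (av y c * Real.sqrt (2 ^ pc x c)) ^ 2 = (Fintype.card B : ℝ) ^ n := by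
    rw [← sum_one x y hxy n]
    refine Finset.sum_congr rfl fun c _ => ?_
    rw [mul_pow, (hav c).2, Real.sq_sqrt (by positivity)]
  have h4 : ∑ c : Fin n → B, (av y c * Real.sqrt (2 ^ pc x c / (pc x c + 1))) ^ 2 ≤
      (Fintype.card B : ℝ) ^ (n + 1) / (2 * (n + 1)) := by
    refine le_of_eq_of_le ?_ (sum_int x y hxy n)
    refine Finset.sum_congr rfl fun c _ => ?_
    rw [mul_pow, (hav c).2, Real.sq_sqrt (by positivity), mul_div_assoc]
  rw [h3] at h2
  have h5 := h2.trans (mul_le_mul_of_nonneg_left h4 (by positivity))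
  refine h1.trans ?_
  have h6 : (Fintype.card B : ℝ) ^ n * ((Fintype.card B : ℝ) ^ (n + 1) / (2 * (n + 1))) =
      (Real.sqrt ((Fintype.card B : ℝ) / (2 * (n + 1))) * (Fintype.card B : ℝ) ^ n) ^ 2 := by
    rw [mul_pow, Real.sq_sqrt (by positivity)]
    ring
  rw [h6] at h5
  exact (abs_le_of_sq_le_sq' h5 (by positivity)).2

end Pool.Agent.U282.ZL
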