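import Mathlib
import Pool.Agent.U282.ZL.Bin
import Pool.Agent.U282.PW.Uni
import Pool.Agent.R686.JT

/-! The dimension of the kernel of the powers of `dn n N`, `N` nilpotent and not zero. -/

set_option autoImplicit false

namespace Pool.Agent.U282.ZL

open Pool.Agent.U282.PW Module PiTensorProduct
open scoped TensorProduct

section comb

variable {J : Type*} [Fintype J] {s : J → ℕ} {n : ℕ}

open Classical in
theorem cnt_le (j0 : J) (h2 : 1 < s j0) (t : ℤ) :
    (Nat.card {c : Fin n → Σ j, Fin (s j) | ht c = t ∨ ht c = t - 1} : ℝ) ≤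
      ∑ c : Fin n → Σ j, Fin (s j), av (⟨j0, ⟨1, h2⟩⟩ : Σ j, Fin (s j)) c *
        ((pc (⟨j0, ⟨0, (Nat.zero_lt_one.trans h2)⟩⟩ : Σ j, Fin (s j)) c).choose
          (pc (⟨j0, ⟨0, (Nat.zero_lt_one.trans h2)⟩⟩ : Σ j, Fin (s j)) c / 2) : ℝ) := by
  set x : Σ j, Fin (s j) := ⟨j0, ⟨0, (Nat.zero_lt_one.trans h2)⟩⟩ with hx
  set y : Σ j, Fin (s j) := ⟨j0, ⟨1, h2⟩⟩ with hy
  have hxy : x ≠ y := by
    intro h
    have := congrArg (fun z : Σ j, Fin (s j) => (z.2 : ℕ)) h
    simp at this
  have hwt : wt y = wt x - 2 := by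
    simp only [wt, hx, hy]
    push_cast
    ring
  let col : (Fin n → Σ j, Fin (s j)) → (Fin n → Σ j, Fin (s j)) := fun c i => if c i = y then x else c i
  have hht : ∀ c, ht c = ht (col c) - 2 * ((Finset.univ.filter fun i => c i = y).card : ℤ) := by
    intro c
    have h1 : ∀ i, wt (c i) = wt (col c i) - (if c i = y then 2 else 0) := by
      intro i
      by_cases h : c i = y
      · simp only [col, if_pos h]
        rw [h, hwt]
      · simp only [col, if_neg h, sub_zero]
    unfold ht
    simp only [h1, Finset.sum_sub_distrib]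
    rw [Finset.sum_ite, Finset.sum_const, Finset.sum_const_zero, add_zero, nsmul_eq_mul]
    ring
  let F : Finset (Fin n → Σ j, Fin (s j)) := Finset.univ.filter fun c => ht c = t ∨ ht c = t - 1
  have hF : Nat.card {c : Fin n → Σ j, Fin (s j) | ht c = t ∨ ht c = t - 1} = F.card := by
    rw [← Nat.card_eq_finsetCard]
    apply Nat.card_congr
    apply Equiv.setCongr
    ext c
    simp [F]
  rw [hF, Finset.card_eq_sum_card_fiberwise (f := col) (t := Finset.univ)
    (fun c _ => Finset.mem_univ _)]
  push_cast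
  refine Finset.sum_le_sum fun d _ => ?_
  by_cases hd : ∀ i, d i ≠ y
  · have hav : av y d = 1 := by rw [av, if_pos hd]
    rw [hav, one_mul]
    norm_cast
    rcases Finset.eq_empty_or_nonempty (F.filter fun c => col c = d) with he | ⟨c1, hc1⟩
    · rw [he]; simp
    rw [Finset.mem_filter, Finset.mem_filter] at hc1
    have hinj : (F.filter fun c => col c = d).card ≤ (Finset.powersetCard
        (Finset.univ.filter fun i => c1 i = y).card (Finset.univ.filter fun i => d i = x)).card := by
      apply Finset.card_le_card_of_injOn (fun c => Finset.univ.filter fun i => c i = y)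
      · intro c hc
        rw [Finset.mem_coe, Finset.mem_filter, Finset.mem_filter] at hc
        rw [Finset.mem_coe, Finset.mem_powersetCard]
        refine ⟨?_, ?_⟩
        · intro i hi
          rw [Finset.mem_filter] at hi ⊢
          refine ⟨hi.1, ?_⟩
          rw [← hc.2]
          simp only [col, if_pos hi.2]
        · show (Finset.univ.filter fun i => c i = y).card = _
          have e1 := hht c
          have e2 := hht c1
          rw [hc.2] at e1
          rw [hc1.2] at e2
          have e3 := hc.1.2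
          have e4 := hc1.1.2
          omega
      · intro c hc c' hc' h
        rw [Finset.mem_coe, Finset.mem_filter] at hc hc'
        funext i
        have h3 : c i = y ↔ c' i = y := by
          have := Finset.ext_iff.1 h i
          simpa using this
        by_cases hi : c i = y
        · rw [hi, h3.1 hi]
        · have hi' : c' i ≠ y := fun h => hi (h3.2 h)
          have e1 := congrFun hc.2 i
          have e2 := congrFun hc'.2 i
          simp only [col, if_neg hi] at e1
          simp only [col, if_neg hi'] at e2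
          rw [e1, e2]
    refine hinj.trans ?_
    rw [Finset.card_powersetCard]
    exact Nat.choose_le_middle _ _
  · have hav : av y d = 0 := by rw [av, if_neg hd]
    rw [hav, zero_mul]
    have he : F.filter (fun c => col c = d) = ∅ := by
      rw [Finset.filter_eq_empty_iff]
      intro c _ hc
      apply hd
      intro i hi
      have h3 := congrFun hc i
      rw [hi] at h3
      by_cases h : c i = y
      · simp only [col, if_pos h] at h3
        exact hxy h3
      · simp only [col, if_neg h] at h3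
        exact h h3
    rw [he]
    simp

/-- The bound. -/
noncomputable def bnd (b n : ℕ) : ℝ := Real.sqrt ((b : ℝ) / (2 * (n + 1))) * (b : ℝ) ^ n

theorem cnt_bnd (j0 : J) (h2 : 1 < s j0) (t : ℤ) :
    (Nat.card {c : Fin n → Σ j, Fin (s j) | ht c = t ∨ ht c = t - 1} : ℝ) ≤
      bnd (Fintype.card (Σ j, Fin (s j))) n := by
  classical
  refine (cnt_le j0 h2 t).trans ?_
  have hxy : (⟨j0, ⟨0, (Nat.zero_lt_one.trans h2)⟩⟩ : Σ j, Fin (s j)) ≠ ⟨j0, ⟨1, h2⟩⟩ := by
    intro h
    have := congrArg (fun z : Σ j, Fin (s j) => (z.2 : ℕ)) h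
    simp at this
  unfold bnd
  exact sum_choose _ _ hxy n

theorem low_le (j0 : J) (h2 : 1 < s j0) (k : ℕ) (m : ℤ) :
    (Nat.card {c : Fin n → Σ j, Fin (s j) | ht c ≤ m} : ℝ) ≤
      Nat.card {c : Fin n → Σ j, Fin (s j) | ht c ≤ m - 2 * k} +
        k * bnd (Fintype.card (Σ j, Fin (s j))) n := by
  classical
  induction k with
  | zero => simp
  | succ k ih =>
    refine ih.trans ?_
    have h1 : (Nat.card {c : Fin n → Σ j, Fin (s j) | ht c ≤ m - 2 * k} : ℝ) ≤
        Nat.card {c : Fin n → Σ j, Fin (s j) | ht c ≤ m - 2 * ((k + 1 : ℕ) : ℤ)} +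
          bnd (Fintype.card (Σ j, Fin (s j))) n := by
      have h2' := cnt_bnd (n := n) j0 h2 (m - 2 * k)
      have h3 : Nat.card {c : Fin n → Σ j, Fin (s j) | ht c ≤ m - 2 * k} ≤
          Nat.card {c : Fin n → Σ j, Fin (s j) | ht c ≤ m - 2 * ((k + 1 : ℕ) : ℤ)} +
          Nat.card {c : Fin n → Σ j, Fin (s j) | ht c = m - 2 * k ∨ ht c = m - 2 * k - 1} := by
        have e : {c : Fin n → Σ j, Fin (s j) | ht c ≤ m - 2 * k} =
            {c : Fin n → Σ j, Fin (s j) | ht c ≤ m - 2 * ((k + 1 : ℕ) : ℤ)} ∪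
            {c : Fin n → Σ j, Fin (s j) | ht c = m - 2 * k ∨ ht c = m - 2 * k - 1} := by
          ext c
          simp only [Set.mem_ofPred_eq, Set.mem_union]
          push_cast
          omega
        rw [e]
        exact Set.ncard_union_le _ _
      have h4 : (Nat.card {c : Fin n → Σ j, Fin (s j) | ht c ≤ m - 2 * k} : ℝ) ≤
          Nat.card {c : Fin n → Σ j, Fin (s j) | ht c ≤ m - 2 * ((k + 1 : ℕ) : ℤ)} +
          Nat.card {c : Fin n → Σ j, Fin (s j) | ht c = m - 2 * k ∨ ht c = m - 2 * k - 1} := by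
        exact_mod_cast h3
      linarith
    push_cast at h1 ⊢
    linarith

end comb

variable {K V : Type*} [Field K] [AddCommGroup V] [Module K V] {n : ℕ}
variable {J : Type*} {s : J → ℕ}

theorem ker_dn [Fintype J] [CharZero K] (b : Basis (Σ j, Fin (s j)) K V) (k : ℕ) :
    finrank K (LinearMap.ker ((dn n (opN b) : Module.End K _) ^ k)) +
    Nat.card {c : Fin n → Σ j, Fin (s j) | ht c ≤ -k - 1} =
    Nat.card {c : Fin n → Σ j, Fin (s j) | ht c ≤ k - 1} := by
  classical
  have : FiniteDimensional K (⨂[K] _ : Fin n, V) := Module.Basis.finiteDimensional_of_finite (tb n b)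
  rcases Nat.eq_zero_or_pos k with h0 | hk
  · subst h0
    have h1 : LinearMap.ker ((dn n (opN b) : Module.End K _) ^ 0) =
        (⊥ : Submodule K (⨂[K] _ : Fin n, V)) := by
      rw [pow_zero]
      exact LinearMap.ker_id
    rw [h1, finrank_bot]
    simp
  have hli := (tb n b).linearIndependent
  have hcard : ∀ m : ℤ, Nat.card {c : Fin n → Σ j, Fin (s j) | ht c ≤ m} =
      finrank K (pB (n := n) b (fun _ => True) m) := by
    intro m
    rw [card_pB b]
    apply Nat.card_congr
    apply Equiv.setCongr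
    ext c
    simp
  rw [hcard, hcard]
  have htop : pB (n := n) b (fun _ => True) ((n * ∑ j, s j + k : ℕ) : ℤ) = ⊤ := by
    rw [eq_top_iff, ← (tb n b).span_eq]
    apply Submodule.span_mono
    rintro _ ⟨c, rfl⟩
    refine ⟨c, ⟨trivial, ?_⟩, rfl⟩
    have := (ht_le c).1
    push_cast at this ⊢
    linarith
  have key := graded_ker (pA (n := n) b (fun _ => True)) (pB b (fun _ => True))
    (n * ∑ j, s j + k) (2 * k) k (by omega) ?_ ?_ ?_
    (by push_cast; nlinarith [Nat.zero_le (n * ∑ j, s j)])
    (dn n (opN b) ^ k) (dn n (opN b) ^ k) ?_ ?_ ?_ ?_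
  · rw [show (k : ℤ) - 1 - 2 * k = -k - 1 by ring, htop, top_inf_eq] at key
    exact key
  · intro m
    unfold pA pB
    rw [← Submodule.span_union, ← Set.image_union]
    congr 2
    ext c
    simp only [Set.mem_ofPred_eq, Set.mem_union]
    constructor
    · rintro ⟨h1, h2⟩
      rcases h2.eq_or_lt with h2 | h2
      · exact Or.inl ⟨h1, h2⟩
      · exact Or.inr ⟨h1, by omega⟩
    · rintro (⟨h1, h2⟩ | ⟨h1, h2⟩)
      · exact ⟨h1, h2.le⟩
      · exact ⟨h1, by omega⟩
  · intro m
    apply hli.disjoint_span_image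
    rw [Set.disjoint_left]
    rintro c ⟨_, h1⟩ ⟨_, h2⟩
    omega
  · intro m hm
    have : {c : Fin n → Σ j, Fin (s j) | (fun _ => True) (fun i => (c i).1) ∧ ht c ≤ m} = ∅ := by
      ext c
      simp only [Set.mem_ofPred_eq, Set.mem_empty_iff_false, iff_false, not_and]
      intro _ hc
      have := (ht_le c).2
      push_cast at this hm
      linarith
    rw [pB, this, Set.image_empty, Submodule.span_empty]
  · intro m x hx
    have h1 := dn_pow_mem_pA b (fun _ => True) (opN b) (-2) (shift_N b) k m x hx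
    rwa [show m + (k : ℤ) * -2 = m - 2 * k by ring] at h1
  · intro m x hx
    rw [sub_self]
    exact Submodule.zero_mem _
  · intro m hm x hx h
    exact dnN_inj b (fun _ => True) k m hm x hx h
  · intro m hm y hy
    exact dnN_surj b (fun _ => True) k m hm.le y hy

theorem exists_str [FiniteDimensional K V] (N : Module.End K V) (hN : IsNilpotent N) :
    ∃ (J : Type) (_ : Fintype J) (s : J → ℕ) (b : Basis (Σ j, Fin (s j)) K V), N = opN b := by
  obtain ⟨k, hk⟩ := hN
  obtain ⟨P, ι, hι, p, v, hp, hv, -⟩ := Pool.Agent.R686.JT.exists_isJordanType N hk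
  refine ⟨ι, hι, p, v, ?_⟩
  apply v.ext
  rintro ⟨i, a, ha⟩
  have h1 := hv i ⟨a, ha⟩
  by_cases h : a + 1 < p i
  · rw [opN_pos v i a h]
    rw [dif_pos h] at h1
    exact h1
  · rw [opN_last v i a ha h]
    rw [dif_neg h] at h1
    exact h1

/-- The dimension of the kernel of a power of `dn n N`. -/
theorem ker_bnd [FiniteDimensional K V] [CharZero K] (N : Module.End K V) (hN : IsNilpotent N)
    (h0 : N ≠ 0) (n k : ℕ) :
    (finrank K (LinearMap.ker ((dn n N : Module.End K (⨂[K] _ : Fin n, V)) ^ k)) : ℝ) ≤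
      k * bnd (finrank K V) n := by
  classical
  obtain ⟨J, hJ, s, b, rfl⟩ := exists_str N hN
  obtain ⟨j0, h2⟩ : ∃ j0, 1 < s j0 := by
    by_contra hcon
    push Not at hcon
    apply h0
    apply b.ext
    rintro ⟨j, a, ha⟩
    rw [opN_last b j a ha (by have := hcon j; omega), LinearMap.zero_apply]
  have h1 := ker_dn (n := n) b k
  have h3 := low_le (n := n) j0 h2 k ((k : ℤ) - 1)
  rw [show (k : ℤ) - 1 - 2 * k = -k - 1 by ring] at h3
  have h4 : (finrank K (LinearMap.ker ((dn n (opN b) : Module.End K _) ^ k)) : ℝ) +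
    Nat.card {c : Fin n → Σ j, Fin (s j) | ht c ≤ -k - 1} =
    Nat.card {c : Fin n → Σ j, Fin (s j) | ht c ≤ k - 1} := by exact_mod_cast h1
  have h5 : finrank K V = Fintype.card (Σ j, Fin (s j)) := finrank_eq_card_basis b
  rw [h5]
  linarith

end Pool.Agent.U282.ZL
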