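import Mathlib
import Pool.Agent.U282.ZL.Gen2
import Pool.Agent.U282.ZL.Cnt

/-! The zero-one law for semisimple subrepresentations of tensor powers. -/

set_option autoImplicit false

namespace Pool.Agent.U282.ZL

open Pool.Agent.U282.PW Module PiTensorProduct
open scoped TensorProduct

universe u

theorem filt_bound {K V : Type u} {Γ : Type*} [Field K] [CharZero K] [IsAlgClosed K]
    [AddCommGroup V] [Module K V] [FiniteDimensional K V] [Group Γ] (ρ : Representation K Γ V)
    (h : ¬ SSRep ρ) (n k : ℕ) (F : ℕ → Submodule K (⨂[K] _ : Fin n, V)) (h0 : F 0 = ⊥)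
    (hF : ∀ i < k, SSLayer (tpow ρ n) (F i) (F (i + 1))) :
    (finrank K (F k) : ℝ) ≤ k * bnd (finrank K V) n := by
  obtain ⟨N, hN0, hN1, hN2⟩ := exists_nil ρ h
  refine le_trans ?_ (ker_bnd N hN1 hN0 n k)
  have key : ∀ i ≤ k, F i ≤ LinearMap.ker ((dn n N : Module.End K (⨂[K] _ : Fin n, V)) ^ i) := by
    intro i
    induction i with
    | zero =>
      intro _
      rw [h0]
      exact bot_le
    | succ i ih =>
      intro hi v hv
      rw [LinearMap.mem_ker, pow_succ, Module.End.mul_apply]
      exact LinearMap.mem_ker.1 (ih (by omega) (hN2 n _ _ (hF i (by omega)) v hv))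
  exact_mod_cast Submodule.finrank_mono (key k le_rfl)

section transport

variable {K Γ : Type*} [Field K] [Group Γ] {M H : Type*} [AddCommGroup M] [Module K M]
  [AddCommGroup H] [Module K H] (τ : Representation K Γ M) (σ : Representation K Γ H)
  (κ : M →ₗ[K] H)

theorem SSLayer.comap (hκ : Function.Injective κ) (he : ∀ g t, κ (τ g t) = σ g (κ t))
    (F F' : Submodule K H) (hF' : F' ≤ LinearMap.range κ) (h : SSLayer σ F F') :
    SSLayer τ (F.comap κ) (F'.comap κ) where
  le := Submodule.comap_mono h.le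
  lo := by
    intro g v hv
    rw [Submodule.mem_comap] at hv ⊢
    rw [he]
    exact h.lo g _ hv
  up := by
    intro g v hv
    rw [Submodule.mem_comap] at hv ⊢
    rw [he]
    exact h.up g _ hv
  ss := by
    intro U hU hFU hUF'
    obtain ⟨U', hU', h1, h2⟩ := h.ss (U.map κ) (by
      rintro g _ ⟨u, hu, rfl⟩
      exact ⟨_, hU g u hu, he g u⟩) (by
      intro v hv
      obtain ⟨m, rfl⟩ := hF' (h.le hv)
      exact ⟨m, hFU hv, rfl⟩) (by
      rintro _ ⟨u, hu, rfl⟩
      exact hUF' hu)
    refine ⟨U'.comap κ, ?_, ?_, ?_⟩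
    · intro g v hv
      rw [Submodule.mem_comap] at hv ⊢
      rw [he]
      exact hU' g _ hv
    · rw [← h1, Submodule.comap_inf, Submodule.comap_map_eq_of_injective hκ]
    · apply le_antisymm
      · refine sup_le hUF' ?_
        apply Submodule.comap_mono
        rw [← h2]
        exact le_sup_right
      · intro v hv
        rw [Submodule.mem_comap, ← h2, Submodule.mem_sup] at hv
        obtain ⟨_, ⟨u, hu, rfl⟩, b, hb, hab⟩ := hv
        have hbF : b ∈ F' := by
          rw [← h2]
          exact Submodule.mem_sup_right hb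
        obtain ⟨m, rfl⟩ := hF' hbF
        rw [← map_add] at hab
        rw [← hκ hab]
        exact Submodule.add_mem_sup hu hb

theorem SSLayer.map_range (hκ : Function.Injective κ) (he : ∀ g t, κ (τ g t) = σ g (κ t))
    (h : SSRep τ) : SSLayer σ ⊥ (LinearMap.range κ) where
  le := bot_le
  lo := by
    intro g v hv
    rw [Submodule.mem_bot] at hv ⊢
    rw [hv, map_zero]
  up := by
    rintro g _ ⟨v, rfl⟩
    exact ⟨_, he g v⟩
  ss := by
    intro U hU _ hUr
    obtain ⟨U', hU', hc⟩ := h (U.comap κ) (by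
      intro g v hv
      rw [Submodule.mem_comap] at hv ⊢
      rw [he]
      exact hU g _ hv)
    have hUm : (U.comap κ).map κ = U := by
      rw [Submodule.map_comap_eq, inf_eq_right.2 hUr]
    refine ⟨U'.map κ, ?_, ?_, ?_⟩
    · rintro g _ ⟨u, hu, rfl⟩
      exact ⟨_, hU' g u hu, he g u⟩
    · rw [← hUm, ← Submodule.map_inf κ hκ, hc.inf_eq_bot, Submodule.map_bot]
    · rw [← hUm, ← Submodule.map_sup, hc.sup_eq_top, Submodule.map_top]

end transport

theorem finrank_tensor {K V : Type*} [Field K] [AddCommGroup V] [Module K V]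
    [FiniteDimensional K V] (n : ℕ) : finrank K (⨂[K] _ : Fin n, V) = finrank K V ^ n := by
  have b := Basis.piTensorProduct (fun _ : Fin n => Module.finBasis K V)
  rw [Module.finrank_eq_card_basis b]
  simp

end Pool.Agent.U282.ZL
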