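import Mathlib
import Pool.Agent.U282.ZL.Gen2

/-! The operators which kill all simple subquotients decide the semisimplicity of layers. -/

set_option autoImplicit false

namespace Pool.Agent.U282.ZL

open Pool.Agent.U282.PW Module PiTensorProduct
open scoped TensorProduct

attribute [local instance 100] LieRing.ofAssociativeRing

section quot

variable {K M : Type*} [Field K] [AddCommGroup M] [Module K M]

/-- The operators which preserve `F` and `F'`. -/
def stabAlg (F F' : Submodule K M) : Subalgebra K (Module.End K M) where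
  carrier := {T | (∀ v ∈ F, T v ∈ F) ∧ ∀ v ∈ F', T v ∈ F'}
  mul_mem' := by
    rintro S T ⟨h1, h2⟩ ⟨h3, h4⟩
    exact ⟨fun v hv => h1 _ (h3 v hv), fun v hv => h2 _ (h4 v hv)⟩
  add_mem' := by
    rintro S T ⟨h1, h2⟩ ⟨h3, h4⟩
    exact ⟨fun v hv => F.add_mem (h1 v hv) (h3 v hv), fun v hv => F'.add_mem (h2 v hv) (h4 v hv)⟩
  algebraMap_mem' := by
    intro c
    exact ⟨fun v hv => F.smul_mem c hv, fun v hv => F'.smul_mem c hv⟩

/-- The quotient `F' / F`. -/
abbrev Qt (F F' : Submodule K M) : Type _ := F' ⧸ F.comap F'.subtype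

/-- The class of an element of `F'`. -/
def qk (F F' : Submodule K M) (v : M) (hv : v ∈ F') : Qt F F' :=
  (F.comap F'.subtype).mkQ ⟨v, hv⟩

theorem qk_surj (F F' : Submodule K M) (q : Qt F F') : ∃ v, ∃ hv : v ∈ F', qk F F' v hv = q := by
  obtain ⟨⟨v, hv⟩, rfl⟩ := Submodule.mkQ_surjective _ q
  exact ⟨v, hv, rfl⟩

theorem qk_eq_zero (F F' : Submodule K M) (v : M) (hv : v ∈ F') :
    qk F F' v hv = 0 ↔ v ∈ F := by
  rw [qk, Submodule.mkQ_apply, Submodule.Quotient.mk_eq_zero, Submodule.mem_comap]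
  rfl

/-- The action on the quotient. -/
def theta (F F' : Submodule K M) : stabAlg F F' →ₐ[K] Module.End K (Qt F F') where
  toFun := fun T => (F.comap F'.subtype).mapQ (F.comap F'.subtype)
    ((T : Module.End K M).restrict T.2.2) (fun v hv => T.2.1 _ hv)
  map_one' := by
    apply LinearMap.ext
    intro q
    obtain ⟨v, hv, rfl⟩ := qk_surj F F' q
    rfl
  map_mul' := by
    intro S T
    apply LinearMap.ext
    intro q
    obtain ⟨v, hv, rfl⟩ := qk_surj F F' q
    rfl
  map_zero' := by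
    apply LinearMap.ext
    intro q
    obtain ⟨v, hv, rfl⟩ := qk_surj F F' q
    rfl
  map_add' := by
    intro S T
    apply LinearMap.ext
    intro q
    obtain ⟨v, hv, rfl⟩ := qk_surj F F' q
    rfl
  commutes' := by
    intro c
    apply LinearMap.ext
    intro q
    obtain ⟨v, hv, rfl⟩ := qk_surj F F' q
    rfl

theorem theta_qk (F F' : Submodule K M) (T : stabAlg F F') (v : M) (hv : v ∈ F') :
    theta F F' T (qk F F' v hv) = qk F F' (T.1 v) (T.2.2 v hv) := rfl

theorem theta_ss [FiniteDimensional K M] [PerfectField K] (F F' : Submodule K M)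
    (T : stabAlg F F') (h : Module.End.IsSemisimple (T : Module.End K M)) :
    Module.End.IsSemisimple (theta F F' T) := by
  refine Module.End.isSemisimple_of_squarefree_aeval_eq_zero h.minpoly_squarefree ?_
  rw [Polynomial.aeval_algHom_apply]
  have h1 : Polynomial.aeval T (minpoly K (T : Module.End K M)) = 0 := by
    apply Subtype.ext
    have h2 := Polynomial.aeval_algHom_apply (stabAlg F F').val T (minpoly K (T : Module.End K M))
    rw [Subalgebra.coe_val] at h2
    rw [← h2, minpoly.aeval]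
    rfl
  rw [h1, map_zero]

end quot

universe u

section main

variable {K Z : Type u} {Γ : Type*} [Field K] [CharZero K] [IsAlgClosed K]
    [AddCommGroup Z] [Module K Z] [FiniteDimensional K Z] [Group Γ]

/-- The operators which kill the simple subquotients of all tensor powers. -/
def nn (ζ : Representation K Γ Z) : Set (Module.End K Z) :=
  {N | ∀ (n : ℕ) (F W : Submodule K (⨂[K] _ : Fin n, Z)),
    Cover (fun x : tanL ζ => dn n (x : Module.End K Z)) F W → ∀ w ∈ W, dn n N w ∈ F}

theorem nn_layer (ζ : Representation K Γ Z) (N : Module.End K Z) (hN : N ∈ nn ζ) (n : ℕ)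
    (F F' : Submodule K (⨂[K] _ : Fin n, Z)) (h : SSLayer (tpow ζ n) F F') :
    ∀ v ∈ F', dn n N v ∈ F :=
  (good_tpow ζ n).layer (fun a X v => tg_dn ζ a X v) (dn n N) (hN n) F F' h

theorem nn_pres (ζ : Representation K Γ Z) (N : Module.End K Z) (hN : N ∈ nn ζ) (n : ℕ)
    (R : Submodule K (⨂[K] _ : Fin n, Z)) (h : ∀ g, ∀ v ∈ R, tpow ζ n g v ∈ R) :
    ∀ v ∈ R, dn n N v ∈ R :=
  Good.pres (ρ := ζ) (dn n N) (hN n) R (fun x => (good_tpow ζ n).stable R h x.1 x.2)

theorem nn_comm (ζ : Representation K Γ Z) (x y : tanL ζ)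
    (hx : x ∈ LieAlgebra.radical K (tanL ζ)) :
    (x : Module.End K Z) * (y : Module.End K Z) - (y : Module.End K Z) * (x : Module.End K Z) ∈
      nn ζ := by
  have : FiniteDimensional K (tanL ζ) :=
    inferInstanceAs (FiniteDimensional K (tanL ζ).toSubmodule)
  intro n F W h w hw
  have h1 := comm_case (dnHom (tanL ζ) n) F W h x y hx w hw
  have h2 : (dn n ((x : Module.End K Z) * (y : Module.End K Z) -
      (y : Module.End K Z) * (x : Module.End K Z)) : Module.End K (⨂[K] _ : Fin n, Z)) =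
      dnHom (tanL ζ) n x * dnHom (tanL ζ) n y - dnHom (tanL ζ) n y * dnHom (tanL ζ) n x := by
    have h3 := (dnHom (tanL ζ) n).map_lie x y
    rw [Ring.lie_def] at h3
    rw [← h3]
    rfl
  rw [h2]
  exact h1

theorem nn_nil (ζ : Representation K Γ Z) (x : tanL ζ)
    (hx : x ∈ LieAlgebra.radical K (tanL ζ)) :
    ∃ N S : Module.End K Z, (x : Module.End K Z) = N + S ∧ N ∈ nn ζ ∧ S.IsSemisimple := by
  have : FiniteDimensional K (tanL ζ) :=
    inferInstanceAs (FiniteDimensional K (tanL ζ).toSubmodule)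
  obtain ⟨N, hN1, S, hS1, hN2, hS2, hzN⟩ :=
    Module.End.exists_isNilpotent_isSemisimple (f := (x : Module.End K Z))
  have hNS : Commute N S :=
    (Algebra.commute_of_mem_adjoin_singleton_of_commute hN1
      (Algebra.commute_of_mem_adjoin_singleton_of_commute hS1 (Commute.refl _)).symm).symm
  refine ⟨N, S, hzN, ?_, hS2⟩
  intro n F W h w hw
  obtain ⟨c, hc⟩ := scal (dnHom (tanL ζ) n) F W h.1 h.2.1 h.2.2.1 h.2.2.2 x hx
  exact nil_part _ _ (dn_part (x : Module.End K Z) N S hzN hN2 hS2 hNS) (dn_isNilpotent hN2)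
    F W h.1.le (h.2.1 x) c hc w hw

theorem nn_conj (ζ : Representation K Γ Z) (a : Γ) (N : Module.End K Z) (hN : N ∈ nn ζ) :
    (ζ a * N * ζ a⁻¹ : Module.End K Z) ∈ nn ζ := by
  intro n F W h w hw
  have hcs : ∀ (a : Γ) (Y : Submodule K (⨂[K] _ : Fin n, Z)),
      (∀ x : tanL ζ, ∀ v ∈ Y, dn n (x : Module.End K Z) v ∈ Y) →
      ∀ x : tanL ζ, ∀ v ∈ Y.comap (tpow ζ n a), dn n (x : Module.End K Z) v ∈
        Y.comap (tpow ζ n a) := by
    intro a Y hY x v hv
    rw [Submodule.mem_comap] at hv ⊢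
    have h1 : tpow ζ n a (dn n (x : Module.End K Z) v) =
        dn n (ζ a * x * ζ a⁻¹ : Module.End K Z) (tpow ζ n a v) := tg_dn ζ a x v
    rw [h1]
    exact hY ⟨_, tanL_conj ζ a x.1 x.2⟩ _ hv
  have hc : Cover (fun x : tanL ζ => dn n (x : Module.End K Z)) (F.comap (tpow ζ n a))
      (W.comap (tpow ζ n a)) := by
    refine ⟨?_, hcs a F h.2.1, hcs a W h.2.2.1, ?_⟩
    · refine lt_of_le_of_ne (Submodule.comap_mono h.1.le) ?_
      intro e
      obtain ⟨y, hy, hyF⟩ := SetLike.exists_of_lt h.1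
      apply hyF
      have h1 : tpow ζ n a⁻¹ y ∈ W.comap (tpow ζ n a) := by
        rw [Submodule.mem_comap, rep_inv']; exact hy
      rw [← e, Submodule.mem_comap, rep_inv'] at h1
      exact h1
    · intro Y hY hFY hYW
      rcases h.2.2.2 (Y.comap (tpow ζ n a⁻¹)) (hcs a⁻¹ Y hY)
        (fun v hv => hFY (by rw [Submodule.mem_comap, rep_inv']; exact hv))
        (fun v hv => by
          have := hYW hv
          rwa [Submodule.mem_comap, rep_inv'] at this) with e | e
      · left
        apply le_antisymm _ hFY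
        intro v hv
        rw [Submodule.mem_comap, ← e, Submodule.mem_comap, rep_inv]
        exact hv
      · right
        apply le_antisymm hYW
        intro v hv
        rw [Submodule.mem_comap, ← e, Submodule.mem_comap, rep_inv] at hv
        exact hv
  have h1 := hN n _ _ hc (tpow ζ n a⁻¹ w) (by rw [Submodule.mem_comap, rep_inv']; exact hw)
  rw [Submodule.mem_comap] at h1
  have h2 : tpow ζ n a (dn n N (tpow ζ n a⁻¹ w)) =
      dn n (ζ a * N * ζ a⁻¹ : Module.End K Z) (tpow ζ n a (tpow ζ n a⁻¹ w)) := tg_dn ζ a N _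
  rw [h2, rep_inv'] at h1
  exact h1

end main

end Pool.Agent.U282.ZL
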