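import Mathlib
import Pool.Agent.U282.ZL.Lo1

/-! Chains of semisimple layers and words in the operators. -/

set_option autoImplicit false
set_option linter.unusedSectionVars false

namespace Pool.Agent.U282.ZL

open Pool.Agent.U282.PW Module PiTensorProduct
open scoped TensorProduct

attribute [local instance 100] LieRing.ofAssociativeRing

universe u

section main

variable {K Z : Type u} {Γ : Type*} [Field K] [CharZero K] [IsAlgClosed K]
    [AddCommGroup Z] [Module K Z] [FiniteDimensional K Z] [Group Γ]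

/-- The quotient representation. -/
noncomputable def qrep {M : Type*} [AddCommGroup M] [Module K M] (τ : Representation K Γ M)
    (F F' : Submodule K M) (h1 : ∀ g, ∀ v ∈ F, τ g v ∈ F) (h2 : ∀ g, ∀ v ∈ F', τ g v ∈ F') :
    Representation K Γ (Qt F F') where
  toFun := fun g => theta F F' ⟨τ g, h1 g, h2 g⟩
  map_one' := by
    rw [← map_one (theta F F')]
    congr 1
    apply Subtype.ext
    exact map_one τ
  map_mul' := by
    intro a b
    rw [← map_mul (theta F F')]
    congr 1
    apply Subtype.ext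
    exact map_mul τ a b

theorem qrep_qk {M : Type*} [AddCommGroup M] [Module K M] (τ : Representation K Γ M)
    (F F' : Submodule K M) (h1 : ∀ g, ∀ v ∈ F, τ g v ∈ F) (h2 : ∀ g, ∀ v ∈ F', τ g v ∈ F')
    (g : Γ) (v : M) (hv : v ∈ F') :
    qrep τ F F' h1 h2 g (qk F F' v hv) = qk F F' (τ g v) (h2 g v hv) := rfl

theorem layer_of_qrep {M : Type*} [AddCommGroup M] [Module K M] (τ : Representation K Γ M)
    (F F' : Submodule K M) (hle : F ≤ F') (h1 : ∀ g, ∀ v ∈ F, τ g v ∈ F)
    (h2 : ∀ g, ∀ v ∈ F', τ g v ∈ F') (h : SSRep (qrep τ F F' h1 h2)) : SSLayer τ F F' where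
  le := hle
  lo := h1
  up := h2
  ss := by
    intro U hU hFU hUF'
    let q : F' →ₗ[K] Qt F F' := (F.comap F'.subtype).mkQ
    have hq : ∀ v (hv : v ∈ F'), q ⟨v, hv⟩ = qk F F' v hv := fun v hv => rfl
    obtain ⟨Y, hY, hc⟩ := h ((U.comap F'.subtype).map q) (by
      rintro g _ ⟨⟨v, hv⟩, hvU, rfl⟩
      exact ⟨⟨τ g v, h2 g v hv⟩, hU g v hvU, rfl⟩)
    refine ⟨(Y.comap q).map F'.subtype, ?_, ?_, ?_⟩
    · rintro g _ ⟨⟨v, hv⟩, hvY, rfl⟩
      exact ⟨⟨τ g v, h2 g v hv⟩, hY g _ hvY, rfl⟩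
    · apply le_antisymm
      · rintro v ⟨hvU, ⟨v', hv'⟩, hvY, rfl⟩
        have h3 : qk F F' v' hv' ∈ (U.comap F'.subtype).map q ⊓ Y :=
          ⟨⟨⟨v', hv'⟩, hvU, rfl⟩, hvY⟩
        rw [hc.inf_eq_bot, Submodule.mem_bot, qk_eq_zero] at h3
        exact h3
      · intro v hv
        refine ⟨hFU hv, ⟨v, hle hv⟩, ?_, rfl⟩
        show qk F F' v (hle hv) ∈ Y
        rw [(qk_eq_zero F F' v (hle hv)).2 hv]
        exact Y.zero_mem
    · apply le_antisymm
      · refine sup_le hUF' ?_
        rintro _ ⟨⟨v, hv⟩, _, rfl⟩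
        exact hv
      · intro v hv
        have h3 : qk F F' v hv ∈ (U.comap F'.subtype).map q ⊔ Y := by
          rw [hc.sup_eq_top]; trivial
        obtain ⟨_, ⟨⟨a, ha⟩, haU, rfl⟩, y, hy, hay⟩ := Submodule.mem_sup.1 h3
        rw [Submodule.mem_sup]
        refine ⟨a, haU, v - a, ⟨⟨v - a, F'.sub_mem hv ha⟩, ?_, rfl⟩, by abel⟩
        have h4 : q ⟨v - a, F'.sub_mem hv ha⟩ = y := by
          have h5 : (⟨v - a, F'.sub_mem hv ha⟩ : F') = ⟨v, hv⟩ - ⟨a, ha⟩ := rfl
          rw [h5, map_sub, sub_eq_iff_eq_add, add_comm y, hay]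
          rfl
        show q ⟨v - a, F'.sub_mem hv ha⟩ ∈ Y
        rw [h4]
        exact hy

/-- A layer which is killed is semisimple. -/
theorem layer_of_kill (ζ : Representation K Γ Z) (n : ℕ) (F F' : Submodule K (⨂[K] _ : Fin n, Z))
    (hle : F ≤ F') (h1 : ∀ g, ∀ v ∈ F, tpow ζ n g v ∈ F)
    (h2 : ∀ g, ∀ v ∈ F', tpow ζ n g v ∈ F') (h : ∀ N ∈ nn ζ, ∀ v ∈ F', dn n N v ∈ F) :
    SSLayer (tpow ζ n) F F' := by
  classical
  refine layer_of_qrep (tpow ζ n) F F' hle h1 h2 ?_
  have : FiniteDimensional K (tanL ζ) :=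
    inferInstanceAs (FiniteDimensional K (tanL ζ).toSubmodule)
  have hst : ∀ x : tanL ζ, (dn n (x : Module.End K Z) : Module.End K (⨂[K] _ : Fin n, Z)) ∈
      stabAlg F F' := fun x =>
    ⟨(good_tpow ζ n).stable F h1 x.1 x.2, (good_tpow ζ n).stable F' h2 x.1 x.2⟩
  let φ : tanL ζ →ₗ⁅K⁆ Module.End K (Qt F F') :=
    { toFun := fun x => theta F F' ⟨_, hst x⟩
      map_add' := fun x y => by
        rw [← map_add (theta F F')]
        congr 1
        apply Subtype.ext
        exact (dnHom (tanL ζ) n).map_add x y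
      map_smul' := fun c x => by
        rw [RingHom.id_apply, ← map_smul (theta F F')]
        congr 1
        apply Subtype.ext
        exact (dnHom (tanL ζ) n).map_smul c x
      map_lie' := by
        intro x y
        rw [Ring.lie_def, ← map_mul (theta F F'), ← map_mul (theta F F'), ← map_sub (theta F F')]
        congr 1
        apply Subtype.ext
        exact (dnHom (tanL ζ) n).map_lie x y }
  have hφ : ∀ x (v : ⨂[K] _ : Fin n, Z) (hv : v ∈ F'), φ x (qk F F' v hv) =
      qk F F' (dn n (x : Module.End K Z) v) ((hst x).2 v hv) := fun x v hv => rfl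
  have hcomm : ∀ x ∈ LieAlgebra.radical K (tanL ζ), ∀ y : tanL ζ, Commute (φ x) (φ y) := by
    intro x hx y
    apply LinearMap.ext
    intro q
    obtain ⟨v, hv, rfl⟩ := qk_surj F F' q
    rw [Module.End.mul_apply, Module.End.mul_apply, hφ, hφ, hφ, hφ, ← sub_eq_zero]
    have h3 := h _ (nn_comm ζ x y hx) v hv
    have h4 : (dn n ((x : Module.End K Z) * (y : Module.End K Z) -
        (y : Module.End K Z) * (x : Module.End K Z)) : Module.End K (⨂[K] _ : Fin n, Z)) v =
        dn n (x : Module.End K Z) (dn n (y : Module.End K Z) v) -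
          dn n (y : Module.End K Z) (dn n (x : Module.End K Z) v) := by
      have h5 := (dnHom (tanL ζ) n).map_lie x y
      rw [Ring.lie_def] at h5
      exact LinearMap.congr_fun h5 v
    rw [h4] at h3
    exact (qk_eq_zero F F' _ (F'.sub_mem ((hst x).2 _ ((hst y).2 v hv))
      ((hst y).2 _ ((hst x).2 v hv)))).2 h3
  have hss : ∀ x ∈ LieAlgebra.radical K (tanL ζ), Module.End.IsSemisimple (φ x) := by
    intro x hx
    obtain ⟨N, S, hxN, hN, hS⟩ := nn_nil ζ x hx
    have hNst : (dn n N : Module.End K (⨂[K] _ : Fin n, Z)) ∈ stabAlg F F' :=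
      ⟨nn_pres ζ N hN n F h1, nn_pres ζ N hN n F' h2⟩
    have hSst : (dn n S : Module.End K (⨂[K] _ : Fin n, Z)) ∈ stabAlg F F' := by
      have h3 : (dn n S : Module.End K (⨂[K] _ : Fin n, Z)) =
          dn n (x : Module.End K Z) - dn n N := by
        rw [hxN, dn_add, add_sub_cancel_left]
      rw [h3]
      exact (stabAlg F F').sub_mem (hst x) hNst
    have h4 : φ x = theta F F' ⟨_, hSst⟩ := by
      apply LinearMap.ext
      intro q
      obtain ⟨v, hv, rfl⟩ := qk_surj F F' q
      rw [hφ, theta_qk, ← sub_eq_zero]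
      refine (qk_eq_zero F F' _ (F'.sub_mem ((hst x).2 v hv) (hSst.2 v hv))).2 ?_
      have h5 : dn n (x : Module.End K Z) v - dn n S v = dn n N v := by
        rw [hxN, dn_add, LinearMap.add_apply, add_sub_cancel_right]
      rw [h5]
      exact h N hN v hv
    rw [h4]
    exact theta_ss F F' _ (dn_ss n hS)
  let st : Module.End K Z → Module.End K (Qt F F') := fun X =>
    if hX : X ∈ tanL ζ then φ ⟨X, hX⟩ else 0
  have hst' : ∀ X (hX : X ∈ tanL ζ), st X = φ ⟨X, hX⟩ := fun X hX => dif_pos hX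
  have hG : Good ζ (qrep (tpow ζ n) F F' h1 h2) st := by
    intro δ X hδ hX η t
    obtain ⟨v, hv, rfl⟩ := qk_surj F F' t
    have hXL : X ∈ tanL ζ := (mem_tanL ζ X).2 ⟨δ, hδ, hX⟩
    obtain ⟨ξ, hξ⟩ := LinearMap.exists_extend (η ∘ₗ (F.comap F'.subtype).mkQ)
    have hξ' : ∀ w (hw : w ∈ F'), ξ w = η (qk F F' w hw) := fun w hw =>
      LinearMap.congr_fun hξ ⟨w, hw⟩
    obtain ⟨f, hf1, hf2⟩ := good_tpow ζ n δ X hδ hX ξ v
    refine ⟨f, fun g => ?_, ?_⟩
    · rw [hf1, qrep_qk, hξ']
    · rw [hf2, hst' X hXL, hφ, hξ']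
  refine hG.transfer ?_
  intro W hW
  obtain ⟨W', hW', hc⟩ := ss_of_rad' φ hcomm hss W (fun x w hw => by
    have := hW x.1 x.2 w hw
    rwa [hst' x.1 x.2] at this)
  exact ⟨W', fun X hX w hw => by
    rw [hst' X hX]
    exact hW' ⟨X, hX⟩ w hw, hc⟩

/-- The product of the operators of a word. -/
noncomputable def wd (n : ℕ) (l : List (Module.End K Z)) : Module.End K (⨂[K] _ : Fin n, Z) :=
  (l.map (fun N => (dn n N : Module.End K (⨂[K] _ : Fin n, Z)))).prod

theorem wd_nil (n : ℕ) : wd (K := K) (Z := Z) n [] = 1 := rfl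

theorem wd_cons (n : ℕ) (N : Module.End K Z) (l : List (Module.End K Z)) :
    wd n (N :: l) = dn n N * wd n l := by
  rw [wd, wd, List.map_cons, List.prod_cons]

theorem wd_append (n : ℕ) (l l' : List (Module.End K Z)) :
    wd n (l ++ l') = wd n l * wd n l' := by
  rw [wd, wd, wd, List.map_append, List.prod_append]

/-- A chain of semisimple layers from zero to `R`. -/
def IsFilt {M : Type*} [AddCommGroup M] [Module K M] (τ : Representation K Γ M)
    (R : Submodule K M) (k : ℕ) : Prop :=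
  ∃ F : ℕ → Submodule K M, F 0 = ⊥ ∧ F k = R ∧ ∀ i < k, SSLayer τ (F i) (F (i + 1))

theorem word_kill (ζ : Representation K Γ Z) (n k : ℕ) (F : ℕ → Submodule K (⨂[K] _ : Fin n, Z))
    (hF : ∀ i < k, SSLayer (tpow ζ n) (F i) (F (i + 1))) :
    ∀ (l : List (Module.End K Z)) (i : ℕ), (∀ N ∈ l, N ∈ nn ζ) → i + l.length ≤ k →
      ∀ v ∈ F (i + l.length), wd n l v ∈ F i := by
  intro l
  induction l with
  | nil => intro i _ _ v hv; exact hv
  | cons N l ih =>
    intro i hl hi v hv
    rw [wd_cons, Module.End.mul_apply]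
    rw [List.length_cons] at hi hv
    refine nn_layer ζ N (hl N (List.mem_cons_self)) n (F i) (F (i + 1)) (hF i (by omega)) _ ?_
    refine ih (i + 1) (fun N' hN' => hl N' (List.mem_cons_of_mem _ hN')) (by omega) v ?_
    rwa [show i + 1 + l.length = i + (l.length + 1) by omega]

theorem wd_conj (ζ : Representation K Γ Z) (n : ℕ) (a : Γ) (l : List (Module.End K Z))
    (v : ⨂[K] _ : Fin n, Z) :
    tpow ζ n a (wd n l v) = wd n (l.map (fun N => ζ a * N * ζ a⁻¹)) (tpow ζ n a v) := by
  induction l with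
  | nil => rfl
  | cons N l ih =>
    rw [wd_cons, List.map_cons, wd_cons, Module.End.mul_apply, Module.End.mul_apply, ← ih]
    exact tg_dn ζ a N _

/-- A stable subspace has a filtration of length `k` with semisimple layers if and only if it is
killed by the words of length `k`. -/
theorem filt_iff (ζ : Representation K Γ Z) (n k : ℕ) (R : Submodule K (⨂[K] _ : Fin n, Z))
    (hR : ∀ g, ∀ v ∈ R, tpow ζ n g v ∈ R) :
    IsFilt (tpow ζ n) R k ↔ ∀ l : List (Module.End K Z), (∀ N ∈ l, N ∈ nn ζ) → l.length = k →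
      ∀ v ∈ R, wd n l v = 0 := by
  constructor
  · rintro ⟨F, h0, hk, hF⟩ l hl hlk v hv
    have h1 := word_kill ζ n k F hF l 0 hl (by omega) v (by rw [zero_add, hlk, hk]; exact hv)
    rw [h0] at h1
    exact (Submodule.mem_bot K).1 h1
  · intro h
    let G : ℕ → Submodule K (⨂[K] _ : Fin n, Z) := fun j =>
      R ⊓ ⨅ l : {l : List (Module.End K Z) // (∀ N ∈ l, N ∈ nn ζ) ∧ l.length = j},
        LinearMap.ker (wd n l.1)
    have hG : ∀ j v, v ∈ G j ↔ v ∈ R ∧ ∀ l : List (Module.End K Z), (∀ N ∈ l, N ∈ nn ζ) →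
        l.length = j → wd n l v = 0 := by
      intro j v
      show v ∈ R ⊓ _ ↔ _
      rw [Submodule.mem_inf, Submodule.mem_iInf]
      constructor
      · rintro ⟨h1, h2⟩
        exact ⟨h1, fun l h3 h4 => h2 ⟨l, h3, h4⟩⟩
      · rintro ⟨h1, h2⟩
        exact ⟨h1, fun l => h2 l.1 l.2.1 l.2.2⟩
    have hst : ∀ j g, ∀ v ∈ G j, tpow ζ n g v ∈ G j := by
      intro j g v hv
      rw [hG] at hv ⊢
      refine ⟨hR g v hv.1, fun l hl hlj => ?_⟩
      have h1 := wd_conj ζ n g⁻¹ l (tpow ζ n g v)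
      rw [rep_inv, hv.2 _ ?_ (by rw [List.length_map, hlj])] at h1
      · have h2 := congrArg (tpow ζ n g) h1
        rw [rep_inv', map_zero] at h2
        exact h2
      · intro N hN
        obtain ⟨N', hN', rfl⟩ := List.mem_map.1 hN
        exact nn_conj ζ g⁻¹ N' (hl N' hN')
    refine ⟨G, ?_, ?_, ?_⟩
    · rw [eq_bot_iff]
      intro v hv
      rw [hG] at hv
      exact (Submodule.mem_bot K).2 (hv.2 [] (by simp) rfl)
    · apply le_antisymm
      · intro v hv
        exact ((hG k v).1 hv).1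
      · intro v hv
        rw [hG]
        exact ⟨hv, fun l hl hlk => h l hl hlk v hv⟩
    · intro j _
      refine layer_of_kill ζ n _ _ ?_ (hst j) (hst (j + 1)) ?_
      · intro v hv
        rw [hG] at hv ⊢
        refine ⟨hv.1, fun l hl hlj => ?_⟩
        cases l with
        | nil => exact absurd hlj (by simp)
        | cons N l =>
          rw [wd_cons, Module.End.mul_apply, hv.2 l (fun N' hN' => hl N'
            (List.mem_cons_of_mem _ hN')) (by simpa using hlj), map_zero]
      · intro N hN v hv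
        rw [hG] at hv ⊢
        refine ⟨nn_pres ζ N hN n R hR v hv.1, fun l hl hlj => ?_⟩
        have h1 := hv.2 (l ++ [N]) (by
          intro N' hN'
          rcases List.mem_append.1 hN' with h2 | h2
          · exact hl N' h2
          · rw [List.mem_singleton.1 h2]; exact hN) (by simp [hlj])
        rw [wd_append, wd_cons, wd_nil, mul_one, Module.End.mul_apply] at h1
        exact h1

end main

end Pool.Agent.U282.ZL
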