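import Mathlib

/-! Words in two nilpotent families acting on a tensor product: shuffles. -/

set_option autoImplicit false

namespace Pool.Agent.U282.ZL.Lo

open Module
open scoped TensorProduct

/-- The ways to split a word into two complementary subwords. -/
def split {ι : Type*} : List ι → List (List ι × List ι)
  | [] => [([], [])]
  | i :: w => (split w).map (fun s => (i :: s.1, s.2)) ++ (split w).map (fun s => (s.1, i :: s.2))

theorem split_length {ι : Type*} (w : List ι) :
    ∀ s ∈ split w, s.1.length + s.2.length = w.length := by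
  induction w with
  | nil =>
    intro s hs
    rw [split, List.mem_singleton] at hs
    subst hs
    rfl
  | cons i w ih =>
    intro s hs
    rw [split, List.mem_append, List.mem_map, List.mem_map] at hs
    rcases hs with ⟨t, ht, rfl⟩ | ⟨t, ht, rfl⟩
    · have := ih t ht
      simp only [List.length_cons]
      omega
    · have := ih t ht
      simp only [List.length_cons]
      omega

theorem split_append {ι : Type*} (u v : List ι) : (u, v) ∈ split (u ++ v) := by
  induction u with
  | nil =>
    rw [List.nil_append]
    induction v with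
    | nil => exact List.mem_singleton_self _
    | cons i v ih =>
      rw [split, List.mem_append]
      right
      exact List.mem_map.2 ⟨_, ih, rfl⟩
  | cons i u ih =>
    rw [List.cons_append, split, List.mem_append]
    left
    exact List.mem_map.2 ⟨_, ih, rfl⟩

/-- The value of a word. -/
def wval {m : ℕ} : List (Fin m) → ℕ
  | [] => 0
  | i :: l => (i : ℕ) * m ^ l.length + wval l

theorem wval_lt {m : ℕ} (l : List (Fin m)) : wval l < m ^ l.length := by
  induction l with
  | nil => simp [wval]
  | cons i l ih =>
    rw [wval, List.length_cons, pow_succ]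
    have h1 : (i : ℕ) + 1 ≤ m := i.2
    calc (i : ℕ) * m ^ l.length + wval l < (i : ℕ) * m ^ l.length + m ^ l.length := by omega
      _ = ((i : ℕ) + 1) * m ^ l.length := by ring
      _ ≤ m * m ^ l.length := Nat.mul_le_mul_right _ h1
      _ = m ^ l.length * m := by ring

theorem wval_head {m : ℕ} {i j : Fin m} {u v : List (Fin m)} (h : u.length = v.length)
    (hv : wval (i :: u) ≤ wval (j :: v)) : i ≤ j := by
  by_contra hcon
  push Not at hcon
  have h1 : (j : ℕ) + 1 ≤ i := hcon
  rw [wval, wval, h] at hv
  have h2 := wval_lt v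
  have h3 : ((j : ℕ) + 1) * m ^ v.length ≤ i * m ^ v.length := Nat.mul_le_mul_right _ h1
  have h4 : ((j : ℕ) + 1) * m ^ v.length = j * m ^ v.length + m ^ v.length := by ring
  omega

theorem wval_lt_of_head {m : ℕ} {i j : Fin m} {u v : List (Fin m)} (h : u.length = v.length)
    (hij : i < j) : wval (i :: u) < wval (j :: v) := by
  by_contra hcon
  push Not at hcon
  exact absurd (wval_head h.symm hcon) (not_le.2 hij)

theorem split_mono {m : ℕ} (w : List (Fin m)) : ∀ s ∈ split w, ∀ u v : List (Fin m),
    u.length = s.1.length → v.length = s.2.length → wval s.1 ≤ wval u → wval s.2 ≤ wval v →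
    ∃ w' : List (Fin m), w'.length = w.length ∧ (u, v) ∈ split w' ∧ wval w ≤ wval w' ∧
      (wval w = wval w' → u = s.1 ∧ v = s.2) := by
  induction w with
  | nil =>
    intro s hs u v hu hv _ _
    rw [split, List.mem_singleton] at hs
    subst hs
    have hu' : u = [] := List.length_eq_zero_iff.1 hu
    have hv' : v = [] := List.length_eq_zero_iff.1 hv
    subst hu'
    subst hv'
    exact ⟨[], rfl, List.mem_singleton_self _, le_rfl, fun _ => ⟨rfl, rfl⟩⟩
  | cons i w ih =>
    intro s hs u v hu hv huv hvv
    rw [split, List.mem_append, List.mem_map, List.mem_map] at hs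
    rcases hs with ⟨t, ht, rfl⟩ | ⟨t, ht, rfl⟩
    · cases u with
      | nil => exact absurd hu (by simp)
      | cons j u =>
        simp only [List.length_cons, Nat.add_right_cancel_iff] at hu
        simp only at hv hvv huv
        have hlen := split_length w t ht
        rcases lt_or_eq_of_le (wval_head hu.symm huv) with hij | hij
        · have h1 : (u ++ v).length = w.length := by rw [List.length_append]; omega
          refine ⟨j :: (u ++ v), by simp [h1], ?_, (wval_lt_of_head h1.symm hij).le, ?_⟩
          · rw [split, List.mem_append]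
            left
            exact List.mem_map.2 ⟨_, split_append u v, rfl⟩
          · intro h
            exact absurd h (wval_lt_of_head h1.symm hij).ne
        · subst hij
          rw [wval, wval, hu] at huv
          obtain ⟨w', h1, h2, h3, h4⟩ := ih t ht u v hu hv (by omega) hvv
          refine ⟨i :: w', by simp [h1], ?_, ?_, ?_⟩
          · rw [split, List.mem_append]
            left
            exact List.mem_map.2 ⟨_, h2, rfl⟩
          · rw [wval, wval, h1]; omega
          · intro h
            rw [wval, wval, h1] at h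
            obtain ⟨h5, h6⟩ := h4 (by omega)
            exact ⟨by rw [h5], h6⟩
    · cases v with
      | nil => exact absurd hv (by simp)
      | cons j v =>
        simp only [List.length_cons, Nat.add_right_cancel_iff] at hv
        simp only at hu hvv huv
        have hlen := split_length w t ht
        rcases lt_or_eq_of_le (wval_head hv.symm hvv) with hij | hij
        · have h1 : (u ++ v).length = w.length := by rw [List.length_append]; omega
          refine ⟨j :: (u ++ v), by simp [h1], ?_, (wval_lt_of_head h1.symm hij).le, ?_⟩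
          · rw [split, List.mem_append]
            right
            exact List.mem_map.2 ⟨_, split_append u v, rfl⟩
          · intro h
            exact absurd h (wval_lt_of_head h1.symm hij).ne
        · subst hij
          rw [wval, wval, hv] at hvv
          obtain ⟨w', h1, h2, h3, h4⟩ := ih t ht u v hu hv huv (by omega)
          refine ⟨i :: w', by simp [h1], ?_, ?_, ?_⟩
          · rw [split, List.mem_append]
            right
            exact List.mem_map.2 ⟨_, h2, rfl⟩
          · rw [wval, wval, h1]; omega
          · intro h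
            rw [wval, wval, h1] at h
            obtain ⟨h5, h6⟩ := h4 (by omega)
            exact ⟨h5, by rw [h6]⟩

theorem exists_max {m : ℕ} (P : List (Fin m) → Prop) (M : ℕ) (h : ∃ u, P u)
    (hM : ∀ u, P u → wval u < M) : ∃ u, P u ∧ ∀ u', P u' → wval u' ≤ wval u := by
  let S : Set ℕ := {n | ∃ u, P u ∧ wval u = n}
  have h1 : S.Nonempty := by
    obtain ⟨u, hu⟩ := h
    exact ⟨_, u, hu, rfl⟩
  have h2 : BddAbove S := by
    refine ⟨M, ?_⟩
    rintro _ ⟨u, hu, rfl⟩
    exact (hM u hu).le
  obtain ⟨u, hu, huS⟩ := Nat.sSup_mem h1 h2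
  refine ⟨u, hu, fun u' hu' => ?_⟩
  rw [huS]
  exact le_csSup h2 ⟨u', hu', rfl⟩

theorem sum_ite_list {α K : Type*} [DecidableEq α] [AddCommMonoid K] (l : List α) (a : α)
    (c : K) : ∃ n : ℕ, (a ∈ l → 0 < n) ∧
      (l.map (fun s => if s = a then c else 0)).sum = n • c := by
  induction l with
  | nil => exact ⟨0, fun h => absurd h (by simp), by simp⟩
  | cons b l ih =>
    obtain ⟨n, hn, hs⟩ := ih
    rw [List.map_cons, List.sum_cons, hs]
    by_cases h : b = a
    · exact ⟨n + 1, fun _ => Nat.succ_pos n, by rw [if_pos h, succ_nsmul, add_comm]⟩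
    · refine ⟨n, fun h1 => ?_, by rw [if_neg h, zero_add]⟩
      rcases List.mem_cons.1 h1 with h2 | h2
      · exact absurd h2.symm h
      · exact hn h2

section words

variable {K A B ι : Type*} [Field K] [AddCommGroup A] [Module K A] [AddCommGroup B] [Module K B]

/-- The product of the operators of a word. -/
def wp (x : ι → Module.End K A) (l : List ι) : Module.End K A := (l.map x).prod

theorem wp_nil (x : ι → Module.End K A) : wp x [] = 1 := rfl

theorem wp_cons (x : ι → Module.End K A) (i : ι) (l : List ι) : wp x (i :: l) = x i * wp x l := by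
  rw [wp, wp, List.map_cons, List.prod_cons]

theorem wp_append (x : ι → Module.End K A) (l l' : List ι) :
    wp x (l ++ l') = wp x l * wp x l' := by
  rw [wp, wp, wp, List.map_append, List.prod_append]

/-- The operator on the tensor product. -/
def tens (x : ι → Module.End K A) (y : ι → Module.End K B) (i : ι) :
    Module.End K (A ⊗[K] B) :=
  TensorProduct.map (x i) LinearMap.id + TensorProduct.map LinearMap.id (y i)

theorem wp_tens (x : ι → Module.End K A) (y : ι → Module.End K B) (w : List ι) (a : A) (b : B) :
    wp (tens x y) w (a ⊗ₜ[K] b) =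
      ((split w).map (fun s => wp x s.1 a ⊗ₜ[K] wp y s.2 b)).sum := by
  induction w with
  | nil =>
    simp [split, wp_nil]
  | cons i w ih =>
    rw [wp_cons, Module.End.mul_apply, ih, split, List.map_append, List.sum_append, List.map_map,
      List.map_map, map_list_sum, List.map_map]
    have h1 : ∀ L : List (List ι × List ι),
        (L.map (⇑(tens x y i) ∘ fun s => wp x s.1 a ⊗ₜ[K] wp y s.2 b)).sum =
        (L.map ((fun s : List ι × List ι => wp x s.1 a ⊗ₜ[K] wp y s.2 b) ∘
          fun s => (i :: s.1, s.2))).sum +
        (L.map ((fun s : List ι × List ι => wp x s.1 a ⊗ₜ[K] wp y s.2 b) ∘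
          fun s => (s.1, i :: s.2))).sum := by
      intro L
      induction L with
      | nil => simp
      | cons s L ihL =>
        rw [List.map_cons, List.map_cons, List.map_cons, List.sum_cons, List.sum_cons,
          List.sum_cons, ihL]
        have h2 : (⇑(tens x y i) ∘ fun s : List ι × List ι => wp x s.1 a ⊗ₜ[K] wp y s.2 b) s =
            ((fun s : List ι × List ι => wp x s.1 a ⊗ₜ[K] wp y s.2 b) ∘
              fun s => (i :: s.1, s.2)) s +
            ((fun s : List ι × List ι => wp x s.1 a ⊗ₜ[K] wp y s.2 b) ∘
              fun s => (s.1, i :: s.2)) s := by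
          simp only [Function.comp_apply, wp_cons]
          rfl
        rw [h2]
        abel
    exact h1 _

/-- Words of the sum of the lengths do not vanish on the tensor product. -/
theorem shuffle_ne [CharZero K] {m : ℕ} (x : Fin m → Module.End K A) (y : Fin m → Module.End K B)
    (p q : ℕ) (hp : ∀ u : List (Fin m), p < u.length → wp x u = 0)
    (hq : ∀ u : List (Fin m), q < u.length → wp y u = 0)
    (hp' : ∃ u : List (Fin m), u.length = p ∧ wp x u ≠ 0)
    (hq' : ∃ u : List (Fin m), u.length = q ∧ wp y u ≠ 0) :
    ∃ w : List (Fin m), w.length = p + q ∧ wp (tens x y) w ≠ 0 := by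
  classical
  obtain ⟨u, ⟨hu, hu0⟩, hum⟩ := exists_max (fun u : List (Fin m) => u.length = p ∧ wp x u ≠ 0)
    (m ^ p) hp' (fun u hu => by rw [← hu.1]; exact wval_lt u)
  obtain ⟨v, ⟨hv, hv0⟩, hvm⟩ := exists_max (fun u : List (Fin m) => u.length = q ∧ wp y u ≠ 0)
    (m ^ q) hq' (fun u hu => by rw [← hu.1]; exact wval_lt u)
  obtain ⟨w, ⟨hw, hws⟩, hwm⟩ := exists_max
    (fun w : List (Fin m) => w.length = p + q ∧ (u, v) ∈ split w) (m ^ (p + q))
    ⟨u ++ v, by rw [List.length_append, hu, hv], split_append u v⟩
    (fun u hu => by rw [← hu.1]; exact wval_lt u)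
  refine ⟨w, hw, ?_⟩
  obtain ⟨a, ha⟩ : ∃ a, wp x u a ≠ 0 := by
    by_contra hcon
    push Not at hcon
    exact hu0 (LinearMap.ext hcon)
  obtain ⟨b, hb⟩ : ∃ b, wp y v b ≠ 0 := by
    by_contra hcon
    push Not at hcon
    exact hv0 (LinearMap.ext hcon)
  obtain ⟨ξ, hξ⟩ : ∃ ξ : Dual K A, ξ (wp x u a) ≠ 0 := by
    by_contra hcon
    push Not at hcon
    exact ha ((Module.forall_dual_apply_eq_zero_iff K _).1 hcon)
  obtain ⟨η, hη⟩ : ∃ η : Dual K B, η (wp y v b) ≠ 0 := by
    by_contra hcon
    push Not at hcon
    exact hb ((Module.forall_dual_apply_eq_zero_iff K _).1 hcon)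
  intro h0
  have h1 : TensorProduct.dualDistrib K A B (ξ ⊗ₜ[K] η) (wp (tens x y) w (a ⊗ₜ[K] b)) = 0 := by
    rw [h0, LinearMap.zero_apply, map_zero]
  rw [wp_tens, map_list_sum, List.map_map] at h1
  have h2 : (split w).map (⇑(TensorProduct.dualDistrib K A B (ξ ⊗ₜ[K] η)) ∘
      fun s => wp x s.1 a ⊗ₜ[K] wp y s.2 b) =
      (split w).map (fun s => if s = (u, v) then ξ (wp x u a) * η (wp y v b) else 0) := by
    refine List.map_congr_left fun s hs => ?_
    rw [Function.comp_apply, TensorProduct.dualDistrib_apply]
    by_cases hsuv : s = (u, v)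
    · rw [if_pos hsuv, hsuv]
    · rw [if_neg hsuv]
      have hlen := split_length w s hs
      rcases Nat.lt_trichotomy s.1.length p with h3 | h3 | h3
      · rw [hq s.2 (by omega), LinearMap.zero_apply, map_zero, mul_zero]
      · by_cases h4 : wp x s.1 = 0
        · rw [h4, LinearMap.zero_apply, map_zero, zero_mul]
        · by_cases h5 : wp y s.2 = 0
          · rw [h5, LinearMap.zero_apply, map_zero, mul_zero]
          · exfalso
            obtain ⟨w', h6, h7, h8, h9⟩ := split_mono w s hs u v (by omega) (by omega)
              (hum s.1 ⟨h3, h4⟩) (hvm s.2 ⟨by omega, h5⟩)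
            have h10 := hwm w' ⟨by omega, h7⟩
            obtain ⟨h11, h12⟩ := h9 (le_antisymm h8 h10)
            exact hsuv (Prod.ext h11.symm h12.symm)
      · rw [hp s.1 h3, LinearMap.zero_apply, map_zero, zero_mul]
  obtain ⟨n, hn, hs⟩ := sum_ite_list (split w) (u, v) (ξ (wp x u a) * η (wp y v b))
  rw [h2, hs, nsmul_eq_mul] at h1
  rcases mul_eq_zero.1 h1 with h4 | h4
  · rw [Nat.cast_eq_zero] at h4
    have := hn hws
    omega
  · exact (mul_ne_zero hξ hη) h4

/-- Long words vanish on the tensor product. -/
theorem tens_zero {ι : Type*} (x : ι → Module.End K A) (y : ι → Module.End K B) (p q : ℕ)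
    (P : ι → Prop)
    (hp : ∀ u : List ι, (∀ i ∈ u, P i) → p ≤ u.length → wp x u = 0)
    (hq : ∀ u : List ι, (∀ i ∈ u, P i) → q ≤ u.length → wp y u = 0) (w : List ι)
    (hP : ∀ i ∈ w, P i) (hw : p + q ≤ w.length + 1) : wp (tens x y) w = 0 := by
  apply TensorProduct.ext'
  intro a b
  rw [wp_tens, LinearMap.zero_apply]
  have hmem : ∀ (w : List ι), (∀ i ∈ w, P i) → ∀ s ∈ split w, (∀ i ∈ s.1, P i) ∧
      ∀ i ∈ s.2, P i := by
    intro w
    induction w with
    | nil =>
      intro _ s hs
      rw [split, List.mem_singleton] at hs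
      subst hs
      exact ⟨fun i hi => absurd hi (by simp), fun i hi => absurd hi (by simp)⟩
    | cons j w ih =>
      intro hP s hs
      have hP' : ∀ i ∈ w, P i := fun i hi => hP i (List.mem_cons_of_mem _ hi)
      have hj : P j := hP j List.mem_cons_self
      rw [split, List.mem_append, List.mem_map, List.mem_map] at hs
      rcases hs with ⟨t, ht, rfl⟩ | ⟨t, ht, rfl⟩
      · obtain ⟨h1, h2⟩ := ih hP' t ht
        refine ⟨fun i hi => ?_, h2⟩
        rcases List.mem_cons.1 hi with rfl | hi
        · exact hj
        · exact h1 i hi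
      · obtain ⟨h1, h2⟩ := ih hP' t ht
        refine ⟨h1, fun i hi => ?_⟩
        rcases List.mem_cons.1 hi with rfl | hi
        · exact hj
        · exact h2 i hi
  refine List.sum_eq_zero ?_
  intro z hz
  obtain ⟨s, hs, rfl⟩ := List.mem_map.1 hz
  have hlen := split_length w s hs
  obtain ⟨h1, h2⟩ := hmem w hP s hs
  rcases Nat.lt_or_ge s.1.length p with h3 | h3
  · rw [hq s.2 h2 (by omega), LinearMap.zero_apply, TensorProduct.tmul_zero]
  · rw [hp s.1 h1 h3, LinearMap.zero_apply, TensorProduct.zero_tmul]

end words

end Pool.Agent.U282.ZL.Lo
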