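import Mathlib
import Pool.Agent.U282.ZL.Lo2
import Pool.Agent.U282.ZL.Lo3
import Pool.Agent.U282.ZL.Mo2
import Pool.Agent.U282.ZL.Fil

/-! The Loewy length is additive. -/

set_option autoImplicit false
set_option linter.unusedSectionVars false

namespace Pool.Agent.U282.ZL

open Pool.Agent.U282.PW Module PiTensorProduct Pool.Agent.U282.ZL.Lo
open scoped TensorProduct

section transport

variable {K Γ : Type*} [Field K] [Group Γ] {A M : Type*} [AddCommGroup A] [Module K A]
  [AddCommGroup M] [Module K M] (τ : Representation K Γ A) (σ : Representation K Γ M)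
  (κ : A →ₗ[K] M)

theorem SSLayer.map (hκ : Function.Injective κ) (he : ∀ g t, κ (τ g t) = σ g (κ t))
    (F F' : Submodule K A) (h : SSLayer τ F F') : SSLayer σ (F.map κ) (F'.map κ) where
  le := Submodule.map_mono h.le
  lo := by
    rintro g _ ⟨v, hv, rfl⟩
    exact ⟨τ g v, h.lo g v hv, he g v⟩
  up := by
    rintro g _ ⟨v, hv, rfl⟩
    exact ⟨τ g v, h.up g v hv, he g v⟩
  ss := by
    intro U hU h1 h2
    have h3 : (U.comap κ).map κ = U := by
      rw [Submodule.map_comap_eq, inf_eq_right]
      exact h2.trans LinearMap.map_le_range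
    obtain ⟨U', hU', h4, h5⟩ := h.ss (U.comap κ) (by
      intro g v hv
      rw [Submodule.mem_comap] at hv ⊢
      rw [he]
      exact hU g _ hv) (by
      intro v hv
      exact h1 ⟨v, hv, rfl⟩) (by
      intro v hv
      obtain ⟨w, hw, hwv⟩ := h2 hv
      rwa [← hκ hwv])
    refine ⟨U'.map κ, ?_, ?_, ?_⟩
    · rintro g _ ⟨v, hv, rfl⟩
      exact ⟨τ g v, hU' g v hv, he g v⟩
    · rw [← h4, Submodule.map_inf κ hκ, h3]
    · rw [← h5, Submodule.map_sup, h3]

theorem isFilt_iff (hκ : Function.Injective κ) (he : ∀ g t, κ (τ g t) = σ g (κ t)) (k : ℕ) :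
    IsFilt τ ⊤ k ↔ IsFilt σ (LinearMap.range κ) k := by
  constructor
  · rintro ⟨F, h0, hk, hF⟩
    refine ⟨fun i => (F i).map κ, ?_, ?_, fun i hi => SSLayer.map τ σ κ hκ he _ _ (hF i hi)⟩
    · show (F 0).map κ = ⊥
      rw [h0, Submodule.map_bot]
    · show (F k).map κ = _
      rw [hk, Submodule.map_top]
  · rintro ⟨F, h0, hk, hF⟩
    have hle : ∀ j, j ≤ k → F (k - j) ≤ LinearMap.range κ := by
      intro j
      induction j with
      | zero => intro _; exact hk.le
      | succ j ih =>
        intro hj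
        have h1 := (hF (k - (j + 1)) (by omega)).le
        rw [show k - (j + 1) + 1 = k - j by omega] at h1
        exact h1.trans (ih (by omega))
    refine ⟨fun i => (F i).comap κ, ?_, ?_, fun i hi => SSLayer.comap τ σ κ hκ he _ _ ?_
      (hF i hi)⟩
    · show (F 0).comap κ = ⊥
      rw [h0]
      exact LinearMap.ker_eq_bot.2 hκ
    · show (F k).comap κ = ⊤
      rw [hk, eq_top_iff]
      intro v _
      exact ⟨v, rfl⟩
    · have := hle (k - (i + 1)) (by omega)
      rwa [show k - (k - (i + 1)) = i + 1 by omega] at this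

/-- Every representation of finite dimension has a finite filtration with semisimple layers. -/
theorem exists_filt [FiniteDimensional K A] : ∃ k, IsFilt τ ⊤ k := by
  have key : ∀ F : Submodule K A, (∀ g, ∀ v ∈ F, τ g v ∈ F) → ∃ (k : ℕ) (G : ℕ → Submodule K A),
      G 0 = F ∧ G k = ⊤ ∧ ∀ i < k, SSLayer τ (G i) (G (i + 1)) := by
    intro F
    induction F using (wellFounded_gt (α := Submodule K A)).induction with
    | _ F ih =>
      intro hF
      by_cases ht : F = ⊤
      · exact ⟨0, fun _ => F, rfl, ht, fun i hi => absurd hi (by omega)⟩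
      · obtain ⟨U, _, hU⟩ := exists_cover' (fun g : Γ => τ g) F ⊤ (lt_top_iff_ne_top.2 ht) hF
          (fun _ _ _ => trivial)
        obtain ⟨k, G, h0, hk, hG⟩ := ih U hU.1 hU.2.2.1
        have hlay : SSLayer τ F U := by
          refine ⟨hU.1.le, hF, hU.2.2.1, fun Y hY h1 h2 => ?_⟩
          rcases hU.2.2.2 Y hY h1 h2 with e | e
          · exact ⟨U, hU.2.2.1, by rw [e]; exact inf_eq_left.2 hU.1.le,
              by rw [e]; exact sup_eq_right.2 hU.1.le⟩
          · exact ⟨F, hF, by rw [e]; exact inf_eq_right.2 hU.1.le,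
              by rw [e]; exact sup_eq_left.2 hU.1.le⟩
        refine ⟨k + 1, fun i => if i = 0 then F else G (i - 1), rfl, ?_, ?_⟩
        · show (if k + 1 = 0 then F else G (k + 1 - 1)) = ⊤
          rw [if_neg (Nat.succ_ne_zero k), Nat.add_sub_cancel, hk]
        · intro i hi
          rcases Nat.eq_zero_or_pos i with h3 | h3
          · subst h3
            show SSLayer τ F (G 0)
            rw [h0]
            exact hlay
          · have h4 : (if i = 0 then F else G (i - 1)) = G (i - 1) := if_neg h3.ne'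
            have h5 : (if i + 1 = 0 then F else G (i + 1 - 1)) = G (i - 1 + 1) := by
              rw [if_neg (Nat.succ_ne_zero i), Nat.add_sub_cancel, Nat.sub_add_cancel h3]
            show SSLayer τ (if i = 0 then F else G (i - 1)) (if i + 1 = 0 then F else G (i + 1 - 1))
            rw [h4, h5]
            exact hG (i - 1) (by omega)
  obtain ⟨k, G, h0, hk, hG⟩ := key ⊥ (fun g v hv => by
    rw [Submodule.mem_bot] at hv ⊢
    rw [hv, map_zero])
  exact ⟨k, G, h0, hk, hG⟩

end transport

section powers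

variable {K Z : Type*} [Field K] [AddCommGroup Z] [Module K Z]

/-- The first tensor power. -/
noncomputable def e1 : Z ≃ₗ[K] ⨂[K] _ : Fin 1, Z :=
  (subsingletonEquiv (R := K) (s := fun _ : Fin 1 => Z) 0).symm

theorem e1_apply (z : Z) : e1 (K := K) z = tprod K (fun _ => z) :=
  subsingletonEquiv_symm_apply' _ _

theorem dn_e1 (N : Module.End K Z) (z : Z) : dn 1 N (e1 z) = e1 (K := K) (N z) := by
  rw [e1_apply, e1_apply, dn, LinearMap.sum_apply, Fin.sum_univ_one, atF_tprod]
  congr 1
  funext i
  rw [Subsingleton.elim i 0, Function.update_self]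

theorem append_update_l {X : Type*} {n m : ℕ} (a : Fin n → X) (b : Fin m → X) (i : Fin n) (x : X) :
    Function.update (Fin.append a b) (Fin.castAdd m i) x = Fin.append (Function.update a i x) b := by
  funext j
  refine Fin.addCases (fun j => ?_) (fun j => ?_) j
  · by_cases h : j = i
    · subst h
      rw [Function.update_self, Fin.append_left, Function.update_self]
    · rw [Function.update_of_ne, Fin.append_left, Fin.append_left, Function.update_of_ne h]
      intro e
      exact h (Fin.castAdd_injective n m e)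
  · rw [Function.update_of_ne, Fin.append_right, Fin.append_right]
    intro e
    have := congrArg Fin.val e
    simp only [Fin.val_natAdd, Fin.val_castAdd] at this
    omega

theorem append_update_r {X : Type*} {n m : ℕ} (a : Fin n → X) (b : Fin m → X) (i : Fin m) (x : X) :
    Function.update (Fin.append a b) (Fin.natAdd n i) x = Fin.append a (Function.update b i x) := by
  funext j
  refine Fin.addCases (fun j => ?_) (fun j => ?_) j
  · rw [Function.update_of_ne, Fin.append_left, Fin.append_left]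
    intro e
    have := congrArg Fin.val e
    simp only [Fin.val_natAdd, Fin.val_castAdd] at this
    omega
  · by_cases h : j = i
    · subst h
      rw [Function.update_self, Fin.append_right, Function.update_self]
    · rw [Function.update_of_ne, Fin.append_right, Fin.append_right, Function.update_of_ne h]
      intro e
      exact h (Fin.natAdd_injective m n e)

theorem dn_mulE (n m : ℕ) (N : Module.End K Z)
    (z : (⨂[K] _ : Fin n, Z) ⊗[K] (⨂[K] _ : Fin m, Z)) :
    dn (n + m) N (mulE n m z) =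
      mulE n m (TensorProduct.map (dn n N) LinearMap.id z) +
        mulE n m (TensorProduct.map LinearMap.id (dn m N) z) := by
  have h : (dn (n + m) N ∘ₗ (mulE n m).toLinearMap :
      (⨂[K] _ : Fin n, Z) ⊗[K] (⨂[K] _ : Fin m, Z) →ₗ[K] _) =
      (mulE n m).toLinearMap ∘ₗ (TensorProduct.map (dn n N) LinearMap.id) +
        (mulE n m).toLinearMap ∘ₗ (TensorProduct.map LinearMap.id (dn m N)) := by
    apply ext2
    intro a b
    show dn (n + m) N (mulE n m (tprod K a ⊗ₜ[K] tprod K b)) =
      mulE n m (dn n N (tprod K a) ⊗ₜ[K] tprod K b) +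
        mulE n m (tprod K a ⊗ₜ[K] dn m N (tprod K b))
    rw [mulE_tprod, dn, LinearMap.sum_apply, Fin.sum_univ_add, dn, dn, LinearMap.sum_apply,
      LinearMap.sum_apply, TensorProduct.sum_tmul, TensorProduct.tmul_sum, map_sum,
      map_sum]
    congr 1
    · refine Finset.sum_congr rfl fun i _ => ?_
      rw [atF_tprod, atF_tprod, mulE_tprod, append_update_l, Fin.append_left]
    · refine Finset.sum_congr rfl fun i _ => ?_
      rw [atF_tprod, atF_tprod, mulE_tprod, append_update_r, Fin.append_right]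
  exact LinearMap.congr_fun h z

end powers

universe u

section main

variable {K Z : Type u} {Γ : Type*} [Field K] [CharZero K] [IsAlgClosed K]
    [AddCommGroup Z] [Module K Z] [FiniteDimensional K Z] [Group Γ]

/-- The filtrations of a representation embedded in a tensor power. -/
theorem filt_words (ζ : Representation K Γ Z) (n : ℕ) {A : Type*} [AddCommGroup A] [Module K A]
    (τ : Representation K Γ A) (κ : A →ₗ[K] ⨂[K] _ : Fin n, Z) (hκ : Function.Injective κ)
    (he : ∀ g t, κ (τ g t) = tpow ζ n g (κ t)) (x : Module.End K Z → Module.End K A)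
    (hx : ∀ N ∈ nn ζ, ∀ a, dn n N (κ a) = κ (x N a)) (k : ℕ) :
    IsFilt τ ⊤ k ↔ ∀ l : List (Module.End K Z), (∀ N ∈ l, N ∈ nn ζ) → l.length = k →
      wp x l = 0 := by
  rw [isFilt_iff τ (tpow ζ n) κ hκ he k, filt_iff ζ n k _ (by
    rintro g _ ⟨v, rfl⟩
    exact ⟨τ g v, he g v⟩)]
  have hw : ∀ l : List (Module.End K Z), (∀ N ∈ l, N ∈ nn ζ) → ∀ a,
      wd n l (κ a) = κ (wp x l a) := by
    intro l
    induction l with
    | nil => intro _ a; rfl
    | cons N l ih =>
      intro hl a
      rw [wd_cons, wp_cons, Module.End.mul_apply, Module.End.mul_apply,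
        ih (fun N' hN' => hl N' (List.mem_cons_of_mem _ hN')), hx N (hl N List.mem_cons_self)]
  constructor
  · intro h l hl hlk
    apply LinearMap.ext
    intro a
    apply hκ
    rw [← hw l hl, h l hl hlk _ ⟨a, rfl⟩, LinearMap.zero_apply, map_zero]
  · rintro h l hl hlk _ ⟨a, rfl⟩
    rw [hw l hl, h l hl hlk, LinearMap.zero_apply, map_zero]

/-- The representation has a filtration of length `k` with semisimple quotients: its Loewy length
is at most `k`. -/
def HasLoewy {V Γ : Type*} [AddCommGroup V] [Module K V] [Group Γ]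
    (ρ : Representation K Γ V) (k : ℕ) : Prop := IsFilt ρ ⊤ k

variable {V W : Type u} [AddCommGroup V] [Module K V] [FiniteDimensional K V]
  [AddCommGroup W] [Module K W] [FiniteDimensional K W]

/-- The component of an operator. -/
def cV (N : Module.End K (V × W)) : Module.End K V :=
  LinearMap.fst K V W ∘ₗ N ∘ₗ LinearMap.inl K V W

/-- The component of an operator. -/
def cW (N : Module.End K (V × W)) : Module.End K W :=
  LinearMap.snd K V W ∘ₗ N ∘ₗ LinearMap.inr K V W

/-- The embeddings. -/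
noncomputable def kV : V →ₗ[K] ⨂[K] _ : Fin 1, (V × W) :=
  (e1 (K := K) (Z := V × W)).toLinearMap ∘ₗ LinearMap.inl K V W

/-- The embeddings. -/
noncomputable def kW : W →ₗ[K] ⨂[K] _ : Fin 1, (V × W) :=
  (e1 (K := K) (Z := V × W)).toLinearMap ∘ₗ LinearMap.inr K V W

theorem kV_inj : Function.Injective (kV (K := K) (V := V) (W := W)) :=
  (e1 (K := K) (Z := V × W)).injective.comp LinearMap.inl_injective

theorem kW_inj : Function.Injective (kW (K := K) (V := V) (W := W)) :=
  (e1 (K := K) (Z := V × W)).injective.comp LinearMap.inr_injective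

theorem tpow_e1 (ζ : Representation K Γ Z) (g : Γ) (z : Z) :
    tpow ζ 1 g (e1 z) = e1 (K := K) (ζ g z) := by
  rw [e1_apply, e1_apply]
  exact PiTensorProduct.map_tprod _ _

theorem kV_act (ρ : Representation K Γ V) (σ : Representation K Γ W) (g : Γ) (v : V) :
    kV (ρ g v) = tpow (ρ.prod σ) 1 g (kV v) := by
  show e1 (ρ g v, (0 : W)) = tpow (ρ.prod σ) 1 g (e1 (v, (0 : W)))
  rw [tpow_e1]
  congr 1
  show (ρ g v, (0 : W)) = (ρ g v, σ g 0)
  rw [map_zero]

theorem kW_act (ρ : Representation K Γ V) (σ : Representation K Γ W) (g : Γ) (w : W) :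
    kW (σ g w) = tpow (ρ.prod σ) 1 g (kW w) := by
  show e1 ((0 : V), σ g w) = tpow (ρ.prod σ) 1 g (e1 ((0 : V), w))
  rw [tpow_e1]
  congr 1
  show ((0 : V), σ g w) = (ρ g 0, σ g w)
  rw [map_zero]

theorem kV_op (ρ : Representation K Γ V) (σ : Representation K Γ W)
    (N : Module.End K (V × W)) (hN : N ∈ nn (ρ.prod σ)) (v : V) :
    dn 1 N (kV v) = kV (cV N v) := by
  have h1 := nn_pres (ρ.prod σ) N hN 1 (LinearMap.range (kV (K := K) (V := V) (W := W))) (by
    rintro g _ ⟨v, rfl⟩
    exact ⟨ρ g v, kV_act ρ σ g v⟩) (kV v) ⟨v, rfl⟩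
  obtain ⟨v', hv'⟩ := h1
  have h2 : dn 1 N (kV v) = e1 (K := K) (N (v, (0 : W))) := dn_e1 N (v, (0 : W))
  rw [h2] at hv' ⊢
  have h3 : (v', (0 : W)) = N (v, 0) := (e1 (K := K) (Z := V × W)).injective hv'
  show e1 (N (v, (0 : W))) = e1 ((N (v, (0 : W))).1, (0 : W))
  rw [← h3]

theorem kW_op (ρ : Representation K Γ V) (σ : Representation K Γ W)
    (N : Module.End K (V × W)) (hN : N ∈ nn (ρ.prod σ)) (w : W) :
    dn 1 N (kW w) = kW (cW N w) := by
  have h1 := nn_pres (ρ.prod σ) N hN 1 (LinearMap.range (kW (K := K) (V := V) (W := W))) (by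
    rintro g _ ⟨w, rfl⟩
    exact ⟨σ g w, kW_act ρ σ g w⟩) (kW w) ⟨w, rfl⟩
  obtain ⟨w', hw'⟩ := h1
  have h2 : dn 1 N (kW w) = e1 (K := K) (N ((0 : V), w)) := dn_e1 N ((0 : V), w)
  rw [h2] at hw' ⊢
  have h3 : ((0 : V), w') = N (0, w) := (e1 (K := K) (Z := V × W)).injective hw'
  show e1 (N ((0 : V), w)) = e1 ((0 : V), (N ((0 : V), w)).2)
  rw [← h3]

/-- The embedding of the tensor product. -/
noncomputable def kT : V ⊗[K] W →ₗ[K] ⨂[K] _ : Fin (1 + 1), (V × W) :=
  (mulE (K := K) (V := V × W) 1 1).toLinearMap ∘ₗ TensorProduct.map kV kW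

theorem kT_inj : Function.Injective (kT (K := K) (V := V) (W := W)) :=
  (mulE (K := K) (V := V × W) 1 1).injective.comp
    (TensorProduct.map_injective_of_flat_flat kV kW kV_inj kW_inj)

theorem kT_act (ρ : Representation K Γ V) (σ : Representation K Γ W) (g : Γ) (t : V ⊗[K] W) :
    kT ((ρ.tprod σ) g t) = tpow (ρ.prod σ) (1 + 1) g (kT t) := by
  show mulE 1 1 (TensorProduct.map kV kW ((ρ.tprod σ) g t)) =
    tpow (ρ.prod σ) (1 + 1) g (mulE 1 1 (TensorProduct.map kV kW t))
  rw [← mulE_act]
  congr 1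
  have h : (TensorProduct.map kV kW : V ⊗[K] W →ₗ[K] _) ∘ₗ (ρ.tprod σ) g =
      (((tpow (ρ.prod σ) 1).tprod (tpow (ρ.prod σ) 1)) g) ∘ₗ TensorProduct.map kV kW := by
    apply TensorProduct.ext'
    intro v w
    show kV (ρ g v) ⊗ₜ[K] kW (σ g w) =
      tpow (ρ.prod σ) 1 g (kV v) ⊗ₜ[K] tpow (ρ.prod σ) 1 g (kW w)
    rw [kV_act ρ σ, kW_act ρ σ]
  exact LinearMap.congr_fun h t

theorem kT_op (ρ : Representation K Γ V) (σ : Representation K Γ W)
    (N : Module.End K (V × W)) (hN : N ∈ nn (ρ.prod σ)) (t : V ⊗[K] W) :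
    dn (1 + 1) N (kT t) = kT (tens cV cW N t) := by
  show dn (1 + 1) N (mulE 1 1 (TensorProduct.map kV kW t)) =
    mulE 1 1 (TensorProduct.map kV kW (tens cV cW N t))
  rw [dn_mulE, ← map_add]
  congr 1
  have h : TensorProduct.map (dn 1 N) LinearMap.id ∘ₗ TensorProduct.map kV kW +
      TensorProduct.map LinearMap.id (dn 1 N) ∘ₗ TensorProduct.map kV kW =
      (TensorProduct.map kV kW : V ⊗[K] W →ₗ[K] _) ∘ₗ tens cV cW N := by
    apply TensorProduct.ext'
    intro v w
    show dn 1 N (kV v) ⊗ₜ[K] kW w + kV v ⊗ₜ[K] dn 1 N (kW w) =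
      TensorProduct.map kV kW (cV N v ⊗ₜ[K] w + v ⊗ₜ[K] cW N w)
    rw [kV_op ρ σ N hN, kW_op ρ σ N hN, map_add]
    rfl
  exact LinearMap.congr_fun h t

/-- The Loewy length of a tensor product. -/
theorem loewy_tprod [Nontrivial V] [Nontrivial W] (ρ : Representation K Γ V)
    (σ : Representation K Γ W) (k : ℕ) :
    HasLoewy (ρ.tprod σ) k ↔ ∃ p q, HasLoewy ρ p ∧ HasLoewy σ q ∧ p + q ≤ k + 1 := by
  classical
  have hV : ∀ p, HasLoewy ρ p ↔ ∀ l : List (Module.End K (V × W)), (∀ N ∈ l, N ∈ nn (ρ.prod σ)) →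
      l.length = p → wp cV l = 0 := fun p =>
    filt_words (ρ.prod σ) 1 ρ kV kV_inj (kV_act ρ σ) cV (kV_op ρ σ) p
  have hW : ∀ p, HasLoewy σ p ↔ ∀ l : List (Module.End K (V × W)), (∀ N ∈ l, N ∈ nn (ρ.prod σ)) →
      l.length = p → wp cW l = 0 := fun p =>
    filt_words (ρ.prod σ) 1 σ kW kW_inj (kW_act ρ σ) cW (kW_op ρ σ) p
  have hT : ∀ p, HasLoewy (ρ.tprod σ) p ↔ ∀ l : List (Module.End K (V × W)),
      (∀ N ∈ l, N ∈ nn (ρ.prod σ)) → l.length = p → wp (tens cV cW) l = 0 := fun p =>
    filt_words (ρ.prod σ) (1 + 1) (ρ.tprod σ) kT kT_inj (kT_act ρ σ) (tens cV cW) (kT_op ρ σ) p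
  have hlong : ∀ {A : Type u} [AddCommGroup A] [Module K A]
      (x : Module.End K (V × W) → Module.End K A) (p : ℕ),
      (∀ l : List (Module.End K (V × W)), (∀ N ∈ l, N ∈ nn (ρ.prod σ)) →
        l.length = p → wp x l = 0) →
      ∀ l : List (Module.End K (V × W)), (∀ N ∈ l, N ∈ nn (ρ.prod σ)) →
        p ≤ l.length → wp x l = 0 := by
    intro A _ _ x p h l hl hp
    rw [← List.take_append_drop p l, wp_append, h (l.take p)
      (fun N hN => hl N (List.mem_of_mem_take hN)) (by rw [List.length_take]; omega), zero_mul]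
  constructor
  · intro h
    rw [hT] at h
    have hp : ∃ p, HasLoewy ρ p := exists_filt ρ
    have hq : ∃ q, HasLoewy σ q := exists_filt σ
    refine ⟨Nat.find hp, Nat.find hq, Nat.find_spec hp, Nat.find_spec hq, ?_⟩
    by_contra hcon
    push Not at hcon
    have hp0 : Nat.find hp ≠ 0 := by
      intro h0
      have h1 := Nat.find_spec hp
      rw [h0, hV] at h1
      have h2 := h1 [] (by simp) rfl
      rw [wp_nil] at h2
      exact one_ne_zero h2
    have hq0 : Nat.find hq ≠ 0 := by
      intro h0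
      have h1 := Nat.find_spec hq
      rw [h0, hW] at h1
      have h2 := h1 [] (by simp) rfl
      rw [wp_nil] at h2
      exact one_ne_zero h2
    have h3 := Nat.find_min hp (m := Nat.find hp - 1) (by omega)
    have h4 := Nat.find_min hq (m := Nat.find hq - 1) (by omega)
    rw [hV] at h3
    rw [hW] at h4
    push Not at h3 h4
    obtain ⟨lA, hlA, hlA', hA⟩ := h3
    obtain ⟨lB, hlB, hlB', hB⟩ := h4
    let L : List (Module.End K (V × W)) := lA ++ lB
    let e : Fin L.length → Module.End K (V × W) := fun i => L.get i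
    have hL : ∀ N ∈ L, N ∈ nn (ρ.prod σ) := by
      intro N hN
      rcases List.mem_append.1 hN with h5 | h5
      · exact hlA N h5
      · exact hlB N h5
    have he : ∀ i, e i ∈ nn (ρ.prod σ) := fun i => hL _ (List.get_mem L i)
    have hlift : ∀ l : List (Module.End K (V × W)), (∀ N ∈ l, N ∈ L) →
        ∃ u : List (Fin L.length), u.map e = l := by
      intro l
      induction l with
      | nil => intro _; exact ⟨[], rfl⟩
      | cons N l ih =>
        intro hl
        obtain ⟨u, hu⟩ := ih (fun N' hN' => hl N' (List.mem_cons_of_mem _ hN'))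
        obtain ⟨i, hi⟩ := List.get_of_mem (hl N List.mem_cons_self)
        exact ⟨i :: u, by rw [List.map_cons, hu]; exact congrArg (· :: l) hi⟩
    have hwp : ∀ {A : Type u} [AddCommGroup A] [Module K A]
        (x : Module.End K (V × W) → Module.End K A) (u : List (Fin L.length)),
        wp (fun i => x (e i)) u = wp x (u.map e) := by
      intro A _ _ x u
      rw [wp, wp, List.map_map]
      rfl
    obtain ⟨uA, huA⟩ := hlift lA (fun N hN => List.mem_append_left _ hN)
    obtain ⟨uB, huB⟩ := hlift lB (fun N hN => List.mem_append_right _ hN)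
    have hmem : ∀ u : List (Fin L.length), ∀ N ∈ u.map e, N ∈ nn (ρ.prod σ) := by
      intro u N hN
      obtain ⟨i, _, rfl⟩ := List.mem_map.1 hN
      exact he i
    obtain ⟨w, hw, hw0⟩ := shuffle_ne (fun i => cV (e i)) (fun i => cW (e i))
      (Nat.find hp - 1) (Nat.find hq - 1)
      (fun u hu => by
        rw [hwp]
        exact hlong cV (Nat.find hp) ((hV _).1 (Nat.find_spec hp)) _ (hmem u)
          (by rw [List.length_map]; omega))
      (fun u hu => by
        rw [hwp]
        exact hlong cW (Nat.find hq) ((hW _).1 (Nat.find_spec hq)) _ (hmem u)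
          (by rw [List.length_map]; omega))
      ⟨uA, by rw [← hlA', ← huA, List.length_map], by rw [hwp, huA]; exact hA⟩
      ⟨uB, by rw [← hlB', ← huB, List.length_map], by rw [hwp, huB]; exact hB⟩
    apply hw0
    have h5 : wp (tens (fun i => cV (e i)) (fun i => cW (e i))) w =
        wp (tens cV cW) (w.map e) := by
      rw [wp, wp, List.map_map]
      rfl
    rw [h5]
    exact hlong (tens cV cW) k h _ (hmem w) (by rw [List.length_map, hw]; omega)
  · rintro ⟨p, q, h1, h2, h3⟩
    rw [hT]
    intro l hl hlk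
    exact tens_zero cV cW p q (fun N => N ∈ nn (ρ.prod σ)) (hlong cV p ((hV p).1 h1))
      (hlong cW q ((hW q).1 h2)) l hl (by omega)

end main

end Pool.Agent.U282.ZL
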