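import Mathlib
import Pool.Agent.U282.ZL.Lo4

/-! The Loewy lengths of the tensor powers. -/

set_option autoImplicit false
set_option linter.unusedSectionVars false

namespace Pool.Agent.U282.ZL

open Module PiTensorProduct
open scoped TensorProduct

section basic

variable {K Γ : Type*} [Field K] [Group Γ] {A M : Type*} [AddCommGroup A] [Module K A]
  [AddCommGroup M] [Module K M] (τ : Representation K Γ A) (σ : Representation K Γ M)
  (κ : A →ₗ[K] M)

theorem SSLayer.inf (R : Submodule K M) (hR : ∀ g, ∀ v ∈ R, σ g v ∈ R) (F F' : Submodule K M)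
    (h : SSLayer σ F F') : SSLayer σ (F ⊓ R) (F' ⊓ R) where
  le := inf_le_inf_right R h.le
  lo := fun g v hv => ⟨h.lo g v hv.1, hR g v hv.2⟩
  up := fun g v hv => ⟨h.up g v hv.1, hR g v hv.2⟩
  ss := by
    intro U hU h1 h2
    obtain ⟨U', hU', h3, h4⟩ := h.ss (U ⊔ F) (by
      intro g v hv
      obtain ⟨a, ha, b, hb, rfl⟩ := Submodule.mem_sup.1 hv
      rw [map_add]
      exact Submodule.add_mem_sup (hU g a ha) (h.lo g b hb)) le_sup_right
      (sup_le (h2.trans inf_le_left) h.le)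
    have hFU' : F ≤ U' := by
      rw [← h3]
      exact inf_le_right
    refine ⟨U' ⊓ R, fun g v hv => ⟨hU' g v hv.1, hR g v hv.2⟩, ?_, ?_⟩
    · apply le_antisymm
      · rintro v ⟨hvU, hvU', hvR⟩
        have : v ∈ (U ⊔ F) ⊓ U' := ⟨Submodule.mem_sup_left hvU, hvU'⟩
        rw [h3] at this
        exact ⟨this, hvR⟩
      · intro v hv
        exact ⟨h1 hv, hFU' hv.1, hv.2⟩
    · apply le_antisymm
      · refine sup_le h2 ?_
        rintro v ⟨hvU', hvR⟩
        refine ⟨?_, hvR⟩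
        rw [← h4]
        exact Submodule.mem_sup_right hvU'
      · rintro v ⟨hvF', hvR⟩
        rw [← h4] at hvF'
        obtain ⟨a, ha, b, hb, rfl⟩ := Submodule.mem_sup.1 hvF'
        obtain ⟨u, hu, f, hf, rfl⟩ := Submodule.mem_sup.1 ha
        refine Submodule.mem_sup.2 ⟨u, hu, f + b, ⟨U'.add_mem (hFU' hf) hb, ?_⟩, by abel⟩
        have huR : u ∈ R := (h2 hu).2
        have : f + b = (u + f + b) - u := by abel
        rw [this]
        exact R.sub_mem hvR huR

theorem hasLoewy_sub (hκ : Function.Injective κ) (he : ∀ g t, κ (τ g t) = σ g (κ t)) (k : ℕ)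
    (h : IsFilt σ ⊤ k) : IsFilt τ ⊤ k := by
  rw [isFilt_iff τ σ κ hκ he]
  obtain ⟨F, h0, hk, hF⟩ := h
  have hR : ∀ g, ∀ v ∈ LinearMap.range κ, σ g v ∈ LinearMap.range κ := by
    rintro g _ ⟨v, rfl⟩
    exact ⟨τ g v, he g v⟩
  refine ⟨fun i => F i ⊓ LinearMap.range κ, ?_, ?_, fun i hi => SSLayer.inf σ _ hR _ _ (hF i hi)⟩
  · show F 0 ⊓ _ = ⊥
    rw [h0, bot_inf_eq]
  · show F k ⊓ _ = _
    rw [hk, top_inf_eq]

theorem layer_refl (U : Submodule K M) (hU : ∀ g, ∀ v ∈ U, σ g v ∈ U) : SSLayer σ U U where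
  le := le_rfl
  lo := hU
  up := hU
  ss := by
    intro Y hY h1 h2
    have : Y = U := le_antisymm h2 h1
    exact ⟨U, hU, by rw [this, inf_idem], by rw [this, sup_idem]⟩

theorem isFilt_mono {p k : ℕ} (hpk : p ≤ k) (h : IsFilt σ ⊤ p) : IsFilt σ ⊤ k := by
  obtain ⟨F, h0, hp, hF⟩ := h
  refine ⟨fun i => if i ≤ p then F i else ⊤, ?_, ?_, ?_⟩
  · show (if 0 ≤ p then F 0 else ⊤) = ⊥
    rw [if_pos (Nat.zero_le p), h0]
  · show (if k ≤ p then F k else ⊤) = ⊤
    by_cases hk : k ≤ p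
    · rw [if_pos hk, le_antisymm hk hpk, hp]
    · rw [if_neg hk]
  · intro i _
    show SSLayer σ (if i ≤ p then F i else ⊤) (if i + 1 ≤ p then F (i + 1) else ⊤)
    rcases Nat.lt_trichotomy i p with h1 | h1 | h1
    · rw [if_pos h1.le, if_pos (by omega)]
      exact hF i h1
    · subst h1
      rw [if_pos le_rfl, if_neg (by omega), hp]
      exact layer_refl σ ⊤ (fun _ _ _ => trivial)
    · rw [if_neg (by omega), if_neg (by omega)]
      exact layer_refl σ ⊤ (fun _ _ _ => trivial)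

theorem isFilt_one : IsFilt σ ⊤ 1 ↔ SSRep σ := by
  constructor
  · rintro ⟨F, h0, h1, hF⟩ U hU
    have h2 := hF 0 one_pos
    rw [h0, zero_add, h1] at h2
    obtain ⟨U', hU', h3, h4⟩ := h2.ss U hU bot_le le_top
    exact ⟨U', hU', isCompl_iff.2 ⟨disjoint_iff.2 h3, codisjoint_iff.2 h4⟩⟩
  · intro h
    refine ⟨fun i => if i = 0 then ⊥ else ⊤, rfl, rfl, fun i hi => ?_⟩
    have : i = 0 := by omega
    subst this
    exact h.layer

theorem isFilt_zero (h : IsFilt σ ⊤ 0) : Subsingleton M := by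
  obtain ⟨F, h0, h1, _⟩ := h
  rw [h0] at h1
  exact (Submodule.subsingleton_iff K).1 (subsingleton_of_bot_eq_top h1)

theorem isFilt_of_subsingleton [Subsingleton M] : IsFilt σ ⊤ 0 :=
  ⟨fun _ => ⊥, rfl, Subsingleton.elim _ _, fun i hi => absurd hi (by omega)⟩

theorem IsoRep.isFilt {τ : Representation K Γ A} {σ : Representation K Γ M} (h : IsoRep τ σ)
    (k : ℕ) : IsFilt τ ⊤ k ↔ IsFilt σ ⊤ k := by
  obtain ⟨e, he⟩ := h
  rw [isFilt_iff τ σ e.toLinearMap e.injective he k, LinearEquiv.range]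

end basic

universe u

section main

variable {K V : Type u} {Γ : Type*} [Field K] [CharZero K] [IsAlgClosed K]
    [AddCommGroup V] [Module K V] [FiniteDimensional K V] [Group Γ]

theorem IsoRep.refl (ρ : Representation K Γ V) : IsoRep ρ ρ :=
  ⟨LinearEquiv.refl K V, fun _ _ => rfl⟩

/-- The Loewy length of a tensor power. -/
theorem loewy_tpow [Nontrivial V] (ρ : Representation K Γ V) (n : ℕ) (hn : 0 < n) :
    ∀ k, HasLoewy (tpow ρ n) k ↔ ∃ p, HasLoewy ρ p ∧ n * p + 1 ≤ k + n := by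
  have hpos : ∀ p, HasLoewy ρ p → 0 < p := by
    intro p hp
    rcases Nat.eq_zero_or_pos p with h | h
    · subst h
      exact absurd (isFilt_zero ρ hp) (not_subsingleton V)
    · exact h
  induction n, hn using Nat.le_induction with
  | base =>
    intro k
    rw [HasLoewy, (iso_one ρ).isFilt k]
    constructor
    · intro h
      exact ⟨k, h, by omega⟩
    · rintro ⟨p, h1, h2⟩
      exact isFilt_mono ρ (by omega) h1
  | succ n hn ih =>
    intro k
    have h1 : IsoRep (tpow ρ (n + 1)) ((tpow ρ n).tprod ρ) :=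
      (iso_mul ρ n 1).symm.trans ((IsoRep.refl (tpow ρ n)).tprod (iso_one ρ))
    rw [HasLoewy, h1.isFilt k]
    have h2 := loewy_tprod (tpow ρ n) ρ k
    rw [HasLoewy] at h2
    rw [h2]
    constructor
    · rintro ⟨a, q, ha, hq, hak⟩
      obtain ⟨p, hp, hpa⟩ := (ih a).1 ha
      rcases le_total p q with h | h
      · refine ⟨p, hp, ?_⟩
        have : (n + 1) * p = n * p + p := by ring
        omega
      · refine ⟨q, hq, ?_⟩
        have h3 : (n + 1) * q = n * q + q := by ring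
        have h4 : n * q ≤ n * p := Nat.mul_le_mul_left n h
        omega
    · rintro ⟨p, hp, hpk⟩
      have h3 : (n + 1) * p = n * p + p := by ring
      have h4 : n * 1 ≤ n * p := Nat.mul_le_mul_left n (hpos p hp)
      refine ⟨n * p + 1 - n, p, (ih _).2 ⟨p, hp, by omega⟩, hp, by omega⟩

end main

end Pool.Agent.U282.ZL
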